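import Pool.Agent.GH.Mat.Wz
import Pool.Agent.GH.Pot.Defs

/-!
# GH-MAT: statements

All statements are `Prop`s; every one was checked by exact computation for small indices.
Head: helper25. Paper proof: note 5062 (helper25) on MP_370013_nt.
-/

open Polynomial

noncomputable section

namespace GH.Mat

/-! ### Block MA: the identity `A N = B` over a field of characteristic `0` -/

/-- MA1: telescoping. -/
def SpWzStep : Prop := ∀ (K : Type) [Field K] [CharZero K] (y : K), Gen y →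
  ∀ i j k : ℕ, 1 ≤ i → 1 ≤ j → j ≤ 2 * i → k ≤ i →
    AA y (i + 1) k * NN y k j - rho y i j * (AA y i k * NN y k j) =
      gg y i j (k + 1) - gg y i j k

/-- MA2: the value of the certificate at the top. -/
def SpWzTop : Prop := ∀ (K : Type) [Field K] [CharZero K] (y : K), Gen y →
  ∀ i j : ℕ, 1 ≤ i → 1 ≤ j → j ≤ 2 * i → gg y i j (i + 1) = - NN y (i + 1) j

/-- MA3: the recurrence and the start values of the products `B`. -/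
def SpRec : Prop := ∀ (K : Type) [Field K] [CharZero K] (y : K), Gen y →
  (∀ i : ℕ, 1 ≤ i → AA y i i = 1) ∧
  (∀ i j : ℕ, 1 ≤ i → 1 ≤ j → j ≤ 2 * i → BB y (i + 1) j = rho y i j * BB y i j) ∧
  (∀ i : ℕ, BB y (i + 1) (2 * i + 1) = NN y (i + 1) (2 * i + 1)) ∧
  (∀ i : ℕ, BB y (i + 1) (2 * i + 2) = NN y (i + 1) (2 * i + 2))

/-- MA4: `A N = B`. -/
def SpANB : Prop := ∀ (K : Type) [Field K] [CharZero K] (y : K), Gen y →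
  ∀ i j : ℕ, 1 ≤ i → 1 ≤ j → ∑ k ∈ Finset.range (i + 1), AA y i k * NN y k j = BB y i j

/-! ### Block MB: the matrix of polynomials over `ℤ_2` -/

/-- The 2-adic integer with the value `q` (and `0` if `q` is not 2-integral). -/
def cz (q : ℚ) : ℤ_[2] := if h : ‖(q : ℚ_[2])‖ ≤ 1 then ⟨q, h⟩ else 0

/-- The odd analogue of `N_kj(y)`: `[t^(2k-j)] (1 + 2t) (1 + t)^(k+j-1-y)`. -/
def NNo {K : Type*} [Field K] (y : K) (k j : ℕ) : K :=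
  if 2 * k < j then 0 else if 2 * k = j then 1 else
    (3 * (k : K) - y) *
      (∏ l ∈ Finset.Icc 1 (2 * k - j - 1), ((k : K) + j - l - y)) / ((2 * k - j).factorial : K)

/-- The matrix `M'` as a matrix of polynomials over `ℤ_2`; the indices start with `0`. -/
def PM (e a b : ℕ) : ℤ_[2][X] :=
  if 2 * (a + 1) < b + 1 then 0 else if 2 * (a + 1) = b + 1 then C (cz (4 ^ (a + b + 2))) else
    C (cz (4 ^ (a + b + 2) / (2 ^ (1 - e) * ((2 * (a + 1) - (b + 1)).factorial : ℚ)))) *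
      (if e = 0 then C (3 * ((b : ℤ_[2]) + 1)) - 2 * X else C (3 * ((a : ℤ_[2]) + 1)) - X) *
      ∏ l ∈ Finset.Icc 1 (2 * (a + 1) - (b + 1) - 1), (C ((a : ℤ_[2]) + b + 2 - l) - X)

/-- MB0: the matrices of `Cen`. -/
def SpMM : Prop := ∀ (K : Type) [Field K] [CharZero K] (y : K) (i j : ℕ),
  Cen.MM 0 y i j = 4 ^ (i + j) * NN y i j ∧ Cen.MM 1 y i j = 4 ^ (i + j) * NNo y i j ∧
  NNo y i j * (3 * (j : K) - 2 * y) = 2 * (3 * (i : K) - y) * NN y i j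

/-- MB1: the values of `PM`. -/
def SpEval : Prop := ∀ (K : Type) [Field K] [CharZero K] (φ : ℤ_[2] →+* K) (y : K)
  (e a b : ℕ), e ≤ 1 → (PM e a b).eval₂ φ y = Cen.MM e y (a + 1) (b + 1)

/-- MB1b: `8^j` divides the column `j`. -/
def SpEight : Prop := ∀ e a b : ℕ, e ≤ 1 → C ((8 : ℤ_[2]) ^ (b + 1)) ∣ PM e a b

/-- The numerator of `d_n`. -/
def VP (e n : ℕ) : ℤ_[2][X] :=
  C ((-8) ^ n * 2 ^ e) * (∏ s ∈ Finset.Icc (2 * n + 1) (3 * n - e), (2 * X - C (s : ℤ_[2]))) *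
    ∏ m ∈ Finset.Icc (2 * n + 1) (3 * n - 1 + e), (X - C (m : ℤ_[2]))

/-- The denominator of `d_n`. -/
def WP (n : ℕ) : ℤ_[2][X] :=
  C (∏ t ∈ Finset.range n, (2 * (t : ℤ_[2]) + 1)) *
    ∏ m ∈ Finset.Icc (n + 1) (2 * n - 1), (X - C (m : ℤ_[2]))

/-- MB2: `D_n W_n = D_(n-1) V_n`. -/
def SpDet : Prop := ∀ e n : ℕ, e ≤ 1 → 1 ≤ n →
  Pot.lead (PM e) n * WP n = Pot.lead (PM e) (n - 1) * VP e n

/-- MB3: the increments of the tents. -/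
def SpTent : Prop := ∀ e n m : ℕ, e ≤ 1 → 1 ≤ n →
  Cen.tent e m n + (if n + 1 ≤ m ∧ m ≤ 2 * n - 1 then 1 else 0) =
    Cen.tent e m (n - 1) + (if 2 * n + 1 ≤ m ∧ m ≤ 3 * n - 1 + e then 1 else 0) +
      (if n + 1 ≤ m ∧ m ≤ (3 * n - e) / 2 then 1 else 0)

/-- MB4: the field `lead` of `Pot.Mat`. -/
def SpLead : Prop := ∀ e : ℕ, e ≤ 1 → ∀ n : ℕ, ∃ (u : ℤ_[2][X]) (z : (ℤ_[2])ˣ),
  C ((2 : ℕ) : ℤ_[2]) ∣ u - C (z : ℤ_[2]) ∧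
    Pot.lead (PM e) n = C (((2 : ℕ) : ℤ_[2]) ^ Cen.B e n) * u *
      ∏ m ∈ Finset.range (3 * n + 2), (X - C (m : ℤ_[2])) ^ Cen.tent e m n

/-! ### Block MC: root dominance -/

/-- MC1: abstract root dominance from `A M = B`. -/
def SpAbs : Prop := ∀ (S : Type) [CommRing S] (π : S) (w : ℕ → ℕ) (M A B : ℕ → ℕ → S),
  StrictMono w → (∀ i, A i i = 1) → (∀ i k, k < i → π ∣ A i k) → (∀ i j, j < i → B i j = 0) →
  (∀ i, π ^ w i ∣ B i i) → (∀ i j, i < j → π ^ (w i + 1) ∣ B i j) →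
  (∀ i j, ∑ k ∈ Finset.range (i + 1), A i k * M k j = B i j) →
  ∀ (n : ℕ) (a b : Fin n → ℕ), (∃ i, n ≤ a i ∨ n ≤ b i) →
    π ^ ((∑ k ∈ Finset.range n, w k) + 1) ∣ Pot.minor M a b

/-- MC2: root dominance. -/
def SpRoot : Prop := ∀ e : ℕ, e ≤ 1 → ∀ (n : ℕ) (a b : Fin n → ℕ), (∃ i, n ≤ a i ∨ n ≤ b i) →
  ∀ c, ((Cen.B e n + 1 : ℕ) : ℕ∞) ≤ Pot.gv 2 c 0 (Pot.minor (PM e) a b)

/-! ### Block MD: the rank decomposition at the integers -/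

/-- MD1: the trace identity, even case (`z = (s-1)²/s`). -/
def SpTrE : Prop := ∀ (K : Type) [Field K] [CharZero K] (s : K), s ≠ 0 → ∀ (m : ℤ) (j : ℕ),
  ∃ I₀ : ℕ, ∀ I, I₀ ≤ I → 2 * ∑ i ∈ Finset.range I, NN (m : K) i j * ((s - 1) ^ 2 / s) ^ i =
    s ^ ((j : ℤ) - m) * (s - 1) ^ j + s ^ (m - 2 * (j : ℤ)) * (1 - s) ^ j

/-- MD1b: the trace identity, odd case. -/
def SpTrO : Prop := ∀ (K : Type) [Field K] [CharZero K] (s : K), s ≠ 0 → ∀ (m : ℤ) (j : ℕ),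
  ∃ I₀ : ℕ, ∀ I, I₀ ≤ I →
    (s + 1) * ∑ i ∈ Finset.range I, NNo (m : K) i j * ((s - 1) ^ 2 / s) ^ i =
      (2 * s - 1) * s ^ ((j : ℤ) - m) * (s - 1) ^ j +
        (2 - s) * s ^ (m - 2 * (j : ℤ)) * (1 - s) ^ j

/-- MD2: vanishing at the integers. -/
def SpVan : Prop := ∀ (m i j : ℕ), 1 ≤ j → j < m → m ≤ i →
  NN (m : ℚ) i j = 0 ∧ NNo (m : ℚ) i j = 0

/-- MD3: the invariants of `S_3` of weight `2m` which vanish at `0`. -/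
def SpInv : Prop := ∀ (m : ℕ) (H : ℚ[X]), H.natDegree ≤ 2 * m → H.comp (1 - X) = H →
  H.reflect (2 * m) = H → H.eval 0 = 0 →
    ∃ c : Fin (m / 3) → ℚ, H = ∑ b : Fin (m / 3),
      C (c b) * ((X * (X - 1)) ^ (2 * ((b : ℕ) + 1)) * (X ^ 2 - X + 1) ^ (m - 3 * ((b : ℕ) + 1)))

/-- MD4: the rank decomposition, even case. -/
def SpRankE : Prop := ∀ m : ℕ, 1 ≤ m → ∃ (x : ℕ → Fin (m / 3) → ℚ) (y : Fin (m / 3) → ℕ → ℚ),
  ∀ i j : ℕ, 1 ≤ i → i < m → 1 ≤ j → j < m →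
    NN (m : ℚ) i j + (if i + j = m then 1 / 2 else 0) = ∑ l, x i l * y l j

/-- MD5: the rank decomposition, odd case. -/
def SpRankO : Prop := ∀ m : ℕ, 1 ≤ m →
  ∃ (x : ℕ → Fin ((m - 1) / 3) → ℚ) (y : Fin ((m - 1) / 3) → ℕ → ℚ),
  ∀ i j : ℕ, 1 ≤ i → i < m → 1 ≤ j → j < m →
    NNo (m : ℚ) i j - (if i + j = m then 1 else 0) = ∑ l, x i l * y l j

/-- MD0 (helper88): the rank decomposition for `MM` (both discs, all `i, j ≥ 1`). -/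
def SpRankMM : Prop := ∀ e : ℕ, e ≤ 1 → ∀ m : ℕ, 1 ≤ m →
  ∃ (x : ℕ → Fin (Cen.tm e m) → ℚ) (y : Fin (Cen.tm e m) → ℕ → ℚ),
    ∀ i j : ℕ, 1 ≤ i → 1 ≤ j → ∃ z : ℤ,
      Cen.MM e (m : ℚ) i j = ∑ l, x i l * y l j + 2 ^ Cen.sig e m * (z : ℚ)

/-- MD6: the field `corank` of `Pot.Mat`. -/
def SpCorank : Prop := ∀ e : ℕ, e ≤ 1 → ∀ m : ℕ, 1 ≤ m →
  ∃ (x : ℕ → Fin (Cen.tm e m) → ℚ_[2]) (y : Fin (Cen.tm e m) → ℕ → ℚ_[2]),
    ∀ i j, ∃ z : ℤ_[2], (((PM e i j).eval (m : ℤ_[2]) : ℤ_[2]) : ℚ_[2]) =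
      ∑ l, x i l * y l j + ((2 : ℕ) : ℚ_[2]) ^ Cen.sig e m * z

/-! ### Block ME: assembly -/

/-- ME1: the input of GH-POT. -/
def SpMat : Prop := ∀ e : ℕ, e ≤ 1 → Pot.Mat 2 (PM e) (Cen.B e) (fun n ↦ 3 * n + 2)
  (fun n m ↦ Cen.tent e m n) (Cen.sig e) (Cen.tm e)

/-- ME2: `D_n(y)` as a value of the leading minor. -/
def SpDD : Prop := ∀ (K : Type) [Field K] [CharZero K] (φ : ℤ_[2] →+* K) (y : K)
  (e n : ℕ), e ≤ 1 → Cen.DD e y n = (Pot.lead (PM e) n).eval₂ φ y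

/-- The absolute value of `D_n(y)`. -/
def SpNormD : Prop := ∀ (e n : ℕ) (y : C2), e ≤ 1 → ‖y‖ ≤ 1 → ‖Cen.DD e y n‖ =
  (2 : ℝ) ^ (-(Cen.B e n : ℝ)) * ∏ m ∈ Finset.range (3 * n + 2), ‖y - (m : C2)‖ ^ Cen.tent e m n

/-- `GH.norm_ghost_wx` (GhostVal). -/
def SpNormGhost : Prop := ∀ x : C2, ‖x‖ ≤ 1 → ∀ n : ℕ,
  ‖ghost 2 (wx x) n‖ = ∏ m ∈ Finset.range (6 * n + 2), (‖x - m‖ / 8) ^ mult 2 n (2 * m)

/-- ME3: comparison of the multiplicities. -/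
def SpMult : Prop := ∀ (e n μ : ℕ), e ≤ 1 → mult 2 n (2 * (2 * μ + e)) = Cen.tent e μ n

/-- ME4: `|D_n(y)| = |g_n(w(x))|`, `x = 2y + e`. -/
def SpGhost : Prop := ∀ (e n : ℕ) (y : C2), e ≤ 1 → ‖y‖ ≤ 1 →
  ‖Cen.DD e y n‖ = ‖ghost 2 (wx (2 * y + e)) n‖

end GH.Mat
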