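import Pool.Agent.GH.Mat.Spec

/-!
# GH-MAT, row MC1: abstract root dominance
-/

set_option autoImplicit false

noncomputable section

namespace GH.Mat

/-- the inverse of the unitriangular matrix -/
theorem mc1_exists_L {S : Type} [CommRing S] {π : S} {M A B : ℕ → ℕ → S}
    (h1 : ∀ i, A i i = 1) (h2 : ∀ i k, k < i → π ∣ A i k)
    (h3 : ∀ i j, ∑ k ∈ Finset.range (i + 1), A i k * M k j = B i j) (i : ℕ) :
    ∃ L : ℕ → S, L i = 1 ∧ (∀ k, k < i → π ∣ L k) ∧ (∀ k, i < k → L k = 0) ∧
      ∀ j, M i j = ∑ k ∈ Finset.range (i + 1), L k * B k j := by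
  classical
  induction i using Nat.strong_induction_on with
  | _ i ih =>
    choose! L hL1 hL2 hL0 hL3 using ih
    refine ⟨fun k => if k = i then 1 else if i < k then 0 else
      - ∑ l ∈ Finset.range i, A i l * L l k, by simp, ?_, ?_, ?_⟩
    · intro k hk
      simp only
      rw [if_neg hk.ne, if_neg (by omega)]
      rw [dvd_neg]
      refine Finset.dvd_sum fun l hl => ?_
      exact (h2 i l (Finset.mem_range.1 hl)).mul_right _
    · intro k hk
      simp only
      rw [if_neg hk.ne', if_pos hk]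
    · intro j
      have e1 : M i j = B i j - ∑ l ∈ Finset.range i, A i l * M l j := by
        rw [← h3 i j, Finset.sum_range_succ, h1, one_mul, add_sub_cancel_left]
      have e2 : ∀ l ∈ Finset.range i, A i l * M l j =
          ∑ k ∈ Finset.range i, A i l * L l k * B k j := by
        intro l hl
        rw [Finset.mem_range] at hl
        rw [hL3 l hl j, Finset.mul_sum]
        have e3 : ∑ k ∈ Finset.range (l + 1), A i l * (L l k * B k j) =
            ∑ k ∈ Finset.range i, A i l * (L l k * B k j) := by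
          refine Finset.sum_subset (Finset.range_mono (by omega)) fun k _ hk => ?_
          rw [Finset.mem_range, not_lt] at hk
          rw [hL0 l hl k (by omega), zero_mul, mul_zero]
        rw [e3]
        exact Finset.sum_congr rfl fun k _ => by ring
      rw [e1, Finset.sum_congr rfl e2, Finset.sum_comm, Finset.sum_range_succ]
      simp only [if_true, one_mul]
      rw [sub_eq_neg_add, ← Finset.sum_neg_distrib]
      congr 1
      refine Finset.sum_congr rfl fun k hk => ?_
      rw [Finset.mem_range] at hk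
      rw [if_neg hk.ne, if_neg (by omega), ← Finset.sum_mul, neg_mul]

/-- sums of a strictly increasing sequence over sets of `n` elements -/
theorem mc1_sum_le {w : ℕ → ℕ} (hw : StrictMono w) {n : ℕ} {F : Finset ℕ} (hF : F.card = n) :
    ∑ k ∈ Finset.range n, w k ≤ ∑ k ∈ F, w k ∧
      (F ≠ Finset.range n → ∑ k ∈ Finset.range n, w k + 1 ≤ ∑ k ∈ F, w k) := by
  classical
  set e := F.orderEmbOfFin hF with he
  have hsum : ∑ k ∈ F, w k = ∑ i : Fin n, w (e i) := by
    rw [← Finset.sum_coe_sort F]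
    exact (Equiv.sum_comp (F.orderIsoOfFin hF).toEquiv (fun x : F => w x)).symm
  have hrange : ∑ k ∈ Finset.range n, w k = ∑ i : Fin n, w i := Finset.sum_range _
  have hge : ∀ i : Fin n, (i : ℕ) ≤ e i := by
    intro i
    obtain ⟨i, hi⟩ := i
    induction i with
    | zero => exact Nat.zero_le _
    | succ i ih =>
      have h1 := ih (by omega)
      have h2 : e ⟨i, by omega⟩ < e ⟨i + 1, hi⟩ := e.strictMono (by
        rw [Fin.lt_def]
        exact Nat.lt_succ_self i)
      exact Nat.succ_le_of_lt (lt_of_le_of_lt h1 h2)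
  rw [hsum, hrange]
  refine ⟨Finset.sum_le_sum fun i _ => hw.monotone (hge i), fun hne => ?_⟩
  have hex : ∃ i : Fin n, (i : ℕ) < e i := by
    by_contra hc
    push Not at hc
    apply hne
    have heq : ∀ i : Fin n, e i = (i : ℕ) := fun i => le_antisymm (hc i) (hge i)
    refine Finset.eq_of_subset_of_card_le (fun x hx => ?_) (by rw [hF, Finset.card_range])
    have : x ∈ Set.range e := by
      rw [he, Finset.range_orderEmbOfFin]
      exact hx
    obtain ⟨i, rfl⟩ := this
    rw [heq i]
    exact Finset.mem_range.2 i.2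
  obtain ⟨i, hi⟩ := hex
  exact Finset.sum_lt_sum (fun i _ => hw.monotone (hge i)) ⟨i, Finset.mem_univ _, hw hi⟩

theorem mc1_prod_dvd {S ι : Type} [CommRing S] [Fintype ι] {π : S} (g : ι → S) (v : ι → ℕ)
    (h : ∀ i, π ^ v i ∣ g i) : π ^ (∑ i, v i) ∣ ∏ i, g i := by
  rw [← Finset.prod_pow_eq_pow_sum]
  exact Finset.prod_dvd_prod_of_dvd _ _ fun i _ => h i

theorem mc1_prod_dvd' {S ι : Type} [CommRing S] [Fintype ι] [DecidableEq ι] {π : S} (g : ι → S)
    (v : ι → ℕ) (h : ∀ i, π ^ v i ∣ g i) (i0 : ι) (h0 : π ^ (v i0 + 1) ∣ g i0) :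
    π ^ ((∑ i, v i) + 1) ∣ ∏ i, g i := by
  have h1 : (∑ i, v i) + 1 = ∑ i, (v i + if i = i0 then 1 else 0) := by
    rw [Finset.sum_add_distrib, Finset.sum_ite_eq' Finset.univ i0, if_pos (Finset.mem_univ _)]
  rw [h1]
  refine mc1_prod_dvd g _ fun i => ?_
  split_ifs with hi
  · rw [hi]
    exact h0
  · exact h i

/-- the determinants of rows of `B` -/
theorem mc1_det_dvd {S : Type} [CommRing S] {π : S} {w : ℕ → ℕ} {B : ℕ → ℕ → S}
    (h4 : ∀ i j, j < i → B i j = 0) (h5 : ∀ i, π ^ w i ∣ B i i)
    (h6 : ∀ i j, i < j → π ^ (w i + 1) ∣ B i j) {n : ℕ} (f b : Fin n → ℕ) :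
    π ^ (∑ i, w (f i)) ∣ (Matrix.of fun i j => B (f i) (b j)).det ∧
    ((∃ j, ∀ i, f i < b j) →
      π ^ ((∑ i, w (f i)) + 1) ∣ (Matrix.of fun i j => B (f i) (b j)).det) := by
  have hB : ∀ i j, π ^ w i ∣ B i j := by
    intro i j
    rcases lt_trichotomy i j with h | h | h
    · exact (pow_dvd_pow π (Nat.le_succ _)).trans (h6 i j h)
    · rw [← h]
      exact h5 i
    · rw [h4 i j h]
      exact dvd_zero _
  have hs : ∀ σ : Equiv.Perm (Fin n), ∑ i, w (f (σ i)) = ∑ i, w (f i) := fun σ =>
    Equiv.sum_comp σ (fun i => w (f i))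
  rw [Matrix.det_apply]
  constructor
  · refine Finset.dvd_sum fun σ _ => ?_
    rw [Units.smul_def, zsmul_eq_mul]
    refine Dvd.dvd.mul_left ?_ _
    rw [← hs σ]
    exact mc1_prod_dvd _ _ fun i => hB _ _
  · rintro ⟨j, hj⟩
    refine Finset.dvd_sum fun σ _ => ?_
    rw [Units.smul_def, zsmul_eq_mul]
    refine Dvd.dvd.mul_left ?_ _
    rw [← hs σ]
    exact mc1_prod_dvd' _ _ (fun i => hB _ _) j (h6 _ _ (hj _))

theorem absRoot : SpAbs := by
  intro S _ π w M A B hw h1 h2 h4 h5 h6 h3 n a b hab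
  classical
  choose L hL1 hL2 hL0 hL3 using mc1_exists_L h1 h2 h3
  -- a common bound
  obtain ⟨N, hN⟩ : ∃ N, ∀ i, a i + 1 ≤ N :=
    ⟨∑ i, (a i + 1), fun i => Finset.single_le_sum (f := fun i => a i + 1)
      (fun _ _ => Nat.zero_le _) (Finset.mem_univ i)⟩
  have hM : ∀ i j, M (a i) (b j) = ∑ k : Fin N, L (a i) k * B k (b j) := by
    intro i j
    rw [hL3, ← Finset.sum_range (fun k => L (a i) k * B k (b j))]
    refine Finset.sum_subset (Finset.range_mono (hN i)) fun k _ hk => ?_
    rw [Finset.mem_range, not_lt] at hk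
    rw [hL0 (a i) k (by omega), zero_mul]
  have hdet : Pot.minor M a b = ∑ f : Fin n → Fin N,
      (∏ i, L (a i) (f i)) * (Matrix.of fun i j => B (f i) (b j)).det := by
    unfold Pot.minor
    have e1 : (Matrix.of fun i j => M (a i) (b j)) =
        fun i => ∑ k : Fin N, L (a i) k • (fun j => B k (b j)) := by
      funext i
      funext j
      rw [Finset.sum_apply]
      exact hM i j
    rw [e1]
    show Matrix.detRowAlternating (fun i => ∑ k : Fin N, L (a i) k • (fun j => B k (b j))) = _
    rw [← AlternatingMap.coe_multilinearMap, MultilinearMap.map_sum]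
    refine Finset.sum_congr rfl fun f _ => ?_
    rw [MultilinearMap.map_smul_univ, smul_eq_mul]
    rfl
  rw [hdet]
  refine Finset.dvd_sum fun f _ => ?_
  obtain ⟨d1, d2⟩ := mc1_det_dvd h4 h5 h6 (fun i => (f i : ℕ)) b
  by_cases hf : Function.Injective f
  · -- the set of values
    set F : Finset ℕ := Finset.univ.image (fun i => (f i : ℕ)) with hF
    have hinj : Function.Injective (fun i => (f i : ℕ)) := fun i j hij => hf (Fin.ext hij)
    have hcard : F.card = n := by
      rw [hF, Finset.card_image_of_injective _ hinj, Finset.card_univ, Fintype.card_fin]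
    have hsumF : ∑ k ∈ F, w k = ∑ i, w (f i) := by
      rw [hF, Finset.sum_image fun i _ j _ hij => hinj hij]
    obtain ⟨s1, s2⟩ := mc1_sum_le hw hcard
    rw [hsumF] at s1 s2
    by_cases hFr : F = Finset.range n
    · have hlt : ∀ i, (f i : ℕ) < n := fun i => by
        rw [← Finset.mem_range, ← hFr, hF]
        exact Finset.mem_image_of_mem _ (Finset.mem_univ i)
      obtain ⟨i, hi⟩ := hab
      rcases hi with hi | hi
      · have hd : π ∣ ∏ i, L (a i) (f i) :=
          (hL2 (a i) (f i) (lt_of_lt_of_le (hlt i) hi)).trans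
            (Finset.dvd_prod_of_mem (fun i => L (a i) (f i)) (Finset.mem_univ i))
        rw [pow_succ, mul_comm]
        exact mul_dvd_mul hd ((pow_dvd_pow π s1).trans d1)
      · refine Dvd.dvd.mul_left ?_ _
        exact (pow_dvd_pow π (by omega)).trans (d2 ⟨i, fun k => lt_of_lt_of_le (hlt k) hi⟩)
    · refine Dvd.dvd.mul_left ?_ _
      exact (pow_dvd_pow π (s2 hFr)).trans d1
  · have hz : (Matrix.of fun i j => B (f i) (b j)).det = 0 := by
      unfold Function.Injective at hf
      push Not at hf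
      obtain ⟨i, j, hij, hne⟩ := hf
      refine Matrix.det_zero_of_row_eq hne ?_
      funext k
      simp [hij]
    rw [hz, mul_zero]
    exact dvd_zero _

end GH.Mat
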