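import Pool.Agent.GH.Mat.Spec
import Pool.Agent.GH.Pot.LeadVal

/-!
# GH-MAT, ME1: assembly
-/

open Polynomial

noncomputable section

namespace GH.Mat

theorem me1_tent_zero (e n : ℕ) : Cen.tent e 0 n = 0 := by
  unfold Cen.tent
  omega

theorem matPM (h1 : SpLead) (h2 : SpRoot) (h3 : SpCorank) : SpMat := by
  intro e he
  refine ⟨h1 e he, h2 e he, ?_⟩
  rintro m ⟨n, hn⟩
  refine h3 e he m ?_
  rcases Nat.eq_zero_or_pos m with h | h
  · subst h
    exact absurd (me1_tent_zero e n) hn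
  · exact h

theorem ddPM (hE : SpEval) : SpDD := by
  intro K _ _ φ y e n he
  unfold Cen.DD Pot.lead Pot.minor
  rw [← coe_eval₂RingHom, RingHom.map_det]
  congr 1
  ext i j
  simp only [Cen.blk, Matrix.of_apply, RingHom.mapMatrix_apply, Matrix.map_apply,
    coe_eval₂RingHom]
  exact (hE K φ y e i j he).symm

theorem me1_norm_iota (a : ℤ_[2]) : ‖iota a‖ = ‖a‖ := by
  change ‖algebraMap ℚ_[2] C2 (a : ℚ_[2])‖ = ‖a‖
  rw [norm_algebraMap']
  rfl

theorem normD (hDD : SpDD) (hL : SpLead) : SpNormD := by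
  intro e n y he hy
  rw [hDD C2 iota y e n he]
  obtain ⟨u, z, ⟨q, hq⟩, hl⟩ := hL e he n
  have hφ := me1_norm_iota
  rw [hl, eval₂_mul, eval₂_mul, norm_mul, norm_mul, eval₂_C, hφ, PadicInt.norm_p_pow]
  have hu : ‖u.eval₂ iota y‖ = 1 := by
    have h1 : u = C (z : ℤ_[2]) + C ((2 : ℕ) : ℤ_[2]) * q := by
      rw [← hq]
      ring
    rw [h1, eval₂_add, eval₂_mul, eval₂_C, eval₂_C]
    have h2 : ‖iota (z : ℤ_[2])‖ = 1 := by rw [hφ, PadicInt.norm_units]
    have h3 : ‖iota ((2 : ℕ) : ℤ_[2]) * q.eval₂ iota y‖ < ‖iota (z : ℤ_[2])‖ := by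
      rw [h2, norm_mul, hφ, PadicInt.norm_p]
      calc ((2 : ℕ) : ℝ)⁻¹ * ‖q.eval₂ iota y‖ ≤ ((2 : ℕ) : ℝ)⁻¹ * 1 :=
            mul_le_mul_of_nonneg_left (Pot.lv_norm_eval_le iota hφ hy q) (by positivity)
        _ < 1 := by norm_num
    have h4 := IsUltrametricDist.norm_add_eq_max_of_norm_ne_norm h3.ne'
    rw [h4, max_eq_left h3.le, h2]
  rw [hu, mul_one]
  congr 1
  · rw [zpow_neg, zpow_natCast, Real.rpow_neg (by positivity), Real.rpow_natCast]
    norm_num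
  · rw [← coe_eval₂RingHom, map_prod, norm_prod]
    refine Finset.prod_congr rfl fun m _ => ?_
    rw [map_pow, norm_pow, coe_eval₂RingHom, eval₂_sub, eval₂_X, eval₂_C, map_natCast]

/-! ### Sums of the tents -/

theorem me1_tent {e n m : ℕ} (he : e ≤ 1) (hn : 1 ≤ n) :
    Cen.tent e m n + (if n + 1 ≤ m ∧ m ≤ 2 * n - 1 then 1 else 0) =
    Cen.tent e m (n - 1) + (if 2 * n + 1 ≤ m ∧ m ≤ 3 * n - 1 + e then 1 else 0) +
      (if n + 1 ≤ m ∧ m ≤ (3 * n - e) / 2 then 1 else 0) := by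
  unfold Cen.tent Cen.tm
  rcases Nat.le_one_iff_eq_zero_or_eq_one.1 he with rfl | rfl
  · split_ifs <;> omega
  · split_ifs <;> omega

theorem me1_count (N a b : ℕ) (h : b < N) :
    ∑ m ∈ Finset.range N, (if a ≤ m ∧ m ≤ b then 1 else 0) = b + 1 - a := by
  rw [← Finset.card_filter]
  have : Finset.filter (fun m => a ≤ m ∧ m ≤ b) (Finset.range N) = Finset.Icc a b := by
    ext m
    simp only [Finset.mem_filter, Finset.mem_range, Finset.mem_Icc]
    omega
  rw [this, Nat.card_Icc]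

theorem me1_sum_tent {e : ℕ} (he : e ≤ 1) (N n : ℕ) (hN : 3 * n + 1 ≤ N) :
    ∑ m ∈ Finset.range N, Cen.tent e m n = ∑ k ∈ Finset.Icc 1 n, (k + e) / 2 := by
  induction n with
  | zero =>
    simp only [Finset.Icc_eq_empty_of_lt Nat.zero_lt_one, Finset.sum_empty]
    refine Finset.sum_eq_zero fun m _ => ?_
    unfold Cen.tent Cen.tm
    omega
  | succ n ih =>
    rw [Finset.sum_Icc_succ_top (by omega), ← ih (by omega)]
    have h1 : ∑ m ∈ Finset.range N, (Cen.tent e m (n + 1) +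
        (if (n + 1) + 1 ≤ m ∧ m ≤ 2 * (n + 1) - 1 then 1 else 0)) =
        ∑ m ∈ Finset.range N, (Cen.tent e m (n + 1 - 1) +
          (if 2 * (n + 1) + 1 ≤ m ∧ m ≤ 3 * (n + 1) - 1 + e then 1 else 0) +
          (if (n + 1) + 1 ≤ m ∧ m ≤ (3 * (n + 1) - e) / 2 then 1 else 0)) :=
      Finset.sum_congr rfl fun m _ => me1_tent he (by omega)
    rw [Finset.sum_add_distrib, Finset.sum_add_distrib, Finset.sum_add_distrib,
      me1_count _ _ _ (by omega), me1_count _ _ _ (by omega), me1_count _ _ _ (by omega),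
      Nat.add_sub_cancel] at h1
    rcases Nat.le_one_iff_eq_zero_or_eq_one.1 he with rfl | rfl <;> omega

theorem me1_B {e : ℕ} (he : e ≤ 1) (n : ℕ) :
    Cen.B e n = 4 * ∑ m ∈ Finset.range (3 * n + 1), Cen.tent e m n +
      3 * ∑ m ∈ Finset.range (3 * n + 1), Cen.tent (1 - e) m n := by
  rw [me1_sum_tent he _ _ le_rfl, me1_sum_tent (by omega) _ _ le_rfl, Finset.mul_sum,
    Finset.mul_sum, ← Finset.sum_add_distrib, Cen.B]
  refine Finset.sum_congr rfl fun k _ => ?_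
  rcases Nat.le_one_iff_eq_zero_or_eq_one.1 he with rfl | rfl <;> omega

theorem me1_prod_parity {e : ℕ} (he : e ≤ 1) (N : ℕ) (g : ℕ → ℝ) :
    ∏ m ∈ Finset.range (2 * N), g m =
      (∏ μ ∈ Finset.range N, g (2 * μ + e)) * ∏ μ ∈ Finset.range N, g (2 * μ + (1 - e)) := by
  induction N with
  | zero => simp
  | succ N ih =>
    rw [show 2 * (N + 1) = 2 * N + 1 + 1 by ring, Finset.prod_range_succ, Finset.prod_range_succ,
      ih, Finset.prod_range_succ, Finset.prod_range_succ]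
    rcases Nat.le_one_iff_eq_zero_or_eq_one.1 he with rfl | rfl
    · simp only [add_zero, Nat.sub_zero]
      ring
    · simp only [Nat.sub_self, add_zero]
      ring

theorem me1_norm_two : ‖(2 : C2)‖ = 1 / 2 := by
  have h1 : (2 : C2) = iota ((2 : ℕ) : ℤ_[2]) := by
    rw [map_natCast]
    norm_num
  rw [h1, me1_norm_iota, PadicInt.norm_p]
  norm_num

theorem me1_norm_nat_le (m : ℕ) : ‖(m : C2)‖ ≤ 1 := by
  have h1 : (m : C2) = iota (m : ℤ_[2]) := by rw [map_natCast]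
  rw [h1, me1_norm_iota]
  exact PadicInt.norm_le_one _

theorem me1_norm_half {y : C2} (hy : ‖y‖ ≤ 1) (μ : ℕ) : ‖2 * (y - (μ : C2))‖ < 1 := by
  rw [norm_mul, me1_norm_two]
  have h1 : ‖y - (μ : C2)‖ ≤ 1 := by
    rw [sub_eq_add_neg]
    refine (IsUltrametricDist.norm_add_le_max _ _).trans (max_le hy ?_)
    rw [norm_neg]
    exact me1_norm_nat_le μ
  linarith

theorem me1_norm_unit {y : C2} (hy : ‖y‖ ≤ 1) (μ : ℕ) {d : C2} (hd : ‖d‖ = 1) :
    ‖2 * (y - (μ : C2)) + d‖ = 1 := by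
  have h1 := me1_norm_half hy μ
  have h2 : ‖2 * (y - (μ : C2))‖ ≠ ‖d‖ := by
    rw [hd]
    exact h1.ne
  rw [IsUltrametricDist.norm_add_eq_max_of_norm_ne_norm h2, hd, max_eq_right h1.le]

theorem ghostD (hN : SpNormD) (hG : SpNormGhost) (hm : SpMult) : SpGhost := by
  intro e n y he hy
  have hx : ‖2 * y + (e : C2)‖ ≤ 1 := by
    refine (IsUltrametricDist.norm_add_le_max _ _).trans (max_le ?_ (me1_norm_nat_le e))
    rw [norm_mul, me1_norm_two]
    linarith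
  rw [hN e n y he hy, hG _ hx n, show 6 * n + 2 = 2 * (3 * n + 1) by ring,
    me1_prod_parity he]
  have e1 : ∀ μ : ℕ, (‖2 * y + (e : C2) - ((2 * μ + e : ℕ) : C2)‖ / 8) ^
      mult 2 n (2 * (2 * μ + e)) = ‖y - (μ : C2)‖ ^ Cen.tent e μ n *
        ((1 : ℝ) / 16) ^ Cen.tent e μ n := by
    intro μ
    rw [hm e n μ he, ← mul_pow]
    congr 1
    have : 2 * y + (e : C2) - ((2 * μ + e : ℕ) : C2) = 2 * (y - (μ : C2)) := by
      push_cast
      ring
    rw [this, norm_mul, me1_norm_two]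
    ring
  have e2 : ∀ μ : ℕ, (‖2 * y + (e : C2) - ((2 * μ + (1 - e) : ℕ) : C2)‖ / 8) ^
      mult 2 n (2 * (2 * μ + (1 - e))) = ((1 : ℝ) / 8) ^ Cen.tent (1 - e) μ n := by
    intro μ
    rw [hm (1 - e) n μ (by omega)]
    congr 2
    rcases Nat.le_one_iff_eq_zero_or_eq_one.1 he with rfl | rfl
    · have : 2 * y + ((0 : ℕ) : C2) - ((2 * μ + (1 - 0) : ℕ) : C2) =
          2 * (y - (μ : C2)) + (-1) := by
        push_cast
        ring
      rw [this]
      exact me1_norm_unit hy μ (by rw [norm_neg, norm_one])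
    · have : 2 * y + ((1 : ℕ) : C2) - ((2 * μ + (1 - 1) : ℕ) : C2) =
          2 * (y - (μ : C2)) + 1 := by
        push_cast
        ring
      rw [this]
      exact me1_norm_unit hy μ norm_one
  rw [Finset.prod_congr rfl fun μ _ => e1 μ, Finset.prod_congr rfl fun μ _ => e2 μ,
    Finset.prod_mul_distrib, Finset.prod_pow_eq_pow_sum, Finset.prod_pow_eq_pow_sum]
  have e3 : ∏ m ∈ Finset.range (3 * n + 2), ‖y - (m : C2)‖ ^ Cen.tent e m n =
      ∏ m ∈ Finset.range (3 * n + 1), ‖y - (m : C2)‖ ^ Cen.tent e m n := by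
    rw [Finset.prod_range_succ]
    have : Cen.tent e (3 * n + 1) n = 0 := by
      unfold Cen.tent Cen.tm
      omega
    rw [this, pow_zero, mul_one]
  have e4 : ((2 : ℝ) ^ 4)⁻¹ = 1 / 16 := by norm_num
  have e5 : ((2 : ℝ) ^ 3)⁻¹ = 1 / 8 := by norm_num
  rw [e3, me1_B he n, Real.rpow_neg (by norm_num), Real.rpow_natCast, pow_add, pow_mul, pow_mul,
    mul_inv, ← inv_pow ((2 : ℝ) ^ 4), ← inv_pow ((2 : ℝ) ^ 3), e4, e5]
  ring

end GH.Mat
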