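import Pool.Agent.GH.Mat.Spec

/-!
GH-MAT, row MD6: the field `corank` of `Pot.Mat`.
-/

open Polynomial

noncomputable section

namespace GH.Mat

theorem md6_binS {K L : Type} [Field K] [Field L] (φ : K →+* L) (s : K) :
    PowerSeries.map φ (binS s) = binS (φ s) := by
  ext n
  rw [PowerSeries.coeff_map, binS, binS, PowerSeries.coeff_mk, PowerSeries.coeff_mk, map_div₀,
    map_prod, map_natCast]
  congr 1
  refine Finset.prod_congr rfl fun i _ ↦ ?_
  rw [map_sub, map_natCast]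

theorem md6_rescale {K L : Type} [Field K] [Field L] (φ : K →+* L) (a : K) (f : PowerSeries K) :
    PowerSeries.map φ (PowerSeries.rescale a f) =
      PowerSeries.rescale (φ a) (PowerSeries.map φ f) := by
  ext n
  rw [PowerSeries.coeff_map, PowerSeries.coeff_rescale, PowerSeries.coeff_rescale,
    PowerSeries.coeff_map, map_mul, map_pow]

/-- `MM` commutes with homomorphisms of fields. -/
theorem md6_MM {K L : Type} [Field K] [Field L] (φ : K →+* L) (e : ℕ) (y : K) (i j : ℕ) :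
    φ (Cen.MM e y i j) = Cen.MM e (φ y) i j := by
  unfold Cen.MM
  split_ifs with h
  · rw [map_mul, map_zpow₀, ← PowerSeries.coeff_map, map_mul (PowerSeries.map φ),
      map_add (PowerSeries.map φ), map_one (PowerSeries.map φ), map_mul (PowerSeries.map φ),
      PowerSeries.map_C, PowerSeries.map_X, md6_rescale, md6_binS]
    simp only [map_sub, map_add, map_mul, map_pow, map_natCast, map_one, map_ofNat]
  · exact map_zero φ

/-- MD6: the field `corank` of `Pot.Mat`. -/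
theorem corankPM (h : SpRankMM) (hE : SpEval) : SpCorank := by
  intro e he m hm
  obtain ⟨x, y, hxy⟩ := h e he m hm
  refine ⟨fun i l ↦ ((x (i + 1) l : ℚ) : ℚ_[2]), fun l j ↦ ((y l (j + 1) : ℚ) : ℚ_[2]),
    fun i j ↦ ?_⟩
  obtain ⟨z, hz⟩ := hxy (i + 1) (j + 1) (by omega) (by omega)
  refine ⟨(z : ℤ_[2]), ?_⟩
  have h1 : (((PM e i j).eval (m : ℤ_[2]) : ℤ_[2]) : ℚ_[2]) =
      Cen.MM e ((m : ℕ) : ℚ_[2]) (i + 1) (j + 1) := by
    have h2 := hE ℚ_[2] (PadicInt.Coe.ringHom (p := 2)) ((m : ℕ) : ℚ_[2]) e i j he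
    rw [← h2]
    have h3 : ((m : ℕ) : ℚ_[2]) = (PadicInt.Coe.ringHom (p := 2)) ((m : ℕ) : ℤ_[2]) :=
      (map_natCast _ m).symm
    rw [h3, Polynomial.eval₂_at_apply]
    rfl
  have h4 : Cen.MM e ((m : ℕ) : ℚ_[2]) (i + 1) (j + 1) =
      ((Cen.MM e ((m : ℕ) : ℚ) (i + 1) (j + 1) : ℚ) : ℚ_[2]) := by
    have h5 := md6_MM (Rat.castHom ℚ_[2]) e ((m : ℕ) : ℚ) (i + 1) (j + 1)
    rw [map_natCast] at h5
    exact h5.symm
  rw [h1, h4, hz]
  push_cast
  rfl

end GH.Mat
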