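import Pool.Agent.GH.Mat.Spec

/-!
# GH-MAT, row MB2: the leading minors
-/

open Polynomial

noncomputable section

namespace GH.Mat

section field

variable {K : Type} [Field K] [CharZero K] {y : K}

theorem mb2_ne (hy : Gen y) (m : ℤ) : y - (m : K) ≠ 0 := by
  intro h
  apply hy (2 * m)
  push_cast
  linear_combination 2 * h

theorem mb2_ne2 (hy : Gen y) (m : ℤ) : 2 * y - (m : K) ≠ 0 := sub_ne_zero.mpr (hy m)

theorem mb2_pr_ne (hy : Gen y) (a : ℤ) (n : ℕ) : pr y a n ≠ 0 :=
  Finset.prod_ne_zero_iff.mpr fun t _ ↦ mb2_ne hy _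

theorem mb2_dfac_ne (n : ℕ) : dfac K n ≠ 0 := by
  refine Finset.prod_ne_zero_iff.mpr fun t _ ↦ ?_
  exact_mod_cast Nat.succ_ne_zero (2 * t)

theorem mb2_AA_self (hy : Gen y) (i : ℕ) : AA y i i = 1 := by
  have h1 : y - 3 * (i : K) ≠ 0 := by
    have := mb2_ne hy (3 * i)
    push_cast at this
    exact this
  have h2 := mb2_dfac_ne (K := K) i
  simp only [AA, lt_irrefl, if_false, Nat.sub_self, mul_zero, pow_zero, pr, Finset.range_zero,
    Finset.prod_empty, Nat.factorial_zero, Nat.cast_one, mul_one, one_mul]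
  exact div_self (mul_ne_zero h1 h2)

theorem mb2_AA_lt {i k : ℕ} (h : i < k) : AA y i k = 0 := by
  simp [AA, h]

theorem mb2_uu_self (hy : Gen y) (i : ℕ) : uu y i i = 1 := by
  have h1 : 2 * y - 3 * (i : K) ≠ 0 := by
    have := mb2_ne2 hy (3 * i)
    push_cast at this
    exact this
  have h3 : ((i.factorial : ℕ) : K) ≠ 0 := by exact_mod_cast i.factorial_ne_zero
  have h4 : ¬ 2 * i < i := by omega
  have h5 : 2 * i - i = i := by omega
  simp only [uu, lt_irrefl, if_false, h4, h5, Nat.sub_self, pow_zero, Finset.range_zero,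
    Finset.prod_empty, Nat.factorial_zero, Nat.cast_one, mul_one, one_mul, pr]
  rw [div_self h3, one_mul, div_self h1]

theorem mb2_BB_lt {i j : ℕ} (h : j < i) : BB y i j = 0 := by
  simp [BB, uu, h]

/-- `det N_n = ∏ dd`. -/
theorem mb2_detNN (hA : SpANB) (hy : Gen y) (n : ℕ) :
    (Matrix.of fun i j : Fin n ↦ NN y (i + 1) (j + 1)).det =
      ∏ i ∈ Finset.range n, dd y (i + 1) := by
  set A : Matrix (Fin n) (Fin n) K := Matrix.of fun i j : Fin n ↦ AA y (i + 1) (j + 1) with hAd
  set N : Matrix (Fin n) (Fin n) K := Matrix.of fun i j : Fin n ↦ NN y (i + 1) (j + 1) with hN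
  set B : Matrix (Fin n) (Fin n) K := Matrix.of fun i j : Fin n ↦ BB y (i + 1) (j + 1) with hB
  have hAN : A * N = B := by
    ext i j
    rw [Matrix.mul_apply]
    have h1 := hA K y hy ((i : ℕ) + 1) ((j : ℕ) + 1) (by omega) (by omega)
    rw [Finset.sum_range_succ'] at h1
    have h0 : NN y 0 ((j : ℕ) + 1) = 0 := by simp [NN]
    rw [h0, mul_zero, add_zero] at h1
    simp only [hB, hAd, hN, Matrix.of_apply]
    rw [← h1, Fin.sum_univ_eq_sum_range (fun k ↦ AA y ((i : ℕ) + 1) (k + 1) *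
      NN y (k + 1) ((j : ℕ) + 1)) n]
    symm
    apply Finset.sum_subset
    · intro k hk
      rw [Finset.mem_range] at hk ⊢
      omega
    · intro k _ hk
      rw [Finset.mem_range, not_lt] at hk
      rw [mb2_AA_lt (by omega), zero_mul]
  have hdA : A.det = 1 := by
    rw [Matrix.det_of_lowerTriangular A]
    · apply Finset.prod_eq_one
      intro i _
      exact mb2_AA_self hy _
    · intro i j hij
      exact mb2_AA_lt (by
        have : (i : ℕ) < j := hij
        omega)
  have hdB : B.det = ∏ i ∈ Finset.range n, dd y (i + 1) := by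
    rw [Matrix.det_of_upperTriangular (M := B)]
    · rw [← Fin.prod_univ_eq_prod_range (fun i ↦ dd y (i + 1)) n]
      apply Finset.prod_congr rfl
      intro i _
      simp only [hB, Matrix.of_apply, BB]
      rw [mb2_uu_self hy, mul_one]
    · intro i j hij
      exact mb2_BB_lt (by
        have : (j : ℕ) < i := hij
        omega)
  have h := congrArg Matrix.det hAN
  rw [Matrix.det_mul, hdA, one_mul, hdB] at h
  exact h

/-- The factor `D_n / D_(n-1)`. -/
def mb2_del (e : ℕ) (y : K) (n : ℕ) : K :=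
  16 ^ n * dd y n * (if e = 0 then 1 else 2 * (3 * (n : K) - y) / (3 * (n : K) - 2 * y))

theorem mb2_DD (hA : SpANB) (hM : SpMM) (hy : Gen y) {e : ℕ} (he : e ≤ 1) (n : ℕ) :
    Cen.DD e y n = ∏ i ∈ Finset.range n, mb2_del e y (i + 1) := by
  have hne : ∀ j : ℕ, 3 * (j : K) - 2 * y ≠ 0 := by
    intro j h
    apply hy (3 * j)
    push_cast
    linear_combination -h
  have h1 : ∀ i j : ℕ, Cen.MM e y i j =
      (4 ^ i * (if e = 0 then 1 else 2 * (3 * (i : K) - y))) *
        ((4 ^ j * (if e = 0 then 1 else (3 * (j : K) - 2 * y)⁻¹)) * NN y i j) := by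
    intro i j
    obtain ⟨m0, m1, m2⟩ := hM K y i j
    have he' : e = 0 ∨ e = 1 := by omega
    rcases he' with rfl | rfl
    · rw [m0]
      simp only [if_true, mul_one]
      ring
    · rw [m1]
      simp only [one_ne_zero, if_false]
      have h3 : NNo y i j = 2 * (3 * (i : K) - y) * NN y i j * (3 * (j : K) - 2 * y)⁻¹ := by
        rw [eq_mul_inv_iff_mul_eq₀ (hne j)]
        exact m2
      rw [h3]
      ring
  have h2 : Cen.DD e y n = (Matrix.of fun i j : Fin n ↦
      (4 ^ ((i : ℕ) + 1) * (if e = 0 then 1 else 2 * (3 * (((i : ℕ) + 1 : ℕ) : K) - y))) *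
        (Matrix.of fun i j : Fin n ↦
        ((4 ^ ((j : ℕ) + 1) * (if e = 0 then 1 else (3 * (((j : ℕ) + 1 : ℕ) : K) - 2 * y)⁻¹)) *
          (Matrix.of fun i j : Fin n ↦ NN y (i + 1) (j + 1)) i j)) i j).det := by
    unfold Cen.DD Cen.blk
    congr 1
    ext i j
    simp only [Matrix.of_apply]
    exact h1 _ _
  rw [h2, Matrix.det_mul_column, Matrix.det_mul_row, mb2_detNN hA hy,
    Fin.prod_univ_eq_prod_range (fun i ↦ (4 : K) ^ (i + 1) *
      (if e = 0 then 1 else 2 * (3 * ((i + 1 : ℕ) : K) - y))) n,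
    Fin.prod_univ_eq_prod_range (fun i ↦ (4 : K) ^ (i + 1) *
      (if e = 0 then 1 else (3 * ((i + 1 : ℕ) : K) - 2 * y)⁻¹)) n,
    ← Finset.prod_mul_distrib, ← Finset.prod_mul_distrib]
  apply Finset.prod_congr rfl
  intro i _
  have h16 : (16 : K) ^ (i + 1) = 4 ^ (i + 1) * 4 ^ (i + 1) := by
    rw [← mul_pow]
    norm_num
  unfold mb2_del
  rw [h16]
  split_ifs
  · ring
  · rw [div_eq_mul_inv]
    ring

theorem mb2_Ico (y : K) (a n : ℕ) : ∏ m ∈ Finset.Ico a (a + n), (y - (m : K)) = pr y a n := by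
  rw [Finset.prod_Ico_eq_prod_range]
  have : a + n - a = n := by omega
  rw [this]
  unfold pr
  apply Finset.prod_congr rfl
  intro t _
  push_cast
  ring

/-- The increment. -/
theorem mb2_incr (hy : Gen y) {e : ℕ} (he : e ≤ 1) {n : ℕ} (hn : 1 ≤ n) :
    mb2_del e y n * (dfac K n * ∏ m ∈ Finset.Icc (n + 1) (2 * n - 1), (y - (m : K))) =
      ((-8) ^ n * 2 ^ e) * (∏ s ∈ Finset.Icc (2 * n + 1) (3 * n - e), (2 * y - (s : K))) *
        ∏ m ∈ Finset.Icc (2 * n + 1) (3 * n - 1 + e), (y - (m : K)) := by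
  have e1 : Finset.Icc (n + 1) (2 * n - 1) = Finset.Ico (n + 1) (n + 1 + (n - 1)) := by
    ext x
    simp only [Finset.mem_Icc, Finset.mem_Ico]
    omega
  have e2 : Finset.Icc (2 * n + 1) (3 * n - 1) = Finset.Ico (2 * n + 1) (2 * n + 1 + (n - 1)) := by
    ext x
    simp only [Finset.mem_Icc, Finset.mem_Ico]
    omega
  have e3 : Finset.Icc (2 * n + 1) (3 * n) = Finset.Ico (2 * n + 1) (2 * n + 1 + n) := by
    ext x
    simp only [Finset.mem_Icc, Finset.mem_Ico]
    omega
  have hs : ∏ s ∈ Finset.Icc (2 * n + 1) (3 * n), (2 * y - (s : K)) =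
      ∏ s ∈ Finset.range n, (2 * y - (2 * n + 1 + s)) := by
    rw [e3, Finset.prod_Ico_eq_prod_range]
    have : 2 * n + 1 + n - (2 * n + 1) = n := by omega
    rw [this]
    apply Finset.prod_congr rfl
    intro t _
    push_cast
    ring
  have h16 : (16 : K) ^ n * (-1 / 2) ^ n = (-8) ^ n := by
    rw [← mul_pow]
    norm_num
  have hd := mb2_dfac_ne (K := K) n
  have hp := mb2_pr_ne hy ((n : ℤ) + 1) (n - 1)
  have hbase : 16 ^ n * dd y n * (dfac K n * ∏ m ∈ Finset.Icc (n + 1) (2 * n - 1), (y - (m : K))) =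
      (-8) ^ n * (∏ s ∈ Finset.Icc (2 * n + 1) (3 * n), (2 * y - (s : K))) *
        ∏ m ∈ Finset.Icc (2 * n + 1) (3 * n - 1), (y - (m : K)) := by
    rw [e1, mb2_Ico, hs, e2, mb2_Ico, ← h16]
    unfold dd
    push_cast
    field_simp
  have he' : e = 0 ∨ e = 1 := by omega
  rcases he' with rfl | rfl
  · unfold mb2_del
    simp only [if_true, mul_one, pow_zero, Nat.sub_zero, add_zero]
    exact hbase
  · have hne : 3 * (n : K) - 2 * y ≠ 0 := by
      intro h
      apply hy (3 * n)
      push_cast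
      linear_combination -h
    have h5 : Finset.Icc (2 * n + 1) (3 * n - 1 + 1) = insert (3 * n)
        (Finset.Icc (2 * n + 1) (3 * n - 1)) := by
      ext x
      simp only [Finset.mem_Icc, Finset.mem_insert]
      omega
    have h6 : Finset.Icc (2 * n + 1) (3 * n) = insert (3 * n)
        (Finset.Icc (2 * n + 1) (3 * n - 1)) := by
      ext x
      simp only [Finset.mem_Icc, Finset.mem_insert]
      omega
    have h7 : 3 * n ∉ Finset.Icc (2 * n + 1) (3 * n - 1) := by
      simp only [Finset.mem_Icc]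
      omega
    rw [h6, Finset.prod_insert h7] at hbase
    unfold mb2_del
    simp only [one_ne_zero, if_false, pow_one]
    rw [h5, Finset.prod_insert h7]
    have h8 : 16 ^ n * dd y n * (2 * (3 * (n : K) - y) / (3 * (n : K) - 2 * y)) *
        (dfac K n * ∏ m ∈ Finset.Icc (n + 1) (2 * n - 1), (y - (m : K))) =
        (2 * (3 * (n : K) - y) / (3 * (n : K) - 2 * y)) * (16 ^ n * dd y n *
        (dfac K n * ∏ m ∈ Finset.Icc (n + 1) (2 * n - 1), (y - (m : K)))) := by ring
    rw [h8, hbase]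
    push_cast
    field_simp
    ring

end field

theorem mb2_hom {R S : Type} [CommRing R] [CommRing S] (g : R →+* S) (M : ℕ → ℕ → R) (n : ℕ) :
    g (Pot.lead M n) = Pot.lead (fun i j ↦ g (M i j)) n := by
  unfold Pot.lead Pot.minor
  rw [RingHom.map_det]
  rfl

theorem detPM (hA : SpANB) (hM : SpMM) (hE : SpEval) : SpDet := by
  intro e n he hn
  have hinj := IsFractionRing.injective ℤ_[2][X] (FractionRing ℤ_[2][X])
  haveI : CharZero (FractionRing ℤ_[2][X]) := charZero_of_injective_algebraMap hinj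
  set g := algebraMap ℤ_[2][X] (FractionRing ℤ_[2][X]) with hg
  set y : FractionRing ℤ_[2][X] := g X with hy0
  have hy : Gen y := by
    intro m h
    have h1 : g (2 * X - C (m : ℤ_[2])) = 0 := by
      rw [map_sub, map_mul, ← hy0]
      have h2 : g (C (m : ℤ_[2])) = (m : FractionRing ℤ_[2][X]) := by
        rw [map_intCast, map_intCast]
      have h3 : g 2 = 2 := map_ofNat g 2
      rw [h2, h3, h, sub_self]
    have h4 : (2 * X - C (m : ℤ_[2]) : ℤ_[2][X]) = 0 := by
      apply hinj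
      rw [map_zero]
      exact h1
    have h5 := congrArg (fun P : ℤ_[2][X] ↦ P.coeff 1) h4
    have h6 : (2 * X - C (m : ℤ_[2]) : ℤ_[2][X]).coeff 1 = 2 := by
      have : (2 : ℤ_[2][X]) = C 2 := rfl
      rw [this, coeff_sub, coeff_C_mul, coeff_X_one, coeff_C]
      simp
    simp only [h6, coeff_zero] at h5
    exact two_ne_zero h5
  have hev : ∀ a b : ℕ, g (PM e a b) = Cen.MM e y (a + 1) (b + 1) := by
    intro a b
    rw [← hE (FractionRing ℤ_[2][X]) (g.comp C) y e a b he, hy0, ← hom_eval₂, eval₂_C_X]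
  have hlead : ∀ k : ℕ, g (Pot.lead (PM e) k) = ∏ i ∈ Finset.range k, mb2_del e y (i + 1) := by
    intro k
    rw [mb2_hom, ← mb2_DD hA hM hy he]
    unfold Pot.lead Pot.minor Cen.DD Cen.blk
    congr 1
    ext i j
    simp only [Matrix.of_apply]
    exact hev _ _
  apply hinj
  change g _ = g _
  rw [map_mul, map_mul, hlead, hlead]
  obtain ⟨k, rfl⟩ : ∃ k, n = k + 1 := ⟨n - 1, by omega⟩
  rw [Finset.prod_range_succ, Nat.add_sub_cancel, mul_assoc]
  congr 1
  have h := mb2_incr hy he hn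
  have hC : ∀ z : ℕ, g (C (z : ℤ_[2])) = (z : FractionRing ℤ_[2][X]) := by
    intro z
    rw [map_natCast, map_natCast]
  have hW : g (WP (k + 1)) = dfac (FractionRing ℤ_[2][X]) (k + 1) *
      ∏ m ∈ Finset.Icc (k + 1 + 1) (2 * (k + 1) - 1), (y - (m : FractionRing ℤ_[2][X])) := by
    unfold WP dfac
    rw [map_mul, map_prod, map_prod, map_prod]
    congr 1
    · apply Finset.prod_congr rfl
      intro t _
      have h2 := hC (2 * t + 1)
      push_cast at h2
      exact h2
    · apply Finset.prod_congr rfl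
      intro m _
      rw [map_sub, hC, hy0]
  have hV : g (VP e (k + 1)) = ((-8) ^ (k + 1) * 2 ^ e) *
      (∏ s ∈ Finset.Icc (2 * (k + 1) + 1) (3 * (k + 1) - e),
        (2 * y - (s : FractionRing ℤ_[2][X]))) *
        ∏ m ∈ Finset.Icc (2 * (k + 1) + 1) (3 * (k + 1) - 1 + e),
          (y - (m : FractionRing ℤ_[2][X])) := by
    unfold VP
    rw [map_mul, map_mul, map_prod, map_prod]
    congr 1
    · congr 1
      · have h8 := hC 8
        have h2 := hC 2
        push_cast at h8 h2
        rw [C_mul, C_pow, C_pow, map_mul, map_pow, map_pow, C_neg, map_neg, h8, h2]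
      · apply Finset.prod_congr rfl
        intro s _
        rw [map_sub, hC, map_mul, hy0, map_ofNat]
    · apply Finset.prod_congr rfl
      intro m _
      rw [map_sub, hC, hy0]
  rw [hW, hV]
  exact h

end GH.Mat
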