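import Pool.Agent.GH.Mat.Spec

/-!
# GH-MAT, row MB4: closed form of the leading minors
-/

open Polynomial

noncomputable section

namespace GH.Mat

/-- congruent to a unit constant modulo `2` -/
def mb4_U (p : ℤ_[2][X]) : Prop :=
  ∃ z : (ℤ_[2])ˣ, C ((2 : ℕ) : ℤ_[2]) ∣ p - C (z : ℤ_[2])

theorem mb4_U_mul {p q : ℤ_[2][X]} (hp : mb4_U p) (hq : mb4_U q) : mb4_U (p * q) := by
  obtain ⟨z, hz⟩ := hp
  obtain ⟨w, hw⟩ := hq
  refine ⟨z * w, ?_⟩
  have h : p * q - C ((z * w : (ℤ_[2])ˣ) : ℤ_[2]) =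
      (p - C (z : ℤ_[2])) * q + C (z : ℤ_[2]) * (q - C (w : ℤ_[2])) := by
    rw [Units.val_mul, C_mul]
    ring
  rw [h]
  exact dvd_add (hz.mul_right _) (hw.mul_left _)

theorem mb4_U_unit (z : (ℤ_[2])ˣ) : mb4_U (C (z : ℤ_[2])) := ⟨z, by simp⟩

theorem mb4_U_prod {ι : Type*} (s : Finset ι) (f : ι → ℤ_[2][X]) (h : ∀ i ∈ s, mb4_U (f i)) :
    mb4_U (∏ i ∈ s, f i) := by
  classical
  induction s using Finset.induction_on with
  | empty =>
    rw [Finset.prod_empty]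
    exact ⟨1, by simp⟩
  | insert a s ha ih =>
    rw [Finset.prod_insert ha]
    exact mb4_U_mul (h a (Finset.mem_insert_self _ _))
      (ih fun i hi => h i (Finset.mem_insert_of_mem hi))

theorem mb4_unit {s : ℕ} (h : Odd s) : IsUnit (s : ℤ_[2]) := by
  rw [PadicInt.isUnit_iff, PadicInt.norm_natCast_eq_one_iff]
  exact (Nat.coprime_two_left).2 h

theorem mb4_U_odd {s : ℕ} (h : Odd s) : mb4_U (2 * X - C (s : ℤ_[2])) := by
  obtain ⟨z, hz⟩ := mb4_unit h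
  refine ⟨-z, ⟨X, ?_⟩⟩
  rw [Units.val_neg, hz, C_neg]
  have h2 : (C ((2 : ℕ) : ℤ_[2]) : ℤ_[2][X]) = 2 := rfl
  rw [h2]
  ring

theorem mb4_supp {e m n : ℕ} (he : e ≤ 1) (hm : 3 * n + 2 ≤ m) : Cen.tent e m n = 0 := by
  unfold Cen.tent Cen.tm
  omega

theorem mb4_range {e n K : ℕ} (he : e ≤ 1) (hK : 3 * n + 2 ≤ K) :
    ∏ m ∈ Finset.range K, (X - C (m : ℤ_[2])) ^ Cen.tent e m n =
      ∏ m ∈ Finset.range (3 * n + 2), (X - C (m : ℤ_[2])) ^ Cen.tent e m n := by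
  symm
  refine Finset.prod_subset (Finset.range_mono hK) fun m _ hm => ?_
  rw [Finset.mem_range, not_lt] at hm
  rw [mb4_supp he hm, pow_zero]

theorem mb4_Icc (f : ℕ → ℤ_[2][X]) (a b K : ℕ) (hb : b < K) :
    ∏ m ∈ Finset.Icc a b, f m =
      ∏ m ∈ Finset.range K, f m ^ (if a ≤ m ∧ m ≤ b then 1 else 0) := by
  have h1 : ∀ m, f m ^ (if a ≤ m ∧ m ≤ b then 1 else 0) =
      if a ≤ m ∧ m ≤ b then f m else 1 := by
    intro m
    split_ifs <;> simp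
  rw [Finset.prod_congr rfl fun m _ => h1 m, ← Finset.prod_filter]
  refine Finset.prod_congr ?_ fun _ _ => rfl
  ext m
  simp only [Finset.mem_Icc, Finset.mem_filter, Finset.mem_range]
  omega

theorem mb4_tent (hT : SpTent) {e n : ℕ} (he : e ≤ 1) (hn : 1 ≤ n) :
    (∏ m ∈ Finset.range (3 * n + 2), (X - C (m : ℤ_[2])) ^ Cen.tent e m n) *
        ∏ m ∈ Finset.Icc (n + 1) (2 * n - 1), (X - C (m : ℤ_[2])) =
      (∏ m ∈ Finset.range (3 * (n - 1) + 2), (X - C (m : ℤ_[2])) ^ Cen.tent e m (n - 1)) *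
        (∏ m ∈ Finset.Icc (2 * n + 1) (3 * n - 1 + e), (X - C (m : ℤ_[2]))) *
          ∏ m ∈ Finset.Icc (n + 1) ((3 * n - e) / 2), (X - C (m : ℤ_[2])) := by
  rw [← mb4_range (K := 3 * n + 2) (n := n - 1) he (by omega),
    mb4_Icc _ (n + 1) (2 * n - 1) (3 * n + 2) (by omega),
    mb4_Icc _ (2 * n + 1) (3 * n - 1 + e) (3 * n + 2) (by omega),
    mb4_Icc _ (n + 1) ((3 * n - e) / 2) (3 * n + 2) (by omega),
    ← Finset.prod_mul_distrib, ← Finset.prod_mul_distrib, ← Finset.prod_mul_distrib]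
  refine Finset.prod_congr rfl fun m _ => ?_
  rw [← pow_add, ← pow_add, ← pow_add, hT e n m he hn]

/-- the product over the odd `s` -/
def mb4_O (e n : ℕ) : ℤ_[2][X] :=
  ∏ s ∈ (Finset.Icc (2 * n + 1) (3 * n - e)).filter (fun s => Odd s), (2 * X - C (s : ℤ_[2]))

theorem mb4_split {e n : ℕ} (he : e ≤ 1) (hn : 1 ≤ n) :
    ∏ s ∈ Finset.Icc (2 * n + 1) (3 * n - e), (2 * X - C (s : ℤ_[2])) =
      mb4_O e n * (C (2 ^ ((3 * n - e) / 2 - n)) *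
        ∏ m ∈ Finset.Icc (n + 1) ((3 * n - e) / 2), (X - C (m : ℤ_[2]))) := by
  rw [← Finset.prod_filter_mul_prod_filter_not (Finset.Icc (2 * n + 1) (3 * n - e))
    (fun s => Odd s)]
  unfold mb4_O
  congr 1
  have h1 : ∏ s ∈ (Finset.Icc (2 * n + 1) (3 * n - e)).filter (fun s => ¬ Odd s),
      (2 * X - C (s : ℤ_[2])) =
      ∏ m ∈ Finset.Icc (n + 1) ((3 * n - e) / 2), (C 2 * (X - C (m : ℤ_[2]))) := by
    refine Finset.prod_nbij' (fun s => s / 2) (fun m => 2 * m) ?_ ?_ ?_ ?_ ?_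
    · intro s hs
      simp only [Finset.mem_filter, Finset.mem_Icc, Nat.not_odd_iff_even] at hs ⊢
      obtain ⟨r, hr⟩ := hs.2
      omega
    · intro m hm
      simp only [Finset.mem_filter, Finset.mem_Icc, Nat.not_odd_iff_even] at hm ⊢
      refine ⟨by omega, even_two_mul m⟩
    · intro s hs
      simp only [Finset.mem_filter, Finset.mem_Icc, Nat.not_odd_iff_even] at hs
      obtain ⟨r, hr⟩ := hs.2
      omega
    · intro m hm
      omega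
    · intro s hs
      simp only [Finset.mem_filter, Finset.mem_Icc, Nat.not_odd_iff_even] at hs
      obtain ⟨r, hr⟩ := hs.2
      have h2 : s / 2 = r := by omega
      rw [h2, hr, mul_sub, ← C_mul]
      have h3 : (C (2 : ℤ_[2]) : ℤ_[2][X]) = 2 := rfl
      rw [h3]
      congr 2
      push_cast
      ring
  rw [h1, Finset.prod_mul_distrib, Finset.prod_const, Nat.card_Icc, ← C_pow]
  congr 3
  omega

theorem mb4_Q_ne (s : Finset ℕ) : ∏ m ∈ s, (X - C (m : ℤ_[2])) ≠ 0 :=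
  Finset.prod_ne_zero_iff.2 fun m _ => X_sub_C_ne_zero _

theorem mb4_dfac (n : ℕ) : IsUnit (∏ t ∈ Finset.range n, (2 * (t : ℤ_[2]) + 1)) := by
  induction n with
  | zero => simp
  | succ n ih =>
    rw [Finset.prod_range_succ]
    refine ih.mul ?_
    have h : (2 * (n : ℤ_[2]) + 1) = ((2 * n + 1 : ℕ) : ℤ_[2]) := by push_cast; ring
    rw [h]
    exact mb4_unit (odd_two_mul_add_one n)

theorem leadPM (hD : SpDet) (hT : SpTent) : SpLead := by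
  intro e he n
  induction n with
  | zero =>
    refine ⟨1, 1, by simp, ?_⟩
    have h1 : Pot.lead (PM e) 0 = 1 := by
      unfold Pot.lead Pot.minor
      exact Matrix.det_isEmpty
    have h2 : Cen.B e 0 = 0 := by
      unfold Cen.B
      simp
    have h3 : ∀ m, Cen.tent e m 0 = 0 := by
      intro m
      unfold Cen.tent
      omega
    rw [h1, h2]
    simp [h3]
  | succ k ih =>
    obtain ⟨u, z, hz, hu⟩ := ih
    obtain ⟨δ, hδ⟩ := mb4_dfac (k + 1)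
    have hstep := hD e (k + 1) he (by omega)
    rw [Nat.add_sub_cancel, hu] at hstep
    have htent := mb4_tent hT he (show 1 ≤ k + 1 by omega)
    rw [Nat.add_sub_cancel] at htent
    set P0 := ∏ m ∈ Finset.range (3 * k + 2), (X - C (m : ℤ_[2])) ^ Cen.tent e m k with hP0
    set P1 := ∏ m ∈ Finset.range (3 * (k + 1) + 2), (X - C (m : ℤ_[2])) ^ Cen.tent e m (k + 1)
      with hP1
    have hVP : VP e (k + 1) = C ((-8) ^ (k + 1) * 2 ^ e) *
        (mb4_O e (k + 1) * (C (2 ^ ((3 * (k + 1) - e) / 2 - (k + 1))) *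
        ∏ m ∈ Finset.Icc (k + 1 + 1) ((3 * (k + 1) - e) / 2), (X - C (m : ℤ_[2])))) *
        ∏ m ∈ Finset.Icc (2 * (k + 1) + 1) (3 * (k + 1) - 1 + e), (X - C (m : ℤ_[2])) := by
      unfold VP
      rw [mb4_split he (by omega)]
    have hWP : WP (k + 1) = C (δ : ℤ_[2]) *
        ∏ m ∈ Finset.Icc (k + 1 + 1) (2 * (k + 1) - 1), (X - C (m : ℤ_[2])) := by
      unfold WP
      rw [hδ]
    have hB : Cen.B e (k + 1) = Cen.B e k + (3 * (k + 1) + (k + 1 + e) / 2) := by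
      unfold Cen.B
      rw [Finset.sum_Icc_succ_top (by omega)]
    have hpow : (2 : ℤ_[2]) ^ Cen.B e (k + 1) * (-1) ^ (k + 1) =
        2 ^ Cen.B e k * ((-8) ^ (k + 1) * 2 ^ e) * 2 ^ ((3 * (k + 1) - e) / 2 - (k + 1)) := by
      have h8 : ((-8 : ℤ_[2])) ^ (k + 1) = (-1) ^ (k + 1) * 2 ^ (3 * (k + 1)) := by
        rw [show (-8 : ℤ_[2]) = (-1) * 2 ^ 3 by norm_num, mul_pow, ← pow_mul]
      have hex : Cen.B e (k + 1) =
          Cen.B e k + 3 * (k + 1) + e + ((3 * (k + 1) - e) / 2 - (k + 1)) := by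
        rw [hB]
        omega
      rw [h8, hex, pow_add, pow_add, pow_add]
      ring
    obtain ⟨w, hw⟩ : mb4_U (u * (C ((δ⁻¹ * (-1) ^ (k + 1) : (ℤ_[2])ˣ) : ℤ_[2]) *
        mb4_O e (k + 1))) := by
      refine mb4_U_mul ⟨z, hz⟩ (mb4_U_mul (mb4_U_unit _) (mb4_U_prod _ _ fun s hs => ?_))
      exact mb4_U_odd (Finset.mem_filter.1 hs).2
    refine ⟨u * (C ((δ⁻¹ * (-1) ^ (k + 1) : (ℤ_[2])ˣ) : ℤ_[2]) * mb4_O e (k + 1)), w, hw, ?_⟩
    have hne : WP (k + 1) ≠ 0 := by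
      rw [hWP]
      exact mul_ne_zero (by rw [Ne, C_eq_zero]; exact δ.ne_zero) (mb4_Q_ne _)
    refine mul_right_cancel₀ hne ?_
    rw [hstep, hVP, hWP]
    set R1 := ∏ m ∈ Finset.Icc (2 * (k + 1) + 1) (3 * (k + 1) - 1 + e), (X - C (m : ℤ_[2]))
    set R2 := ∏ m ∈ Finset.Icc (k + 1 + 1) ((3 * (k + 1) - e) / 2), (X - C (m : ℤ_[2]))
    set Q := ∏ m ∈ Finset.Icc (k + 1 + 1) (2 * (k + 1) - 1), (X - C (m : ℤ_[2]))
    have h2c : ((2 : ℕ) : ℤ_[2]) = 2 := by norm_num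
    have hδc : (C ((δ⁻¹ : (ℤ_[2])ˣ) : ℤ_[2]) : ℤ_[2][X]) * C (δ : ℤ_[2]) = 1 := by
      rw [← C_mul, Units.inv_mul, C_1]
    have hun : (C ((δ⁻¹ * (-1) ^ (k + 1) : (ℤ_[2])ˣ) : ℤ_[2]) : ℤ_[2][X]) =
        C ((δ⁻¹ : (ℤ_[2])ˣ) : ℤ_[2]) * C ((-1) ^ (k + 1)) := by
      rw [← C_mul]
      congr 1
    rw [h2c, hun]
    have hpowC : (C ((2 : ℤ_[2]) ^ Cen.B e (k + 1)) : ℤ_[2][X]) * C ((-1) ^ (k + 1)) =
        C (2 ^ Cen.B e k) * C ((-8) ^ (k + 1) * 2 ^ e) *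
          C (2 ^ ((3 * (k + 1) - e) / 2 - (k + 1))) := by
      rw [← C_mul, ← C_mul, ← C_mul, hpow]
    calc C (2 ^ Cen.B e k) * u * P0 * (C ((-8) ^ (k + 1) * 2 ^ e) * (mb4_O e (k + 1) *
          (C (2 ^ ((3 * (k + 1) - e) / 2 - (k + 1))) * R2)) * R1)
        = (C (2 ^ Cen.B e k) * C ((-8) ^ (k + 1) * 2 ^ e) *
          C (2 ^ ((3 * (k + 1) - e) / 2 - (k + 1)))) * u * mb4_O e (k + 1) *
            (P0 * R1 * R2) * 1 := by ring
      _ = (C ((2 : ℤ_[2]) ^ Cen.B e (k + 1)) * C ((-1) ^ (k + 1))) * u * mb4_O e (k + 1) *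
            (P1 * Q) * (C ((δ⁻¹ : (ℤ_[2])ˣ) : ℤ_[2]) * C (δ : ℤ_[2])) := by
          rw [← hpowC, ← htent, hδc]
      _ = _ := by ring

end GH.Mat
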