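import Pool.Agent.GH.Mat.Spec

/-!
# GH-MAT, row MB0: the matrices `MM`, the values of `PM`, divisibility of the columns
-/

open Polynomial

noncomputable section

namespace GH.Mat

theorem mb0_coeff {K : Type*} [Field K] (c s : K) (m : ℕ) :
    PowerSeries.coeff (m + 1) ((1 + PowerSeries.C c * PowerSeries.X) *
      PowerSeries.rescale (16 : K) (binS s)) =
    16 ^ (m + 1) * ((∏ t ∈ Finset.range (m + 1), (s - t)) / ((m + 1).factorial : K)) +
      c * (16 ^ m * ((∏ t ∈ Finset.range m, (s - t)) / (m.factorial : K))) := by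
  rw [add_mul, one_mul, map_add, mul_assoc, PowerSeries.coeff_C_mul, PowerSeries.coeff_succ_X_mul,
    PowerSeries.coeff_rescale, PowerSeries.coeff_rescale]
  simp only [binS, PowerSeries.coeff_mk]

theorem mb0_coeff_zero {K : Type*} [Field K] (c s : K) :
    PowerSeries.coeff 0 ((1 + PowerSeries.C c * PowerSeries.X) *
      PowerSeries.rescale (16 : K) (binS s)) = 1 := by
  have h : PowerSeries.coeff 0 (PowerSeries.rescale (16 : K) (binS s)) = 1 := by
    rw [PowerSeries.coeff_rescale]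
    simp [binS]
  rw [add_mul, one_mul, map_add, mul_assoc, PowerSeries.coeff_C_mul,
    PowerSeries.coeff_zero_X_mul, mul_zero, add_zero, h]

theorem mb0_prod {K : Type*} [Field K] (s : K) (m : ℕ) :
    ∏ t ∈ Finset.range m, (s - t) = ∏ l ∈ Finset.Icc 1 m, (s + 1 - l) := by
  induction m with
  | zero => simp
  | succ m ih =>
    rw [Finset.prod_range_succ, ih, Finset.prod_Icc_succ_top (by omega)]
    push_cast
    ring

theorem mb0_pow {K : Type*} [Field K] [CharZero K] {i j m : ℕ} (h : 2 * i = j + m) :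
    (2 : K) ^ (6 * ((j : ℤ) - i)) * 16 ^ m = 4 ^ (i + j) := by
  have h2 : (2 : K) ≠ 0 := two_ne_zero
  have e1 : (16 : K) = 2 ^ (4 : ℤ) := by norm_num
  have e2 : (4 : K) = 2 ^ (2 : ℤ) := by norm_num
  rw [e1, e2, ← zpow_natCast, ← zpow_natCast, ← zpow_mul, ← zpow_mul, ← zpow_add₀ h2]
  congr 1
  push_cast
  have h' : 2 * (i : ℤ) = j + m := by exact_mod_cast h
  linarith

theorem mb0_step {K : Type*} [Field K] [CharZero K] (c s : K) (m : ℕ) :
    PowerSeries.coeff (m + 1) ((1 + PowerSeries.C c * PowerSeries.X) *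
      PowerSeries.rescale (16 : K) (binS s)) =
    16 ^ (m + 1) * (((s - m) + c / 16 * (m + 1)) *
      (∏ l ∈ Finset.Icc 1 m, (s + 1 - l)) / ((m + 1).factorial : K)) := by
  rw [mb0_coeff, Finset.prod_range_succ, mb0_prod, Nat.factorial_succ]
  have h1 : ((m.factorial : ℕ) : K) ≠ 0 := Nat.cast_ne_zero.2 (Nat.factorial_ne_zero m)
  have h2 : ((m : K) + 1) ≠ 0 := by exact_mod_cast Nat.succ_ne_zero m
  push_cast
  field_simp
  ring

/-- MB0. -/
theorem mmrel : SpMM := by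
  intro K _ _ y i j
  rcases lt_trichotomy (2 * i) j with h | h | h
  · have h' : ¬ j ≤ 2 * i := by omega
    simp [Cen.MM, NN, NNo, h, h']
  · have h' : j ≤ 2 * i := by omega
    have hn : ¬ 2 * i < j := by omega
    have h0 : 2 * i - j = 0 := by omega
    have hp := mb0_pow (K := K) (i := i) (j := j) (m := 0) (by omega)
    rw [pow_zero, mul_one] at hp
    refine ⟨?_, ?_, ?_⟩
    · rw [Cen.MM, if_pos h', NN, if_neg hn, if_pos h, h0, mb0_coeff_zero, hp]
    · rw [Cen.MM, if_pos h', NNo, if_neg hn, if_pos h, h0, mb0_coeff_zero, hp]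
    · rw [NNo, NN, if_neg hn, if_pos h, if_neg hn, if_pos h]
      have : (j : K) = 2 * i := by exact_mod_cast h.symm
      rw [this]
      ring
  · have h' : j ≤ 2 * i := by omega
    have hn : ¬ 2 * i < j := by omega
    have hne : ¬ 2 * i = j := by omega
    obtain ⟨m, hm⟩ : ∃ m, 2 * i - j = m + 1 := ⟨2 * i - j - 1, by omega⟩
    have hm' : 2 * i = j + (m + 1) := by omega
    have hmK : (m : K) = 2 * i - j - 1 := by
      have : (2 * (i : K)) = j + (m + 1) := by exact_mod_cast hm'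
      rw [this]; ring
    have hp := mb0_pow (K := K) hm'
    have hpr : ∏ l ∈ Finset.Icc 1 m, ((i : K) + j - 1 - y + 1 - l) =
        ∏ l ∈ Finset.Icc 1 (2 * i - j - 1), ((i : K) + j - l - y) := by
      rw [show 2 * i - j - 1 = m by omega]
      exact Finset.prod_congr rfl fun l _ ↦ by ring
    refine ⟨?_, ?_, ?_⟩
    · rw [Cen.MM, if_pos h', NN, if_neg hn, if_neg hne, hm, mb0_step, ← mul_assoc, hp, hpr,
        show m + 1 - 1 = 2 * i - j - 1 by omega, hmK]
      ring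
    · rw [Cen.MM, if_pos h', NNo, if_neg hn, if_neg hne, hm, mb0_step, ← mul_assoc, hp, hpr,
        show m + 1 - 1 = 2 * i - j - 1 by omega, hmK]
      ring
    · rw [NNo, NN, if_neg hn, if_neg hne, if_neg hn, if_neg hne]
      ring

/-! ### `cz` -/

theorem mb0_cz_coe {q : ℚ} (h : ‖(q : ℚ_[2])‖ ≤ 1) : ((cz q : ℤ_[2]) : ℚ_[2]) = (q : ℚ_[2]) := by
  have h1 : cz q = (⟨(q : ℚ_[2]), h⟩ : ℤ_[2]) := dif_pos h
  rw [h1]

theorem mb0_cz_map {K : Type*} [Field K] [CharZero K] (φ : ℤ_[2] →+* K) {q : ℚ}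
    (h : ‖(q : ℚ_[2])‖ ≤ 1) : φ (cz q) = (q : K) := by
  have h1 : cz q * ((q.den : ℕ) : ℤ_[2]) = ((q.num : ℤ) : ℤ_[2]) := by
    apply PadicInt.ext
    push_cast
    rw [mb0_cz_coe h]
    have : ((q : ℚ) : ℚ_[2]) * ((q.den : ℕ) : ℚ_[2]) = ((q.num : ℤ) : ℚ_[2]) := by
      exact_mod_cast Rat.mul_den_eq_num q
    exact this
  have h2 := congrArg φ h1
  rw [map_mul, map_natCast, map_intCast] at h2
  have h3 : ((q.den : ℕ) : K) ≠ 0 := Nat.cast_ne_zero.2 q.den_nz
  rw [Rat.cast_def, eq_div_iff h3, h2]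

theorem mb0_cz_mul {q r : ℚ} (hq : ‖(q : ℚ_[2])‖ ≤ 1) (hr : ‖(r : ℚ_[2])‖ ≤ 1) :
    cz (q * r) = cz q * cz r := by
  have h : ‖((q * r : ℚ) : ℚ_[2])‖ ≤ 1 := by
    push_cast
    rw [norm_mul]
    exact mul_le_one₀ hq (norm_nonneg _) hr
  apply PadicInt.ext
  push_cast
  rw [mb0_cz_coe h, mb0_cz_coe hq, mb0_cz_coe hr]
  push_cast
  rfl

theorem mb0_val_fact {n : ℕ} (hn : 1 ≤ n) : padicValNat 2 n.factorial ≤ n - 1 := by
  have h := sub_one_mul_padicValNat_factorial (p := 2) n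
  have h2 : 1 ≤ (Nat.digits 2 n).sum := by
    by_contra hc
    have h0 : (Nat.digits 2 n).sum = 0 := by omega
    have hl : Nat.digits 2 n ≠ [] := Nat.digits_ne_nil_iff_ne_zero.2 (by omega)
    have h3 := Nat.getLast_digit_ne_zero 2 (m := n) (by omega)
    exact h3 (List.sum_eq_zero_iff.1 h0 _ (List.getLast_mem hl))
  simp only [Nat.add_one_sub_one, one_mul] at h
  omega

theorem mb0_norm_fact {n : ℕ} (hn : 1 ≤ n) :
    (1 / 2 : ℝ) ^ (n - 1) ≤ ‖((n.factorial : ℕ) : ℚ_[2])‖ := by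
  have h0 : ((n.factorial : ℕ) : ℚ_[2]) ≠ 0 := Nat.cast_ne_zero.2 (Nat.factorial_ne_zero n)
  rw [Padic.norm_eq_zpow_neg_valuation h0, Padic.valuation_natCast, zpow_neg, zpow_natCast,
    one_div, inv_pow]
  have h1 := mb0_val_fact hn
  have h2 : (2 : ℝ) ^ padicValNat 2 n.factorial ≤ 2 ^ (n - 1) :=
    pow_le_pow_right₀ (by norm_num) h1
  have h3 : (0 : ℝ) < 2 ^ padicValNat 2 n.factorial := by positivity
  push_cast
  exact inv_anti₀ h3 h2

theorem mb0_norm_two : ‖(2 : ℚ_[2])‖ = 1 / 2 := by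
  have := Padic.norm_p (p := 2)
  simpa using this

/-- The norm of the coefficients of `PM`. -/
theorem mb0_norm {e a b : ℕ} (he : e ≤ 1) (h : b + 1 < 2 * (a + 1)) :
    ‖((4 ^ (a + b + 2) / (2 ^ (1 - e) * ((2 * (a + 1) - (b + 1)).factorial : ℚ)) : ℚ) :
      ℚ_[2])‖ ≤ (1 / 8 : ℝ) ^ (b + 1) := by
  push_cast
  have h4 : (4 : ℚ_[2]) = 2 ^ 2 := by norm_num
  rw [norm_div, norm_mul, norm_pow, norm_pow, h4, norm_pow, mb0_norm_two]
  set n := 2 * (a + 1) - (b + 1) with hn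
  have h1 := mb0_norm_fact (n := n) (by omega)
  have hpos : (0 : ℝ) < ‖((n.factorial : ℕ) : ℚ_[2])‖ := lt_of_lt_of_le (by positivity) h1
  rw [div_le_iff₀ (by positivity)]
  have h5 : ((1 / 2 : ℝ) ^ 2) ^ (a + b + 2) ≤
      (1 / 8 : ℝ) ^ (b + 1) * ((1 / 2) ^ (1 - e) * (1 / 2) ^ (n - 1)) := by
    rw [show (1 / 8 : ℝ) = (1 / 2) ^ 3 by norm_num, ← pow_mul, ← pow_mul, ← pow_add, ← pow_add]
    apply pow_le_pow_of_le_one (by norm_num) (by norm_num)
    omega
  refine h5.trans ?_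
  gcongr

theorem mb0_norm_le {e a b : ℕ} (he : e ≤ 1) (h : b + 1 < 2 * (a + 1)) :
    ‖((4 ^ (a + b + 2) / (2 ^ (1 - e) * ((2 * (a + 1) - (b + 1)).factorial : ℚ)) : ℚ) :
      ℚ_[2])‖ ≤ 1 :=
  (mb0_norm he h).trans (pow_le_one₀ (by norm_num) (by norm_num))

theorem mb0_norm_nat (n : ℕ) : ‖(((n : ℕ) : ℚ) : ℚ_[2])‖ ≤ 1 := by
  have := Padic.norm_int_le_one (p := 2) (n : ℤ)
  push_cast
  simpa using this

/-- MB1. -/
theorem evalPM (h : SpMM) : SpEval := by
  intro K _ _ φ y e a b he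
  obtain ⟨hM0, hM1, -⟩ := h K y (a + 1) (b + 1)
  have h4 : ‖((4 ^ (a + b + 2) : ℚ) : ℚ_[2])‖ ≤ 1 := by
    have := mb0_norm_nat (4 ^ (a + b + 2))
    push_cast at this ⊢
    exact this
  have hsum : a + 1 + (b + 1) = a + b + 2 := by ring
  rcases lt_trichotomy (2 * (a + 1)) (b + 1) with hc | hc | hc
  · rw [PM, if_pos hc, eval₂_zero]
    rcases Nat.le_one_iff_eq_zero_or_eq_one.1 he with rfl | rfl
    · rw [hM0, NN, if_pos hc, mul_zero]
    · rw [hM1, NNo, if_pos hc, mul_zero]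
  · have hn : ¬ 2 * (a + 1) < b + 1 := by omega
    rw [PM, if_neg hn, if_pos hc, eval₂_C, mb0_cz_map φ h4]
    rcases Nat.le_one_iff_eq_zero_or_eq_one.1 he with rfl | rfl
    · rw [hM0, NN, if_neg hn, if_pos hc, mul_one, hsum]
      push_cast
      rfl
    · rw [hM1, NNo, if_neg hn, if_pos hc, mul_one, hsum]
      push_cast
      rfl
  · have hn : ¬ 2 * (a + 1) < b + 1 := by omega
    have hne : ¬ 2 * (a + 1) = b + 1 := by omega
    rw [PM, if_neg hn, if_neg hne, eval₂_mul, eval₂_mul, eval₂_C,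
      mb0_cz_map φ (mb0_norm_le he hc), eval₂_finsetProd]
    have hprod : ∏ l ∈ Finset.Icc 1 (2 * (a + 1) - (b + 1) - 1),
        eval₂ φ y (C ((a : ℤ_[2]) + b + 2 - l) - X) =
        ∏ l ∈ Finset.Icc 1 (2 * (a + 1) - (b + 1) - 1),
          ((((a + 1 : ℕ) : K)) + ((b + 1 : ℕ) : K) - l - y) := by
      refine Finset.prod_congr rfl fun l _ ↦ ?_
      rw [eval₂_sub, eval₂_C, eval₂_X]
      simp only [map_sub, map_add, map_natCast, map_ofNat]
      push_cast
      ring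
    rw [hprod]
    have hf : (((2 * (a + 1) - (b + 1)).factorial : ℕ) : K) ≠ 0 :=
      Nat.cast_ne_zero.2 (Nat.factorial_ne_zero _)
    rcases Nat.le_one_iff_eq_zero_or_eq_one.1 he with rfl | rfl
    · rw [hM0, NN, if_neg hn, if_neg hne, if_pos rfl, hsum, eval₂_sub, eval₂_C, eval₂_mul,
        eval₂_X, eval₂_ofNat]
      simp only [map_mul, map_add, map_natCast, map_ofNat, map_one]
      push_cast
      field_simp
      try ring
    · rw [hM1, NNo, if_neg hn, if_neg hne, if_neg one_ne_zero, hsum, eval₂_sub, eval₂_C,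
        eval₂_X]
      simp only [map_mul, map_add, map_natCast, map_ofNat, map_one]
      push_cast
      simp only [pow_zero, one_mul]
      field_simp
      try ring

/-- MB1b. -/
theorem eightPM : SpEight := by
  intro e a b he
  have key : ∀ q : ℚ, ‖(q : ℚ_[2])‖ ≤ (1 / 8 : ℝ) ^ (b + 1) →
      cz q = (8 : ℤ_[2]) ^ (b + 1) * cz (q / 8 ^ (b + 1)) := by
    intro q hq
    have h8 : ‖(8 : ℚ_[2])‖ = 1 / 8 := by
      rw [show (8 : ℚ_[2]) = 2 ^ 3 by norm_num, norm_pow, mb0_norm_two]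
      norm_num
    have h1 : ‖(q : ℚ_[2])‖ ≤ 1 := hq.trans (pow_le_one₀ (by norm_num) (by norm_num))
    have h2 : ‖((q / 8 ^ (b + 1) : ℚ) : ℚ_[2])‖ ≤ 1 := by
      push_cast
      rw [norm_div, norm_pow, h8, div_le_one (by positivity)]
      exact hq
    apply PadicInt.ext
    rw [PadicInt.coe_mul, mb0_cz_coe h1, mb0_cz_coe h2]
    have h80 : (8 : ℚ_[2]) ^ (b + 1) ≠ 0 := pow_ne_zero _ (by norm_num)
    have h88 : (((8 : ℤ_[2]) ^ (b + 1) : ℤ_[2]) : ℚ_[2]) = 8 ^ (b + 1) := by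
      have := PadicInt.coe_natCast (p := 2) (8 ^ (b + 1))
      push_cast at this
      exact_mod_cast this
    rw [h88]
    push_cast
    field_simp
  rcases lt_trichotomy (2 * (a + 1)) (b + 1) with hc | hc | hc
  · rw [PM, if_pos hc]
    exact dvd_zero _
  · have hn : ¬ 2 * (a + 1) < b + 1 := by omega
    rw [PM, if_neg hn, if_pos hc, key _ ?_, C_mul]
    · exact dvd_mul_right _ _
    · push_cast
      rw [show (4 : ℚ_[2]) = 2 ^ 2 by norm_num, norm_pow, norm_pow, mb0_norm_two,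
        show (1 / 8 : ℝ) = (1 / 2) ^ 3 by norm_num, ← pow_mul, ← pow_mul]
      apply pow_le_pow_of_le_one (by norm_num) (by norm_num)
      omega
  · have hn : ¬ 2 * (a + 1) < b + 1 := by omega
    have hne : ¬ 2 * (a + 1) = b + 1 := by omega
    rw [PM, if_neg hn, if_neg hne, key _ (mb0_norm he hc), C_mul, mul_assoc, mul_assoc]
    exact dvd_mul_right _ _

end GH.Mat
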