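import Pool.Agent.GH.Mat.Spec
import Pool.Agent.GH.Cen.Scale
import Pool.Agent.GH.GhostVal

/-!
# GH-MAT ME5: the leading minors have the norms of the ghost coefficients, for all `x`

`GH.Cen.MinorStatement` from `SpGhost` (the inner discs) and `SpDet`, `SpDD` (the outer
regions, where no factor vanishes).
-/

open Polynomial

noncomputable section

namespace GH.Mat

/-- `∏_{a ≤ m < b} (r if m ≡ e mod 2, else 1)`. -/
theorem mo_prod (r : ℝ) {e : ℕ} (he : e ≤ 1) {a b : ℕ} (h : a ≤ b) :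
    ∏ m ∈ Finset.Ico a b, (if m % 2 = e then r else 1) =
      r ^ ((b + 1 - e) / 2 - (a + 1 - e) / 2) := by
  induction b, h using Nat.le_induction with
  | base => simp
  | succ b hb ih =>
    rw [Finset.prod_Ico_succ_top hb, ih]
    by_cases h2 : b % 2 = e
    · rw [if_pos h2, ← pow_succ]
      congr 1
      omega
    · rw [if_neg h2, mul_one]
      congr 1
      omega

theorem mo_norm_two : ‖(2 : C2)‖ = 1 / 2 := by
  have h := PadicComplex.norm_extends' 2 (2 : ℚ_[2])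
  have h2 : ‖(2 : ℚ_[2])‖ = 1 / 2 := by
    have := Padic.norm_p (p := 2)
    push_cast at this
    rw [this]; norm_num
  rw [h2] at h
  rw [← h]
  congr 1
  symm
  change algebraMap (PadicAlgCl 2) C2 (algebraMap ℚ_[2] (PadicAlgCl 2) 2) = 2
  rw [map_ofNat, map_ofNat]

theorem mo_norm_even (s : ℤ) : ‖((2 * s : ℤ) : C2)‖ ≤ 1 / 2 := by
  have h := IsUltrametricDist.norm_intCast_le_one C2 s
  rw [Int.cast_mul, norm_mul]
  have h2 : ‖((2 : ℤ) : C2)‖ = 1 / 2 := by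
    rw [Int.cast_ofNat]
    exact mo_norm_two
  rw [h2]
  linarith

theorem mo_norm {z : C2} (h0 : 1 / 2 < ‖z‖) (h1 : ‖z - 1‖ = 1) (t : ℤ) :
    ‖z - (t : C2)‖ = if t % 2 = 0 then ‖z‖ else 1 := by
  have key : ∀ (w : C2) (s : ℤ), 1 / 2 < ‖w‖ → ‖w - ((2 * s : ℤ) : C2)‖ = ‖w‖ := by
    intro w s hw
    have h2 : ‖-((2 * s : ℤ) : C2)‖ < ‖w‖ := by
      rw [norm_neg]
      exact lt_of_le_of_lt (mo_norm_even s) hw
    rw [sub_eq_add_neg, IsUltrametricDist.norm_add_eq_max_of_norm_ne_norm (ne_of_gt h2)]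
    exact max_eq_left h2.le
  by_cases ht : t % 2 = 0
  · rw [if_pos ht]
    obtain ⟨s, rfl⟩ : ∃ s, t = 2 * s := ⟨t / 2, by omega⟩
    exact key z s h0
  · rw [if_neg ht]
    obtain ⟨s, rfl⟩ : ∃ s, t = 2 * s + 1 := ⟨t / 2, by omega⟩
    have := key (z - 1) s (by rw [h1]; norm_num)
    rw [h1] at this
    rw [← this]
    congr 1
    push_cast
    ring

theorem mo_norm_one (t : ℕ) : ‖((2 * t + 1 : ℕ) : C2)‖ = 1 := by
  have h2 : ‖((2 * (t : ℤ) : ℤ) : C2)‖ < ‖(1 : C2)‖ := by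
    rw [norm_one]
    exact lt_of_le_of_lt (mo_norm_even t) (by norm_num)
  have h3 : ((2 * t + 1 : ℕ) : C2) = ((2 * (t : ℤ) : ℤ) : C2) + 1 := by
    push_cast
    ring
  rw [h3, IsUltrametricDist.norm_add_eq_max_of_norm_ne_norm (ne_of_lt h2)]
  rw [max_eq_right h2.le, norm_one]

section

variable {e : ℕ} {z : C2}

theorem mo_half (h0 : 1 / 2 < ‖z‖) (h1 : ‖z - 1‖ = 1) (m : ℕ) :
    ‖z / 2 - (m : C2)‖ = 2 * ‖z‖ := by
  have h := mo_norm h0 h1 (2 * (m : ℤ))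
  rw [if_pos (by omega)] at h
  have h3 : z - ((2 * (m : ℤ) : ℤ) : C2) = 2 * (z / 2 - (m : C2)) := by
    push_cast
    ring
  rw [h3, norm_mul, mo_norm_two] at h
  linarith

theorem mo_WP (h0 : 1 / 2 < ‖z‖) (h1 : ‖z - 1‖ = 1) (n : ℕ) :
    ‖(WP (n + 1)).eval₂ iota (z / 2)‖ = (2 * ‖z‖) ^ n := by
  unfold WP
  rw [eval₂_mul, norm_mul, eval₂_C, map_prod, norm_prod, eval₂_finset_prod, norm_prod]
  have e1 : ∀ t ∈ Finset.range (n + 1), ‖iota (2 * (t : ℤ_[2]) + 1)‖ = 1 := by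
    intro t _
    have h2 : iota (2 * (t : ℤ_[2]) + 1) = ((2 * t + 1 : ℕ) : C2) := by
      rw [← map_natCast iota]
      congr 1
      push_cast
      ring
    rw [h2, mo_norm_one]
  rw [Finset.prod_congr rfl e1, Finset.prod_const_one, one_mul]
  have e2 : ∀ m ∈ Finset.Icc (n + 1 + 1) (2 * (n + 1) - 1),
      ‖(X - C (m : ℤ_[2]) : ℤ_[2][X]).eval₂ iota (z / 2)‖ = 2 * ‖z‖ := by
    intro m _
    rw [eval₂_sub, eval₂_X, eval₂_C, map_natCast, mo_half h0 h1]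
  rw [Finset.prod_congr rfl e2, Finset.prod_const, Nat.card_Icc]
  congr 1
  omega

theorem mo_VP (he : e ≤ 1) (h0 : 1 / 2 < ‖z‖) (h1 : ‖z - 1‖ = 1) (n : ℕ) :
    ‖(VP e (n + 1)).eval₂ iota (z / 2)‖ = (1 / 8) ^ (n + 1) * (1 / 2) ^ e *
      ‖z‖ ^ ((3 * (n + 1) - e) / 2 - (n + 1)) * (2 * ‖z‖) ^ (n + e) := by
  unfold VP
  rw [eval₂_mul, eval₂_mul, norm_mul, norm_mul, eval₂_C, eval₂_finset_prod, norm_prod,
    eval₂_finset_prod, norm_prod]
  have e1 : ‖iota ((-8) ^ (n + 1) * 2 ^ e)‖ = (1 / 8) ^ (n + 1) * (1 / 2) ^ e := by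
    have h8 : ‖(8 : C2)‖ = 1 / 8 := by
      have : (8 : C2) = 2 ^ 3 := by norm_num
      rw [this, norm_pow, mo_norm_two]
      norm_num
    rw [map_mul, map_pow, map_pow, map_neg, map_ofNat, map_ofNat, norm_mul, norm_pow, norm_pow,
      norm_neg, h8, mo_norm_two]
  have e2 : ∀ m ∈ Finset.Icc (2 * (n + 1) + 1) (3 * (n + 1) - 1 + e),
      ‖(X - C (m : ℤ_[2]) : ℤ_[2][X]).eval₂ iota (z / 2)‖ = 2 * ‖z‖ := by
    intro m _
    rw [eval₂_sub, eval₂_X, eval₂_C, map_natCast, mo_half h0 h1]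
  have e3 : ∀ s ∈ Finset.Icc (2 * (n + 1) + 1) (3 * (n + 1) - e),
      ‖(2 * X - C (s : ℤ_[2]) : ℤ_[2][X]).eval₂ iota (z / 2)‖ =
        if s % 2 = 0 then ‖z‖ else 1 := by
    intro s _
    have h := mo_norm h0 h1 (s : ℤ)
    have h4 : (2 * X - C (s : ℤ_[2]) : ℤ_[2][X]).eval₂ iota (z / 2) = z - ((s : ℤ) : C2) := by
      have h5 : (2 : ℤ_[2][X]).eval₂ iota (z / 2) = 2 := by
        have := eval₂_ofNat (S := C2) (R := ℤ_[2]) (n := 2) iota (z / 2)
        exact this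
      rw [eval₂_sub, eval₂_mul, eval₂_X, eval₂_C, map_natCast, h5, Int.cast_natCast]
      ring
    rw [h4, h]
    by_cases hs : s % 2 = 0
    · rw [if_pos hs, if_pos (by omega)]
    · rw [if_neg hs, if_neg (by omega)]
  rw [e1, Finset.prod_congr rfl e2, Finset.prod_const, Nat.card_Icc, Finset.prod_congr rfl e3]
  have e4 : Finset.Icc (2 * (n + 1) + 1) (3 * (n + 1) - e) =
      Finset.Ico (2 * (n + 1) + 1) (3 * (n + 1) - e + 1) := by
    ext s
    simp only [Finset.mem_Icc, Finset.mem_Ico]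
    omega
  rw [e4, mo_prod ‖z‖ (e := 0) (by omega) (by omega)]
  have e5 : (3 * (n + 1) - e + 1 + 1 - 0) / 2 - (2 * (n + 1) + 1 + 1 - 0) / 2 =
      (3 * (n + 1) - e) / 2 - (n + 1) := by omega
  have e6 : 3 * (n + 1) - 1 + e + 1 - (2 * (n + 1) + 1) = n + e := by omega
  rw [e5, e6]

theorem mo_count (he : e ≤ 1) (n : ℕ) : (3 * (n + 1) - e) / 2 - (n + 1) +
    ((4 * (n + 1) + 1 - e) / 2 - (3 * (n + 1) + 1 + 1 - e) / 2) + e = n + e := by
  rcases (by omega : e = 0 ∨ e = 1) with rfl | rfl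
  · omega
  · omega

/-- The product of the ghost coefficient, in the outer regions. -/
theorem mo_G (r : ℝ) (he : e ≤ 1) (n : ℕ) :
    (∏ m ∈ Finset.range (6 * (n + 1) + 2),
        ((if m % 2 = e then r else 1) / 8) ^ mult 2 (n + 1) (2 * m)) *
      (r ^ ((4 * (n + 1) + 1 - e) / 2 - (3 * (n + 1) + 1 + 1 - e) / 2) * (1 / 8) ^ n) =
    (∏ m ∈ Finset.range (6 * n + 2),
        ((if m % 2 = e then r else 1) / 8) ^ mult 2 n (2 * m)) *
      (r ^ (n + e) * (1 / 8) ^ (2 * n + 1)) := by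
  set a : ℕ → ℝ := fun m ↦ (if m % 2 = e then r else 1) / 8 with ha
  have h6 : ∀ m, a m = (if m % 2 = e then r else 1) * (1 / 8) := by
    intro m
    rw [ha]
    ring
  have h1 : ∏ m ∈ Finset.range (6 * n + 2), a m ^ mult 2 n (2 * m) =
      ∏ m ∈ Finset.range (6 * (n + 1) + 2), a m ^ mult 2 n (2 * m) := by
    apply Finset.prod_subset
    · intro m
      simp only [Finset.mem_range]
      omega
    · intro m _ hm
      simp only [Finset.mem_range, not_lt] at hm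
      rw [gv_mult_eq_zero hm, pow_zero]
  have hI : ∏ m ∈ Finset.range (6 * (n + 1) + 2),
      a m ^ (if 3 * (n + 1) + 1 ≤ m ∧ m + 1 ≤ 4 * (n + 1) then 1 else 0) =
      r ^ ((4 * (n + 1) + 1 - e) / 2 - (3 * (n + 1) + 1 + 1 - e) / 2) * (1 / 8) ^ n := by
    have h2 : ∀ m ∈ Finset.range (6 * (n + 1) + 2),
        a m ^ (if 3 * (n + 1) + 1 ≤ m ∧ m + 1 ≤ 4 * (n + 1) then 1 else 0) =
        if m ∈ Finset.Ico (3 * (n + 1) + 1) (4 * (n + 1)) then a m else 1 := by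
      intro m _
      split_ifs with h3 h4 h4
      · rw [pow_one]
      · exact absurd (Finset.mem_Ico.mpr ⟨h3.1, by omega⟩) h4
      · rw [Finset.mem_Ico] at h4
        exact absurd ⟨h4.1, by omega⟩ h3
      · rw [pow_zero]
    rw [Finset.prod_congr rfl h2, Finset.prod_ite_mem]
    have h3 : Finset.range (6 * (n + 1) + 2) ∩ Finset.Ico (3 * (n + 1) + 1) (4 * (n + 1)) =
        Finset.Ico (3 * (n + 1) + 1) (4 * (n + 1)) := by
      ext m
      simp only [Finset.mem_inter, Finset.mem_range, Finset.mem_Ico]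
      omega
    rw [h3, Finset.prod_congr rfl (fun m _ ↦ h6 m), Finset.prod_mul_distrib, Finset.prod_const, mo_prod r he (by omega), Nat.card_Ico]
    congr 2
    omega
  have hJ : ∏ m ∈ Finset.range (6 * (n + 1) + 2),
      a m ^ (if 4 * (n + 1) + 2 ≤ m ∧ m ≤ 6 * (n + 1) + 1 ∧ m ≠ 6 * (n + 1) then 1 else 0) =
      r ^ (n + e) * (1 / 8) ^ (2 * n + 1) := by
    have h2 : ∀ m ∈ Finset.range (6 * (n + 1)),
        a m ^ (if 4 * (n + 1) + 2 ≤ m ∧ m ≤ 6 * (n + 1) + 1 ∧ m ≠ 6 * (n + 1) then 1 else 0) =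
        if m ∈ Finset.Ico (4 * (n + 1) + 2) (6 * (n + 1)) then a m else 1 := by
      intro m hm
      rw [Finset.mem_range] at hm
      split_ifs with h3 h4 h4
      · rw [pow_one]
      · exact absurd (Finset.mem_Ico.mpr ⟨h3.1, by omega⟩) h4
      · rw [Finset.mem_Ico] at h4
        exact absurd ⟨h4.1, by omega, by omega⟩ h3
      · rw [pow_zero]
    rw [Finset.prod_range_succ, Finset.prod_range_succ, Finset.prod_congr rfl h2,
      Finset.prod_ite_mem, if_neg (by omega), pow_zero, mul_one, if_pos (by omega), pow_one,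
      h6 (6 * (n + 1) + 1)]
    have h3 : Finset.range (6 * (n + 1)) ∩ Finset.Ico (4 * (n + 1) + 2) (6 * (n + 1)) =
        Finset.Ico (4 * (n + 1) + 2) (6 * (n + 1)) := by
      ext m
      simp only [Finset.mem_inter, Finset.mem_range, Finset.mem_Ico]
      omega
    rw [h3, Finset.prod_congr rfl (fun m _ ↦ h6 m), Finset.prod_mul_distrib, Finset.prod_const, mo_prod r he (by omega), Nat.card_Ico]
    have h4 : 6 * (n + 1) - (4 * (n + 1) + 2) = 2 * n := by omega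
    rw [h4]
    interval_cases e
    · rw [if_neg (by omega)]
      have h5 : (6 * (n + 1) + 1 - 0) / 2 - (4 * (n + 1) + 2 + 1 - 0) / 2 = n := by omega
      rw [h5, pow_succ (1 / 8 : ℝ) (2 * n)]
      ring
    · rw [if_pos (by omega)]
      have h5 : (6 * (n + 1) + 1 - 1) / 2 - (4 * (n + 1) + 2 + 1 - 1) / 2 = n := by omega
      rw [h5, pow_succ (1 / 8 : ℝ) (2 * n)]
      ring
  rw [h1, ← hI, ← hJ, ← Finset.prod_mul_distrib, ← Finset.prod_mul_distrib]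
  apply Finset.prod_congr rfl
  intro m _
  rw [← pow_add, ← pow_add, gv_mult_succ]

theorem mo_outer (hD : SpDet) (hDD : SpDD) (he : e ≤ 1) {x : C2} (hz : z = x - e)
    (h0 : 1 / 2 < ‖z‖) (h1 : ‖z - 1‖ = 1) (n : ℕ) :
    ‖Cen.DD e (z / 2) n‖ =
      ∏ m ∈ Finset.range (6 * n + 2), (‖x - m‖ / 8) ^ mult 2 n (2 * m) := by
  have hx : ∀ m : ℕ, ‖x - (m : C2)‖ = if m % 2 = e then ‖z‖ else 1 := by
    intro m
    have h2 : x - (m : C2) = z - (((m : ℤ) - (e : ℤ) : ℤ) : C2) := by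
      rw [hz]
      push_cast
      ring
    rw [h2, mo_norm h0 h1]
    by_cases hm : m % 2 = e
    · rw [if_pos hm, if_pos (by omega)]
    · rw [if_neg hm, if_neg (by omega)]
  simp only [hx]
  have hr : 0 < ‖z‖ := by linarith
  induction n with
  | zero =>
    have h2 : Cen.DD e (z / 2) 0 = 1 := by
      unfold Cen.DD
      exact Matrix.det_fin_zero
    rw [h2, norm_one]
    symm
    apply Finset.prod_eq_one
    intro m _
    have h3 : mult 2 0 (2 * m) = 0 := by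
      rw [gv_mult_eq, Nat.zero_sub, Nat.zero_min]
    rw [h3, pow_zero]
  | succ n ih =>
    have h2 := congrArg (fun P : ℤ_[2][X] ↦ ‖P.eval₂ iota (z / 2)‖) (hD e (n + 1) he (by omega))
    simp only [eval₂_mul, norm_mul] at h2
    rw [Nat.add_sub_cancel, mo_WP h0 h1, mo_VP he h0 h1, ← hDD C2 iota _ e _ he,
      ← hDD C2 iota _ e _ he, ih] at h2
    have h3 := mo_G ‖z‖ he n
    set G1 := ∏ m ∈ Finset.range (6 * (n + 1) + 2),
      ((if m % 2 = e then ‖z‖ else 1) / 8) ^ mult 2 (n + 1) (2 * m) with hG1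
    set G0 := ∏ m ∈ Finset.range (6 * n + 2),
      ((if m % 2 = e then ‖z‖ else 1) / 8) ^ mult 2 n (2 * m) with hG0
    set i := (4 * (n + 1) + 1 - e) / 2 - (3 * (n + 1) + 1 + 1 - e) / 2 with hi
    set c := (3 * (n + 1) - e) / 2 - (n + 1) with hc
    have hci : c + i + e = n + e := mo_count he n
    have hcan : (0 : ℝ) < (2 * ‖z‖) ^ n * (‖z‖ ^ i * (1 / 8) ^ n) := by positivity
    apply mul_right_cancel₀ (ne_of_gt hcan)
    calc ‖Cen.DD e (z / 2) (n + 1)‖ * ((2 * ‖z‖) ^ n * (‖z‖ ^ i * (1 / 8) ^ n))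
        = (‖Cen.DD e (z / 2) (n + 1)‖ * (2 * ‖z‖) ^ n) * (‖z‖ ^ i * (1 / 8) ^ n) := by ring
      _ = G0 * ((1 / 8) ^ (n + 1) * (1 / 2) ^ e * ‖z‖ ^ c * (2 * ‖z‖) ^ (n + e)) *
            (‖z‖ ^ i * (1 / 8) ^ n) := by rw [h2]
      _ = G0 * (‖z‖ ^ (n + e) * (1 / 8) ^ (2 * n + 1)) * (2 * ‖z‖) ^ n := by
          have h4 : (1 / 2 : ℝ) ^ e * (2 * ‖z‖) ^ (n + e) = ‖z‖ ^ e * (2 * ‖z‖) ^ n := by
            rw [pow_add, ← mul_assoc, mul_comm ((1 / 2 : ℝ) ^ e), mul_assoc, ← mul_pow]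
            have : (1 / 2 : ℝ) * (2 * ‖z‖) = ‖z‖ := by ring
            rw [this]
            ring
          have h5 : ‖z‖ ^ c * ‖z‖ ^ i * ‖z‖ ^ e = ‖z‖ ^ (n + e) := by
            rw [← pow_add, ← pow_add, hci]
          calc G0 * ((1 / 8) ^ (n + 1) * (1 / 2) ^ e * ‖z‖ ^ c * (2 * ‖z‖) ^ (n + e)) *
                (‖z‖ ^ i * (1 / 8) ^ n)
              = G0 * (1 / 8) ^ (n + 1) * (1 / 8) ^ n * (‖z‖ ^ c * ‖z‖ ^ i) *
                  ((1 / 2) ^ e * (2 * ‖z‖) ^ (n + e)) := by ring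
            _ = G0 * (1 / 8) ^ (n + 1) * (1 / 8) ^ n * (‖z‖ ^ c * ‖z‖ ^ i * ‖z‖ ^ e) *
                  (2 * ‖z‖) ^ n := by rw [h4]; ring
            _ = _ := by rw [h5]; ring
      _ = G1 * ((2 * ‖z‖) ^ n * (‖z‖ ^ i * (1 / 8) ^ n)) := by rw [← h3]; ring

end

/-- ME5: `GH.Cen.MinorStatement`, the statement needed by `GH.Cen.central`. -/
theorem minorStatement (hD : SpDet) (hDD : SpDD) (hG : SpGhost) :
    ∀ x : C2, ‖x‖ ≤ 1 →
      (‖x - 1‖ = 1 → ∀ n : ℕ, ‖(Cen.blk (Mmat x) n).det‖ = ‖ghost 2 (wx x) n‖) ∧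
      (‖x - 1‖ < 1 → ∀ n : ℕ, ‖(Cen.blk (Modd x) n).det‖ = ‖ghost 2 (wx x) n‖) := by
  intro x hx
  constructor
  · intro hx1 n
    rw [(Cen.scale_det x).1 n]
    change ‖Cen.DD 0 (x / 2) n‖ = _
    by_cases h : ‖x‖ ≤ 1 / 2
    · have hy : ‖x / 2‖ ≤ 1 := by
        rw [norm_div, mo_norm_two]; linarith
      rw [hG 0 n (x / 2) (by omega) hy]
      congr 3
      push_cast
      ring
    · rw [norm_ghost_wx hx]
      exact mo_outer hD hDD (by omega) (by simp) (not_le.mp h) hx1 n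
  · intro hx1 n
    rw [(Cen.scale_det x).2 n]
    change ‖Cen.DD 1 ((x - 1) / 2) n‖ = _
    by_cases h : ‖x - 1‖ ≤ 1 / 2
    · have hy : ‖(x - 1) / 2‖ ≤ 1 := by
        rw [norm_div, mo_norm_two]; linarith
      rw [hG 1 n ((x - 1) / 2) le_rfl hy]
      congr 3
      push_cast
      ring
    · rw [norm_ghost_wx hx]
      refine mo_outer hD hDD le_rfl (by simp) (not_le.mp h) ?_ n
      have h2 : ‖x - 1‖ < ‖(-1 : C2)‖ := by
        rw [norm_neg, norm_one]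
        exact hx1
      rw [sub_eq_add_neg, IsUltrametricDist.norm_add_eq_max_of_norm_ne_norm (ne_of_lt h2)]
      rw [max_eq_right h2.le, norm_neg, norm_one]

end GH.Mat
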