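import Mathlib

/-!
# Ghost conjecture (2,1), matrix layer: injectivity of the first coordinates on invariants
-/

open Polynomial Finset

noncomputable section

namespace GH.Mat.Rk

/-- The polynomial `∑ c_i X^(m-i) (X-1)^(2i)`. -/
def QQ (m : ℕ) (c : ℕ → ℚ) : ℚ[X] :=
  ∑ i ∈ Icc 1 (m - 1), C (c i) * (X ^ (m - i) * (X - 1) ^ (2 * i))

/-- Its values. -/
def QV (m : ℕ) (c : ℕ → ℚ) (s : ℚ) : ℚ :=
  ∑ i ∈ Icc 1 (m - 1), c i * (s ^ (m - i) * (s - 1) ^ (2 * i))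

theorem QQ_eval (m : ℕ) (c : ℕ → ℚ) (s : ℚ) : (QQ m c).eval s = QV m c s := by
  rw [QQ, QV, eval_finsetSum]
  refine sum_congr rfl fun i _ ↦ ?_
  simp

theorem QV_add (m : ℕ) (c d : ℕ → ℚ) (s : ℚ) : QV m (c + d) s = QV m c s + QV m d s := by
  simp only [QV, Pi.add_apply, add_mul, sum_add_distrib]

theorem QV_smul (m : ℕ) (a : ℚ) (c : ℕ → ℚ) (s : ℚ) : QV m (a • c) s = a * QV m c s := by
  simp only [QV, Pi.smul_apply, smul_eq_mul, mul_sum, mul_assoc]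

theorem QV_zero (m : ℕ) (s : ℚ) : QV m 0 s = 0 := by
  simp [QV]

/-- The main counting argument. -/
theorem inj_core {m t : ℕ} {c : ℕ → ℚ} {D : ℚ[X]} (h0 : X ^ (2 * t + 2) ∣ QQ m c)
    (hD : D ∣ QQ m c) (hd : 2 * m < D.natDegree + (2 * t + 2)) :
    ∀ i ∈ Icc 1 (m - 1), c i = 0 := by
  by_contra hcon
  push Not at hcon
  obtain ⟨a, ha, hca⟩ := hcon
  set F := (Icc 1 (m - 1)).filter fun i ↦ c i ≠ 0 with hF
  have hFne : F.Nonempty := ⟨a, by rw [hF, mem_filter]; exact ⟨ha, hca⟩⟩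
  set i₁ := F.max' hFne with hi₁
  have hi₁mem : i₁ ∈ F := F.max'_mem hFne
  rw [hF, mem_filter, mem_Icc] at hi₁mem
  obtain ⟨⟨h1, h2⟩, h3⟩ := hi₁mem
  have hmax : ∀ i ∈ Icc 1 (m - 1), i₁ < i → c i = 0 := by
    intro i hi hlt
    by_contra hne
    have : i ∈ F := by rw [hF, mem_filter]; exact ⟨hi, hne⟩
    exact absurd (F.le_max' i this) (not_le.2 hlt)
  have hsub : QQ m c = ∑ i ∈ Icc 1 i₁, C (c i) * (X ^ (m - i) * (X - 1) ^ (2 * i)) := by
    rw [QQ]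
    symm
    refine sum_subset (fun i hi ↦ ?_) (fun i hi hi' ↦ ?_)
    · rw [mem_Icc] at hi ⊢; omega
    · rw [hmax i hi (by rw [mem_Icc] at hi hi'; omega), C_0, zero_mul]
  set R : ℚ[X] := ∑ i ∈ Icc 1 i₁, C (c i) * (X ^ (i₁ - i) * (X - 1) ^ (2 * i)) with hR
  have hfac : QQ m c = X ^ (m - i₁) * R := by
    rw [hsub, hR, mul_sum]
    refine sum_congr rfl fun i hi ↦ ?_
    rw [mem_Icc] at hi
    have : m - i = (m - i₁) + (i₁ - i) := by omega
    rw [this, pow_add]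
    ring
  have hR0 : R.eval 0 = c i₁ := by
    rw [hR, eval_finsetSum, sum_eq_single i₁]
    · simp
    · intro i hi hne
      rw [mem_Icc] at hi
      have : i₁ - i ≠ 0 := by omega
      simp [this]
    · intro hn
      exact absurd (mem_Icc.2 ⟨h1, le_rfl⟩) hn
  have hQ0 : QQ m c ≠ 0 := by
    rw [hfac]
    refine mul_ne_zero (pow_ne_zero _ X_ne_zero) ?_
    intro hz
    rw [hz, eval_zero] at hR0
    exact h3 hR0.symm
  have hle : 2 * t + 2 ≤ m - i₁ := by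
    by_contra hlt
    push Not at hlt
    have h4 : X ^ (m - i₁ + 1) ∣ X ^ (m - i₁) * R := by
      rw [← hfac]
      exact (pow_dvd_pow X (by omega)).trans h0
    rw [pow_succ] at h4
    have h5 : (X : ℚ[X]) ∣ R := (mul_dvd_mul_iff_left (pow_ne_zero _ X_ne_zero)).1 h4
    rw [X_dvd_iff, coeff_zero_eq_eval_zero, hR0] at h5
    exact h3 h5
  have hdeg : (QQ m c).natDegree ≤ m + i₁ := by
    rw [hsub]
    refine natDegree_sum_le_of_forall_le _ _ fun i hi ↦ ?_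
    rw [mem_Icc] at hi
    refine (natDegree_C_mul_le _ _).trans ((natDegree_mul_le).trans ?_)
    have e1 : (X ^ (m - i) : ℚ[X]).natDegree ≤ m - i := natDegree_X_pow_le _
    have e2 : ((X - 1 : ℚ[X]) ^ (2 * i)).natDegree ≤ 2 * i := by
      refine (natDegree_pow_le).trans ?_
      have : (X - 1 : ℚ[X]).natDegree ≤ 1 := by
        have := natDegree_X_sub_C_le (1 : ℚ)
        rwa [C_1] at this
      nlinarith
    omega
  have hD2 := natDegree_le_of_dvd hD hQ0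
  omega

/-- Divisibility by the power of `X - 1`. -/
theorem QQ_dvd {m t : ℕ} {c : ℕ → ℚ} (h : ∀ i, 1 ≤ i → i ≤ t → c i = 0) :
    (X - 1) ^ (2 * t + 2) ∣ QQ m c := by
  rw [QQ]
  refine dvd_sum fun i hi ↦ ?_
  rw [mem_Icc] at hi
  rcases Nat.lt_or_ge t i with h1 | h1
  · exact ((pow_dvd_pow (X - 1 : ℚ[X]) (by omega : 2 * t + 2 ≤ 2 * i)).mul_left _).mul_left _
  · rw [h i hi.1 h1, C_0, zero_mul]
    exact dvd_zero _

/-- The factor of the discs. -/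
def gf (e : ℕ) (s : ℚ) : ℚ := if e = 0 then 1 else s + 1

theorem inj_even {m t : ℕ} {c : ℕ → ℚ} (hc : ∀ s, QV m c (1 - s) = QV m c s)
    (h : ∀ i, 1 ≤ i → i ≤ t → c i = 0) (hm : m < 3 * t + 3) :
    ∀ i ∈ Icc 1 (m - 1), c i = 0 := by
  have hP : (QQ m c).comp (1 - X) = QQ m c := by
    refine Polynomial.funext fun s ↦ ?_
    rw [eval_comp]
    simp only [eval_sub, eval_one, eval_X, QQ_eval]
    exact hc s
  have h1 := QQ_dvd (m := m) h
  have h0 : X ^ (2 * t + 2) ∣ QQ m c := by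
    obtain ⟨R, hR⟩ := h1
    refine ⟨R.comp (1 - X), ?_⟩
    have : (QQ m c).comp (1 - X) = ((X - 1) ^ (2 * t + 2) * R).comp (1 - X) := by rw [← hR]
    rw [hP] at this
    rw [this, mul_comp, pow_comp, sub_comp, X_comp, one_comp]
    have e1 : (1 - X - 1 : ℚ[X]) = -X := by ring
    rw [e1, Even.neg_pow ⟨t + 1, by ring⟩]
  have hcop : IsCoprime ((X : ℚ[X]) ^ (2 * t + 2)) ((X - 1) ^ (2 * t + 2)) := by
    refine IsCoprime.pow ?_
    exact ⟨1, -1, by ring⟩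
  have hD := hcop.mul_dvd h0 h1
  refine inj_core h0 hD ?_
  have e3 : ((X : ℚ[X]) - 1).natDegree = 1 := by
    have := natDegree_X_sub_C (1 : ℚ)
    rwa [C_1] at this
  have e4 : ((X : ℚ[X]) - 1) ≠ 0 := by
    intro hz; rw [hz, natDegree_zero] at e3; omega
  have e2 : ((X : ℚ[X]) ^ (2 * t + 2) * (X - 1) ^ (2 * t + 2)).natDegree = 4 * t + 4 := by
    rw [natDegree_mul (pow_ne_zero _ X_ne_zero) (pow_ne_zero _ e4), natDegree_pow, natDegree_pow,
      natDegree_X, e3]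
    ring
  rw [e2]
  omega

theorem inj_odd {m t : ℕ} {c : ℕ → ℚ}
    (hc : ∀ s, (1 - s + 1) * QV m c (1 - s) = -((s + 1) * QV m c s))
    (h : ∀ i, 1 ≤ i → i ≤ t → c i = 0) (hm : m ≤ 3 * t + 3) :
    ∀ i ∈ Icc 1 (m - 1), c i = 0 := by
  have hP : ((X + 1) * QQ m c).comp (1 - X) = -((X + 1) * QQ m c) := by
    refine Polynomial.funext fun s ↦ ?_
    rw [eval_comp]
    simp only [eval_sub, eval_one, eval_X, eval_mul, eval_add, eval_neg, QQ_eval]
    exact hc s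
  have h1 := QQ_dvd (m := m) h
  have h0 : X ^ (2 * t + 2) ∣ QQ m c := by
    obtain ⟨R, hR⟩ := h1
    have h5 : X ^ (2 * t + 2) ∣ (X + 1) * QQ m c := by
      rw [← dvd_neg, ← hP, hR, mul_comp, mul_comp, pow_comp, sub_comp, X_comp, one_comp]
      have e1 : (1 - X - 1 : ℚ[X]) = -X := by ring
      rw [e1, Even.neg_pow ⟨t + 1, by ring⟩]
      exact (dvd_mul_right _ _).mul_left _
    have hcop : IsCoprime ((X : ℚ[X]) ^ (2 * t + 2)) (X + 1) :=
      IsCoprime.pow_left ⟨-1, 1, by ring⟩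
    exact hcop.dvd_of_dvd_mul_left h5
  have hv1 : QV m c (1 / 2) = 0 := by
    have := hc (1 / 2)
    norm_num at this
    linarith
  have hv2 : QV m c 2 = 0 := by
    have := hc 2
    norm_num at this
    linarith
  have hd1 : (X - C (1 / 2 : ℚ)) ∣ QQ m c := by
    rw [dvd_iff_isRoot, IsRoot.def, QQ_eval, hv1]
  have hd2 : (X - C (2 : ℚ)) ∣ QQ m c := by
    rw [dvd_iff_isRoot, IsRoot.def, QQ_eval, hv2]
  have cx : ∀ a b : ℚ, a ≠ b → IsCoprime ((X : ℚ[X]) - C a) (X - C b) := fun a b hab ↦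
    isCoprime_X_sub_C_of_isUnit_sub (sub_ne_zero.2 hab).isUnit
  have hX : (X : ℚ[X]) = X - C 0 := by rw [C_0, sub_zero]
  have hX1 : (X - 1 : ℚ[X]) = X - C 1 := by rw [C_1]
  have hcop : IsCoprime ((X : ℚ[X]) ^ (2 * t + 2)) ((X - 1) ^ (2 * t + 2)) := by
    refine IsCoprime.pow ?_
    exact ⟨1, -1, by ring⟩
  have hD := hcop.mul_dvd h0 h1
  have hcop2 : IsCoprime ((X : ℚ[X]) ^ (2 * t + 2) * (X - 1) ^ (2 * t + 2)) (X - C (1 / 2)) := by
    refine IsCoprime.mul_left (IsCoprime.pow_left ?_) (IsCoprime.pow_left ?_)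
    · rw [hX]; simpa using cx 0 (1 / 2) (by norm_num)
    · rw [hX1]; exact cx 1 (1 / 2) (by norm_num)
  have hD2 := hcop2.mul_dvd hD hd1
  have hcop3 : IsCoprime ((X : ℚ[X]) ^ (2 * t + 2) * (X - 1) ^ (2 * t + 2) * (X - C (1 / 2)))
      (X - C 2) := by
    refine IsCoprime.mul_left (IsCoprime.mul_left (IsCoprime.pow_left ?_)
      (IsCoprime.pow_left ?_)) (cx _ _ (by norm_num))
    · rw [hX]; simpa using cx 0 2 (by norm_num)
    · rw [hX1]; exact cx 1 2 (by norm_num)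
  have hD3 := hcop3.mul_dvd hD2 hd2
  refine inj_core h0 hD3 ?_
  have e3 : ((X : ℚ[X]) - 1).natDegree = 1 := by
    have := natDegree_X_sub_C (1 : ℚ)
    rwa [C_1] at this
  have e4 : ((X : ℚ[X]) - 1) ≠ 0 := by
    intro hz; rw [hz, natDegree_zero] at e3; omega
  have e5 : ((X : ℚ[X]) ^ (2 * t + 2) * (X - 1) ^ (2 * t + 2)) ≠ 0 :=
    mul_ne_zero (pow_ne_zero _ X_ne_zero) (pow_ne_zero _ e4)
  have e2 : ((X : ℚ[X]) ^ (2 * t + 2) * (X - 1) ^ (2 * t + 2) * (X - C (1 / 2)) *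
      (X - C 2)).natDegree = 4 * t + 6 := by
    rw [natDegree_mul (mul_ne_zero e5 (X_sub_C_ne_zero _)) (X_sub_C_ne_zero _),
      natDegree_mul e5 (X_sub_C_ne_zero _),
      natDegree_mul (pow_ne_zero _ X_ne_zero) (pow_ne_zero _ e4), natDegree_pow, natDegree_pow,
      natDegree_X, e3, natDegree_X_sub_C, natDegree_X_sub_C]
    ring
  rw [e2]
  omega

/-- Linear algebra: on a space on which the first `t` coordinates are injective, all coordinates
are linear combinations of the first `t` ones. -/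
theorem factor {t : ℕ} (V : Submodule ℚ (ℕ → ℚ))
    (h : ∀ c ∈ V, (∀ l : Fin t, c ((l : ℕ) + 1) = 0) → c = 0) :
    ∃ x : ℕ → Fin t → ℚ, (∀ l, (fun i ↦ x i l) ∈ V) ∧
      ∀ c ∈ V, ∀ i, c i = ∑ l, x i l * c ((l : ℕ) + 1) := by
  let π : V →ₗ[ℚ] (Fin t → ℚ) :=
    { toFun := fun c l ↦ (c : ℕ → ℚ) ((l : ℕ) + 1)
      map_add' := fun _ _ ↦ rfl
      map_smul' := fun _ _ ↦ rfl }
  have hker : LinearMap.ker π = ⊥ := by
    rw [LinearMap.ker_eq_bot']
    intro c hc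
    apply Subtype.ext
    refine h c c.2 fun l ↦ ?_
    exact congrFun hc l
  obtain ⟨g, hg⟩ := LinearMap.exists_leftInverse_of_injective π hker
  refine ⟨fun i l ↦ (g (Pi.single l 1) : ℕ → ℚ) i, fun l ↦ (g (Pi.single l 1)).2,
    fun c hc i ↦ ?_⟩
  have h1 : g (π ⟨c, hc⟩) = ⟨c, hc⟩ := by
    rw [← LinearMap.comp_apply, hg]; rfl
  have h2 : π ⟨c, hc⟩ =
      ∑ l : Fin t, c ((l : ℕ) + 1) • (Pi.single l (1 : ℚ) : Fin t → ℚ) := by
    funext l
    rw [Finset.sum_apply, Finset.sum_eq_single l]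
    · simp [π]
    · intro b _ hb
      simp [Pi.single_eq_of_ne' hb]
    · simp
  rw [h2, map_sum] at h1
  have h3 : ((∑ l : Fin t, g (c ((l : ℕ) + 1) • (Pi.single l (1 : ℚ) : Fin t → ℚ)) : V) : ℕ → ℚ) i
      = c i := by rw [h1]
  rw [← h3]
  rw [Submodule.coe_sum, Finset.sum_apply]
  refine sum_congr rfl fun l _ ↦ ?_
  rw [map_smul, Submodule.coe_smul, Pi.smul_apply, smul_eq_mul, mul_comm]

/-- The space of invariants (in coordinates). -/
def VV (e m : ℕ) : Submodule ℚ (ℕ → ℚ) where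
  carrier := {c | (∀ i, i ∉ Icc 1 (m - 1) → c i = 0) ∧
    ∀ s, gf e (1 - s) * QV m c (1 - s) = (-1) ^ e * (gf e s * QV m c s)}
  zero_mem' := ⟨fun _ _ ↦ rfl, fun s ↦ by rw [QV_zero, QV_zero]; ring⟩
  add_mem' := by
    rintro c d ⟨h1, h2⟩ ⟨h3, h4⟩
    refine ⟨fun i hi ↦ by rw [Pi.add_apply, h1 i hi, h3 i hi, add_zero], fun s ↦ ?_⟩
    rw [QV_add, QV_add, mul_add, h2, h4]
    ring
  smul_mem' := by
    rintro a c ⟨h1, h2⟩
    refine ⟨fun i hi ↦ by rw [Pi.smul_apply, h1 i hi, smul_zero], fun s ↦ ?_⟩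
    rw [QV_smul, QV_smul, mul_left_comm, h2]
    ring

theorem VV_inj {e m : ℕ} (he : e ≤ 1) (hm : 1 ≤ m) (c : ℕ → ℚ) (hc : c ∈ VV e m)
    (h : ∀ l : Fin ((m - e) / 3), c ((l : ℕ) + 1) = 0) : c = 0 := by
  obtain ⟨h1, h2⟩ := hc
  have h' : ∀ i, 1 ≤ i → i ≤ (m - e) / 3 → c i = 0 := by
    intro i hi hi2
    have := h ⟨i - 1, by omega⟩
    simp only at this
    rwa [Nat.sub_add_cancel hi] at this
  have key : ∀ i ∈ Icc 1 (m - 1), c i = 0 := by
    rcases Nat.lt_or_ge e 1 with he0 | he1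
    · have : e = 0 := by omega
      subst this
      refine inj_even (t := (m - 0) / 3) (fun s ↦ ?_) h' (by omega)
      simpa [gf] using h2 s
    · have : e = 1 := by omega
      subst this
      refine inj_odd (t := (m - 1) / 3) (fun s ↦ ?_) h' (by omega)
      simpa [gf] using h2 s
  funext i
  by_cases hi : i ∈ Icc 1 (m - 1)
  · exact key i hi
  · exact h1 i hi

end GH.Mat.Rk
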