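import Pool.Agent.GH.Mat.Rk1
import Pool.Agent.GH.Mat.Rk2
import Pool.Agent.GH.Mat.Spec

/-!
# Ghost conjecture (2,1), matrix layer: the rank decomposition at the integers
-/

open Finset

noncomputable section

namespace GH.Mat.Rk

theorem prod_div (E : ℤ) (n : ℕ) :
    (∏ i ∈ range n, ((E : ℚ) - i)) / (n.factorial : ℚ) = ((Ring.choose E n : ℤ) : ℚ) := by
  have h1 := Ring.descPochhammer_eq_factorial_smul_choose E n
  rw [← Polynomial.eval_eq_smeval, descPochhammer_eval_eq_prod_range] at h1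
  have h2 : (∏ i ∈ range n, ((E : ℚ) - i)) =
      (n.factorial : ℚ) * ((Ring.choose E n : ℤ) : ℚ) := by
    have h3 := congrArg (Int.cast : ℤ → ℚ) h1
    rw [nsmul_eq_mul, Int.cast_mul, Int.cast_natCast, Int.cast_prod] at h3
    rw [← h3]
    refine prod_congr rfl fun i _ ↦ ?_
    push_cast
    ring
  rw [h2, mul_div_cancel_left₀]
  exact_mod_cast n.factorial_ne_zero

/-- The coefficients of `(1 + c X) (1 + 16 X)^E`. -/
theorem coeff_aux (c : ℚ) (E : ℤ) (n : ℕ) :
    PowerSeries.coeff n ((1 + PowerSeries.C c * PowerSeries.X) *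
      PowerSeries.rescale (16 : ℚ) (binS (E : ℚ))) =
      16 ^ n * (Ch E n : ℚ) + c / 16 * (16 ^ n * (Ch E ((n : ℤ) - 1) : ℚ)) := by
  have hb : ∀ k, PowerSeries.coeff k (PowerSeries.rescale (16 : ℚ) (binS (E : ℚ))) =
      16 ^ k * (Ch E k : ℚ) := by
    intro k
    rw [PowerSeries.coeff_rescale, binS, PowerSeries.coeff_mk, prod_div, Ch_nat]
  rw [add_mul, one_mul, map_add, hb, mul_assoc, PowerSeries.coeff_C_mul]
  congr 1
  cases n with
  | zero =>
    rw [PowerSeries.coeff_zero_X_mul, Ch_neg (by norm_num)]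
    simp
  | succ n =>
    rw [PowerSeries.coeff_succ_X_mul, hb]
    have : ((n + 1 : ℕ) : ℤ) - 1 = n := by push_cast; ring
    rw [this, pow_succ]
    ring

theorem MM_eq (e m i j : ℕ) :
    Cen.MM e (m : ℚ) i j = 4 ^ (i + j) * ((Ch ((i : ℤ) + j - 1 - m) (2 * (i : ℤ) - j) : ℚ) +
      4 ^ e / 2 * (Ch ((i : ℤ) + j - 1 - m) (2 * (i : ℤ) - j - 1) : ℚ)) := by
  unfold Cen.MM
  split_ifs with h
  · have hE : ((i : ℚ) + j - 1 - m) = (((i : ℤ) + j - 1 - m : ℤ) : ℚ) := by push_cast; ring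
    rw [hE, coeff_aux]
    have hn : ((2 * i - j : ℕ) : ℤ) = 2 * (i : ℤ) - j := by omega
    rw [hn]
    have hpow : (2 : ℚ) ^ (6 * ((j : ℤ) - i)) * 16 ^ (2 * i - j) = 4 ^ (i + j) := by
      have e1 : (16 : ℚ) ^ (2 * i - j) = (2 : ℚ) ^ (4 * (2 * (i : ℤ) - j)) := by
        rw [← hn, zpow_mul, zpow_natCast]; norm_num
      have e2 : (4 : ℚ) ^ (i + j) = (2 : ℚ) ^ (2 * ((i : ℤ) + j)) := by
        rw [zpow_mul]
        have : ((i : ℤ) + j) = ((i + j : ℕ) : ℤ) := by push_cast; ring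
        rw [this, zpow_natCast]; norm_num
      rw [e1, e2, ← zpow_add₀ (by norm_num : (2 : ℚ) ≠ 0)]
      congr 1
      ring
    rw [← hpow]
    ring
  · rw [Ch_neg (by omega), Ch_neg (by omega)]
    simp

theorem MM_even (m i j : ℕ) : Cen.MM 0 (m : ℚ) i j = 4 ^ (i + j) * (1 / 2) * (NI 2 1 i j m : ℚ) := by
  rw [MM_eq, NI]; push_cast; ring

theorem MM_odd (m i j : ℕ) : Cen.MM 1 (m : ℚ) i j = 4 ^ (i + j) * (NI 1 2 i j m : ℚ) := by
  rw [MM_eq, NI]; push_cast; ring

/-- The columns. -/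
def colc (e m j : ℕ) (i : ℕ) : ℚ :=
  if i ∈ Icc 1 (m - 1) then
    (if e = 0 then (NI 2 1 i j m : ℚ) + (if i + j = m then 1 else 0)
      else (NI 1 2 i j m : ℚ) - (if i + j = m then 1 else 0))
  else 0

theorem delta_sum (m j : ℕ) (hj : 1 ≤ j) (hjm : j ≤ m - 1) (s : ℚ) :
    ∑ i ∈ Icc 1 (m - 1), (if i + j = m then (1 : ℚ) else 0) * (s ^ (m - i) * (s - 1) ^ (2 * i)) =
      s ^ j * (s - 1) ^ (2 * (m - j)) := by
  rw [sum_eq_single (m - j)]
  · rw [if_pos (by omega), one_mul]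
    congr 2
    omega
  · intro i hi hne
    rw [if_neg (by rw [mem_Icc] at hi; omega), zero_mul]
  · intro hn
    exact absurd (mem_Icc.2 ⟨by omega, by omega⟩) hn

theorem QV_at_zero (m : ℕ) (c : ℕ → ℚ) : QV m c 0 = 0 := by
  rw [QV]
  refine sum_eq_zero fun i hi ↦ ?_
  rw [mem_Icc] at hi
  rw [zero_pow (by omega)]
  ring

theorem QV_even (m j : ℕ) (hj : 1 ≤ j) (hjm : j ≤ m - 1) (s : ℚ) :
    QV m (colc 0 m j) s = s ^ j * (s - 1) ^ j + s ^ (2 * m - 2 * j) * (1 - s) ^ j +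
      s ^ j * (s - 1) ^ (2 * (m - j)) := by
  rcases eq_or_ne s 0 with rfl | hs
  · rw [QV_at_zero, zero_pow (by omega), zero_pow (by omega)]
    ring
  · have h := col_eval (K := ℚ) (α := 2) (β := 1) (A := 1) (B := 1) (s := s) (m := m) hj hjm hs
      (by norm_num) (by field_simp; push_cast; ring)
    rw [one_mul, one_mul] at h
    rw [← h, ← delta_sum m j hj hjm s, QV, ← sum_add_distrib]
    refine sum_congr rfl fun i hi ↦ ?_
    rw [colc, if_pos hi, if_pos rfl]
    ring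

theorem QV_odd (m j : ℕ) (hj : 1 ≤ j) (hjm : j ≤ m - 1) (s : ℚ) :
    (s + 1) * QV m (colc 1 m j) s = (2 * s - 1) * (s ^ j * (s - 1) ^ j) +
      (2 - s) * (s ^ (2 * m - 2 * j) * (1 - s) ^ j) -
      (s + 1) * (s ^ j * (s - 1) ^ (2 * (m - j))) := by
  rcases eq_or_ne s 0 with rfl | hs
  · rw [QV_at_zero, zero_pow (by omega), zero_pow (by omega)]
    ring
  rcases eq_or_ne s (-1) with rfl | hs1
  · have e1 : ((-1 : ℚ)) ^ (2 * m - 2 * j) = 1 := by
      rw [← Nat.mul_sub, pow_mul]; norm_num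
    have e2 : ((-1 : ℚ)) ^ j * (-1 - 1) ^ j = 2 ^ j := by
      rw [← mul_pow]; norm_num
    rw [e1, e2]
    norm_num
  · have hs2 : s + 1 ≠ 0 := fun h0 ↦ hs1 (by linarith)
    have h := col_eval (K := ℚ) (α := 1) (β := 2) (A := (2 * s - 1) / (s + 1))
      (B := (2 - s) / (s + 1)) (s := s) (m := m) hj hjm hs
      (by field_simp; push_cast; ring) (by field_simp; push_cast; ring)
    have h2 : QV m (colc 1 m j) s = (2 * s - 1) / (s + 1) * (s ^ j * (s - 1) ^ j) +
        (2 - s) / (s + 1) * (s ^ (2 * m - 2 * j) * (1 - s) ^ j) -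
        s ^ j * (s - 1) ^ (2 * (m - j)) := by
      rw [← h, ← delta_sum m j hj hjm s, QV, ← sum_sub_distrib]
      refine sum_congr rfl fun i hi ↦ ?_
      rw [colc, if_pos hi, if_neg (by norm_num)]
      ring
    rw [h2]
    field_simp

theorem colc_mem (e m j : ℕ) (he : e ≤ 1) (hj : 1 ≤ j) (hjm : j ≤ m - 1) :
    colc e m j ∈ VV e m := by
  refine ⟨fun i hi ↦ if_neg hi, fun s ↦ ?_⟩
  have hsplit : 2 * m - 2 * j = 2 * (m - j) := by omega
  have e1 : (1 - (1 - s)) = s := by ring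
  have e2 : (1 - s - 1) ^ j = (-s) ^ j := by congr 1; ring
  have e3 : (1 - s) ^ j * (-s) ^ j = s ^ j * (s - 1) ^ j := by
    rw [← mul_pow, ← mul_pow]; congr 1; ring
  have e4 : (1 - s) ^ (2 * (m - j)) = (s - 1) ^ (2 * (m - j)) := by
    rw [pow_mul, pow_mul]; congr 1; ring
  have e5 : (1 - s - 1) ^ (2 * (m - j)) = s ^ (2 * (m - j)) := by
    rw [pow_mul, pow_mul]; congr 1; ring
  rcases Nat.lt_or_ge e 1 with he0 | he1
  · have : e = 0 := by omega
    subst this
    rw [QV_even m j hj hjm, QV_even m j hj hjm, hsplit, e1, e2, e3, e4, e5]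
    simp only [gf, if_true, pow_zero, one_mul]
    ring
  · have : e = 1 := by omega
    subst this
    have h1 := QV_odd m j hj hjm s
    have h2 := QV_odd m j hj hjm (1 - s)
    rw [hsplit, e1, e2, e3, e4, e5] at h2
    rw [hsplit] at h1
    simp only [gf, if_neg one_ne_zero, pow_one]
    rw [h1, h2]
    ring

end GH.Mat.Rk

namespace GH.Mat

/-- MD0. -/
theorem rankMM : SpRankMM := by
  intro e he m hm
  obtain ⟨x, hx1, hx2⟩ := Rk.factor (t := (m - e) / 3) (Rk.VV e m) (Rk.VV_inj he hm)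
  have hx0 : ∀ i l, m ≤ i → x i l = 0 := by
    intro i l hi
    exact (hx1 l).1 i (by rw [mem_Icc]; omega)
  refine ⟨fun i l ↦ 4 ^ i * x i l,
    fun l j ↦ if j < m then 4 ^ j * (if e = 0 then 1 / 2 else 1) * Rk.colc e m j ((l : ℕ) + 1) else 0,
    fun i j hi hj ↦ ?_⟩
  by_cases h : i < m ∧ j < m
  · obtain ⟨him, hjm⟩ := h
    have hc := hx2 (Rk.colc e m j) (Rk.colc_mem e m j he hj (by omega)) i
    have hmem : i ∈ Icc 1 (m - 1) := mem_Icc.2 ⟨hi, by omega⟩
    have hsum : ∑ l : Fin ((m - e) / 3), 4 ^ i * x i l *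
        (if j < m then 4 ^ j * (if e = 0 then 1 / 2 else 1) * Rk.colc e m j ((l : ℕ) + 1) else 0) =
        4 ^ (i + j) * (if e = 0 then 1 / 2 else 1) * Rk.colc e m j i := by
      rw [hc, mul_sum]
      refine sum_congr rfl fun l _ ↦ ?_
      rw [if_pos hjm, pow_add]
      ring
    rcases Nat.lt_or_ge e 1 with he0 | he1
    · have : e = 0 := by omega
      subst this
      refine ⟨if i + j = m then -1 else 0, ?_⟩
      refine Eq.trans ?_ (congrArg (· + _) hsum.symm)
      rw [Rk.MM_even, Rk.colc, if_pos hmem, if_pos rfl, if_pos rfl]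
      by_cases hij : i + j = m
      · rw [if_pos hij, if_pos hij, hij]
        have : (4 : ℚ) ^ m = 2 * 2 ^ (Cen.sig 0 m) := by
          rw [Cen.sig, ← pow_succ', show (4 : ℚ) = 2 ^ 2 by norm_num, ← pow_mul]
          congr 1; omega
        rw [this]
        push_cast
        ring
      · rw [if_neg hij, if_neg hij]
        push_cast
        ring
    · have : e = 1 := by omega
      subst this
      refine ⟨if i + j = m then 1 else 0, ?_⟩
      refine Eq.trans ?_ (congrArg (· + _) hsum.symm)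
      rw [Rk.MM_odd, Rk.colc, if_pos hmem, if_neg one_ne_zero, if_neg one_ne_zero]
      by_cases hij : i + j = m
      · rw [if_pos hij, if_pos hij, hij]
        have : (4 : ℚ) ^ m = 2 ^ (Cen.sig 1 m) := by
          rw [Cen.sig, show (4 : ℚ) = 2 ^ 2 by norm_num, ← pow_mul]
          congr 1; omega
        rw [this]
        push_cast
        ring
      · rw [if_neg hij, if_neg hij]
        push_cast
        ring
  · have hsum : ∑ l : Fin ((m - e) / 3), 4 ^ i * x i l *
        (if j < m then 4 ^ j * (if e = 0 then 1 / 2 else 1) * Rk.colc e m j ((l : ℕ) + 1) else 0) =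
        0 := by
      refine sum_eq_zero fun l _ ↦ ?_
      rcases Nat.lt_or_ge j m with hj' | hj'
      · rw [hx0 i l (by omega)]; ring
      · rw [if_neg (by omega)]; ring
    have hij : m < i + j := by omega
    rcases Nat.lt_or_ge e 1 with he0 | he1
    · have : e = 0 := by omega
      subst this
      refine ⟨4 ^ (i + j - m) * Rk.NI 2 1 i j m, ?_⟩
      refine Eq.trans ?_ (congrArg (· + _) hsum.symm)
      rw [Rk.MM_even, zero_add]
      have : (4 : ℚ) ^ (i + j) * (1 / 2) = 2 ^ (Cen.sig 0 m) * 4 ^ (i + j - m) := by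
        have e1 : (4 : ℚ) ^ (i + j) = 4 ^ m * 4 ^ (i + j - m) := by
          rw [← pow_add]; congr 1; omega
        have e2 : (4 : ℚ) ^ m = 2 * 2 ^ (Cen.sig 0 m) := by
          rw [Cen.sig, ← pow_succ', show (4 : ℚ) = 2 ^ 2 by norm_num, ← pow_mul]
          congr 1; omega
        rw [e1, e2]; ring
      rw [this]
      push_cast
      ring
    · have : e = 1 := by omega
      subst this
      refine ⟨4 ^ (i + j - m) * Rk.NI 1 2 i j m, ?_⟩
      refine Eq.trans ?_ (congrArg (· + _) hsum.symm)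
      rw [Rk.MM_odd, zero_add]
      have : (4 : ℚ) ^ (i + j) = 2 ^ (Cen.sig 1 m) * 4 ^ (i + j - m) := by
        have e1 : (4 : ℚ) ^ (i + j) = 4 ^ m * 4 ^ (i + j - m) := by
          rw [← pow_add]; congr 1; omega
        have e2 : (4 : ℚ) ^ m = 2 ^ (Cen.sig 1 m) := by
          rw [Cen.sig, show (4 : ℚ) = 2 ^ 2 by norm_num, ← pow_mul]
          congr 1; omega
        rw [e1, e2]
      rw [this]
      push_cast
      ring

end GH.Mat
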