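import Pool.Agent.GH.Mat.Spec

/-!
# GH-MAT MA3: the recurrence and the start values of the products `B`
-/

noncomputable section

namespace GH.Mat

section

variable {K : Type*} [Field K]

theorem ma3_x {y : K} (h : Gen y) (m : ℤ) : 2 * y - (m : K) ≠ 0 := sub_ne_zero.2 (h m)

theorem ma3_y {y : K} (h : Gen y) (m : ℤ) : y - (m : K) ≠ 0 := by
  intro h0
  apply h (2 * m)
  rw [sub_eq_zero] at h0
  rw [h0]
  push_cast
  ring

theorem ma3_pr {y : K} (h : Gen y) (a : ℤ) (n : ℕ) : pr y a n ≠ 0 := by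
  unfold pr
  exact Finset.prod_ne_zero_iff.2 fun t _ ↦ ma3_y h _

theorem ma3_dfac [CharZero K] (k : ℕ) : dfac K k ≠ 0 := by
  unfold dfac
  refine Finset.prod_ne_zero_iff.2 fun t _ ↦ ?_
  have : ((2 * t + 1 : ℕ) : K) ≠ 0 := Nat.cast_ne_zero.2 (by omega)
  push_cast at this
  exact this

theorem ma3_prS (y : K) (a : ℤ) (n : ℕ) : pr y a (n + 1) = pr y a n * (y - ((a : K) + n)) := by
  unfold pr
  rw [Finset.prod_range_succ]
  push_cast
  ring

theorem ma3_prS' (y : K) (a : ℤ) (n : ℕ) : pr y a (n + 1) = (y - (a : K)) * pr y (a + 1) n := by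
  unfold pr
  rw [Finset.prod_range_succ']
  push_cast
  rw [add_zero, mul_comm]
  congr 1
  refine Finset.prod_congr rfl fun t _ ↦ ?_
  ring

/-- `∏_{t < n} (x - (a + t))`. -/
def ma3_Q (x : K) (a : K) (n : ℕ) : K := ∏ t ∈ Finset.range n, (x - (a + t))

theorem ma3_QS (x a : K) (n : ℕ) : ma3_Q x a (n + 1) = ma3_Q x a n * (x - (a + n)) := by
  unfold ma3_Q
  rw [Finset.prod_range_succ]

theorem ma3_QS' (x a : K) (n : ℕ) : ma3_Q x a (n + 1) = (x - a) * ma3_Q x (a + 1) n := by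
  unfold ma3_Q
  rw [Finset.prod_range_succ']
  push_cast
  rw [add_zero, mul_comm]
  congr 1
  refine Finset.prod_congr rfl fun t _ ↦ ?_
  ring

/-- `∏_{t < n} (x - (a + 2t))`. -/
def ma3_C (x : K) (a : K) (n : ℕ) : K := ∏ t ∈ Finset.range n, (x - (a + 2 * t))

theorem ma3_CS (x a : K) (n : ℕ) : ma3_C x a (n + 1) = ma3_C x a n * (x - (a + 2 * n)) := by
  unfold ma3_C
  rw [Finset.prod_range_succ]

theorem ma3_CS' (x a : K) (n : ℕ) : ma3_C x a (n + 1) = (x - a) * ma3_C x (a + 2) n := by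
  unfold ma3_C
  rw [Finset.prod_range_succ']
  push_cast
  rw [mul_zero, add_zero, mul_comm]
  congr 1
  refine Finset.prod_congr rfl fun t _ ↦ ?_
  ring

theorem ma3_Qne {y : K} (h : Gen y) (a : ℤ) (n : ℕ) : ma3_Q (2 * y) (a : K) n ≠ 0 := by
  unfold ma3_Q
  refine Finset.prod_ne_zero_iff.2 fun t _ ↦ ?_
  have := ma3_x h (a + t)
  push_cast at this
  exact this

theorem ma3_Cne {y : K} (h : Gen y) (a : ℤ) (n : ℕ) : ma3_C (2 * y) (a : K) n ≠ 0 := by
  unfold ma3_C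
  refine Finset.prod_ne_zero_iff.2 fun t _ ↦ ?_
  have := ma3_x h (a + 2 * t)
  push_cast at this
  exact this

/-- The product over an interval is the product over the two parities. -/
theorem ma3_split (y : K) (a : ℤ) (n : ℕ) : ma3_Q (2 * y) (2 * a + 1) (2 * n) =
    ma3_C (2 * y) (2 * a + 1) n * (2 ^ n * pr y (a + 1) n) := by
  induction n with
  | zero => simp [ma3_Q, ma3_C, pr]
  | succ n ih =>
    rw [show 2 * (n + 1) = 2 * n + 1 + 1 by ring, ma3_QS, ma3_QS, ih, ma3_CS, ma3_prS]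
    push_cast
    ring

theorem ma3_dd (y : K) (i : ℕ) : dd y (i + 1) =
    (-1 / 2) ^ (i + 1) * ma3_Q (2 * y) (2 * (i + 1) + 1) (i + 1) * pr y (2 * (i + 1) + 1) i /
      (dfac K (i + 1) * pr y (i + 2) i) := by
  unfold dd ma3_Q
  simp only [Nat.add_sub_cancel]
  push_cast
  rw [show (i : ℤ) + 1 + 1 = i + 2 by ring]

theorem ma3_uu (y : K) (i d r : ℕ) (h : i = d + r) : uu y i (i + d) =
    (-1) ^ d * ((i + d).factorial : K) / ((r.factorial : K) * (d.factorial : K) * 2 ^ d) *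
      (2 * y - 3 * (i + d)) * ma3_Q (2 * y) (3 * i) d /
      ((2 * y - 3 * i) * ma3_C (2 * y) (2 * i + 1) d * pr y (2 * i + 1) d) := by
  unfold uu ma3_Q ma3_C
  rw [if_neg (by omega), if_neg (by omega), show i + d - i = d by omega,
    show 2 * i - (i + d) = r by omega]
  push_cast
  rfl

theorem ma3_dfacS (k : ℕ) : dfac K (k + 1) = dfac K k * (2 * (k : K) + 1) := by
  unfold dfac
  rw [Finset.prod_range_succ]

theorem ma3_fac [CharZero K] (k : ℕ) : ((2 * k).factorial : K) =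
    dfac K k * (2 ^ k * (k.factorial : K)) := by
  induction k with
  | zero => simp [dfac]
  | succ k ih =>
    rw [show 2 * (k + 1) = 2 * k + 1 + 1 by ring, Nat.factorial_succ, Nat.factorial_succ,
      Nat.factorial_succ, ma3_dfacS]
    push_cast
    rw [ih]
    ring

theorem ma3_Qsh2 (x a : K) (m : ℕ) :
    ma3_Q x a (m + 2) = (x - a) * (x - (a + 1)) * ma3_Q x (a + 2) m := by
  rw [show m + 2 = m + 1 + 1 by ring, ma3_QS', ma3_QS' x (a + 1) m,
    show a + 1 + 1 = a + 2 by ring]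
  ring

theorem ma3_Qsh3 (x a : K) (m : ℕ) :
    ma3_Q x a (m + 3) = (x - a) * (x - (a + 1)) * (x - (a + 2)) * ma3_Q x (a + 3) m := by
  rw [show m + 3 = m + 1 + 2 by ring, ma3_Qsh2, ma3_QS' x (a + 2) m,
    show a + 2 + 1 = a + 3 by ring]
  ring

theorem ma3_Qup2 (x a : K) (m : ℕ) :
    ma3_Q x a (m + 2) = ma3_Q x a m * (x - (a + m)) * (x - (a + m + 1)) := by
  rw [show m + 2 = m + 1 + 1 by ring, ma3_QS x a (m + 1), ma3_QS x a m]
  push_cast
  ring

theorem ma3_Qup3 (x a : K) (m : ℕ) :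
    ma3_Q x a (m + 3) = ma3_Q x a m * (x - (a + m)) * (x - (a + m + 1)) * (x - (a + m + 2)) := by
  rw [show m + 3 = m + 2 + 1 by ring, ma3_QS x a (m + 2), ma3_Qup2]
  push_cast
  ring

theorem ma3_prsh2 (y : K) (a : ℤ) (m : ℕ) :
    pr y a (m + 2) = (y - a) * (y - (a + 1)) * pr y (a + 2) m := by
  rw [show m + 2 = m + 1 + 1 by ring, ma3_prS', ma3_prS' y (a + 1) m,
    show a + 1 + 1 = a + 2 by ring]
  push_cast
  ring

theorem ma3_prup2 (y : K) (a : ℤ) (m : ℕ) :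
    pr y a (m + 2) = pr y a m * (y - (a + m)) * (y - (a + m + 1)) := by
  rw [show m + 2 = m + 1 + 1 by ring, ma3_prS y a (m + 1), ma3_prS y a m]
  push_cast
  ring

theorem ma3_prup3 (y : K) (a : ℤ) (m : ℕ) :
    pr y a (m + 3) = pr y a m * (y - (a + m)) * (y - (a + m + 1)) * (y - (a + m + 2)) := by
  rw [show m + 3 = m + 2 + 1 by ring, ma3_prS y a (m + 2), ma3_prup2]
  push_cast
  ring

theorem ma3_step [CharZero K] {y : K} (h : Gen y) (k n q : ℕ) (hk : k = n + q) :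
    BB y (k + 1 + 1) (k + 1 + 1 + n) = rho y (k + 1) (k + 1 + (n + 1)) *
      BB y (k + 1) (k + 1 + (n + 1)) := by
  unfold BB
  rw [ma3_uu y (k + 1 + 1) n (q + 2) (by omega), ma3_uu y (k + 1) (n + 1) q (by omega),
    ma3_dd y (k + 1), ma3_dd y k]
  have hQ : ma3_Q (2 * y) (2 * ((k : K) + 1 + 1) + 1) (k + 1 + 1) =
      ma3_Q (2 * y) (2 * ((k : K) + 1) + 1) (k + 1) * ((2 * y - (3 * k + 4)) *
        (2 * y - (3 * k + 5)) * (2 * y - (3 * k + 6))) /
        ((2 * y - (2 * k + 3)) * (2 * y - (2 * k + 4))) := by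
    have e1 := ma3_x h (2 * k + 3)
    have e2 := ma3_x h (2 * k + 4)
    push_cast at e1 e2
    rw [eq_div_iff (mul_ne_zero e1 e2)]
    have a1 := ma3_Qup3 (2 * y) (2 * ((k : K) + 1) + 1) (k + 1)
    have a2 := ma3_Qsh2 (2 * y) (2 * ((k : K) + 1) + 1) (k + 1 + 1)
    rw [show 2 * ((k : K) + 1) + 1 + 2 = 2 * ((k : K) + 1 + 1) + 1 by ring] at a2
    push_cast at a1 a2
    linear_combination a1 - a2
  have hR : pr y (2 * ((k : ℤ) + 1 + 1) + 1) (k + 1) =
      pr y (2 * ((k : ℤ) + 1) + 1) k * ((y - (3 * k + 3)) * (y - (3 * k + 4)) *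
        (y - (3 * k + 5))) / ((y - (2 * k + 3)) * (y - (2 * k + 4))) := by
    have e1 := ma3_y h (2 * k + 3)
    have e2 := ma3_y h (2 * k + 4)
    push_cast at e1 e2
    rw [eq_div_iff (mul_ne_zero e1 e2)]
    have a1 := ma3_prup3 y (2 * ((k : ℤ) + 1) + 1) k
    have a2 := ma3_prsh2 y (2 * ((k : ℤ) + 1) + 1) (k + 1)
    rw [show 2 * ((k : ℤ) + 1) + 1 + 2 = 2 * ((k : ℤ) + 1 + 1) + 1 by ring] at a2
    push_cast at a1 a2
    linear_combination a1 - a2
  have hS : pr y ((k : ℤ) + 1 + 2) (k + 1) =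
      pr y ((k : ℤ) + 2) k * ((y - (2 * k + 2)) * (y - (2 * k + 3))) / (y - (k + 2)) := by
    have e1 := ma3_y h (k + 2)
    push_cast at e1
    rw [eq_div_iff e1]
    have a1 := ma3_prup2 y ((k : ℤ) + 2) k
    have a2 := ma3_prS' y ((k : ℤ) + 2) (k + 1)
    rw [show (k : ℤ) + 2 + 1 = (k : ℤ) + 1 + 2 by ring] at a2
    push_cast at a1 a2
    linear_combination a1 - a2
  have hA : ma3_Q (2 * y) (3 * ((k : K) + 1 + 1)) n =
      ma3_Q (2 * y) (3 * ((k : K) + 1)) (n + 1) * ((2 * y - (3 * k + 4 + n)) *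
        (2 * y - (3 * k + 5 + n))) /
        ((2 * y - (3 * k + 3)) * (2 * y - (3 * k + 4)) * (2 * y - (3 * k + 5))) := by
    have e1 := ma3_x h (3 * k + 3)
    have e2 := ma3_x h (3 * k + 4)
    have e3 := ma3_x h (3 * k + 5)
    push_cast at e1 e2 e3
    rw [eq_div_iff (mul_ne_zero (mul_ne_zero e1 e2) e3)]
    have a1 := ma3_Qup2 (2 * y) (3 * ((k : K) + 1)) (n + 1)
    have a2 := ma3_Qsh3 (2 * y) (3 * ((k : K) + 1)) n
    rw [show 3 * ((k : K) + 1) + 3 = 3 * ((k : K) + 1 + 1) by ring] at a2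
    push_cast at a1 a2
    linear_combination a1 - a2
  have hC : ma3_C (2 * y) (2 * ((k : K) + 1) + 1) (n + 1) =
      (2 * y - (2 * k + 3)) * ma3_C (2 * y) (2 * ((k : K) + 1 + 1) + 1) n := by
    rw [ma3_CS', show 2 * ((k : K) + 1) + 1 + 2 = 2 * ((k : K) + 1 + 1) + 1 by ring]
    ring
  have hT : pr y (2 * ((k : ℤ) + 1 + 1) + 1) n =
      pr y (2 * ((k : ℤ) + 1) + 1) (n + 1) * (y - (2 * k + 4 + n)) /
        ((y - (2 * k + 3)) * (y - (2 * k + 4))) := by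
    have e1 := ma3_y h (2 * k + 3)
    have e2 := ma3_y h (2 * k + 4)
    push_cast at e1 e2
    rw [eq_div_iff (mul_ne_zero e1 e2)]
    have a1 := ma3_prS y (2 * ((k : ℤ) + 1) + 1) (n + 1)
    have a2 := ma3_prsh2 y (2 * ((k : ℤ) + 1) + 1) n
    rw [show 2 * ((k : ℤ) + 1) + 1 + 2 = 2 * ((k : ℤ) + 1 + 1) + 1 by ring] at a2
    push_cast at a1 a2
    linear_combination a1 - a2
  have n1 := ma3_pr h (2 * ((k : ℤ) + 1) + 1) (n + 1)
  have n2 := ma3_pr h ((k : ℤ) + 2) k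
  have n3 := ma3_Cne h (2 * ((k : ℤ) + 1 + 1) + 1) n
  have n4 := ma3_dfac (K := K) (k + 1)
  have x1 := ma3_x h (2 * k + 3)
  have x2 := ma3_x h (2 * k + 4)
  have x3 := ma3_x h (3 * k + 3)
  have x4 := ma3_x h (3 * k + 4)
  have x5 := ma3_x h (3 * k + 5)
  have x6 := ma3_x h (3 * k + 6)
  have y1 := ma3_y h (2 * k + 2)
  have y2 := ma3_y h (2 * k + 3)
  have y3 := ma3_y h (2 * k + 4)
  have y4 := ma3_y h (k + 2)
  have y5 := ma3_y h (2 * k + 4 + n)
  have c1 : ((n + 1 : ℕ) : K) ≠ 0 := Nat.cast_ne_zero.2 (by omega)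
  have c2 : ((q + 1 : ℕ) : K) ≠ 0 := Nat.cast_ne_zero.2 (by omega)
  have c3 : ((q + 2 : ℕ) : K) ≠ 0 := Nat.cast_ne_zero.2 (by omega)
  have c4 : ((2 * k + 3 : ℕ) : K) ≠ 0 := Nat.cast_ne_zero.2 (by omega)
  have f1 : (n.factorial : K) ≠ 0 := Nat.cast_ne_zero.2 n.factorial_ne_zero
  have f2 : (q.factorial : K) ≠ 0 := Nat.cast_ne_zero.2 q.factorial_ne_zero
  rw [show k + 1 + 1 + n = k + 1 + (n + 1) by ring]
  rw [show (q + 2).factorial = (q + 2) * ((q + 1) * q.factorial) from rfl, Nat.factorial_succ n,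
    ma3_dfacS (k + 1)]
  unfold rho
  generalize ((k + 1 + (n + 1)).factorial : K) = F at *
  push_cast at *
  rw [hQ, hR, hS, hA, hC, hT]
  have hk' : (k : K) = n + q := by rw [hk]; push_cast; ring
  generalize ma3_Q (2 * y) (2 * ((k : K) + 1) + 1) (k + 1) = Q1 at *
  generalize pr y (2 * ((k : ℤ) + 1) + 1) k = R1 at *
  generalize pr y ((k : ℤ) + 2) k = S1 at *
  generalize ma3_Q (2 * y) (3 * ((k : K) + 1)) (n + 1) = A1 at *
  generalize ma3_C (2 * y) (2 * ((k : K) + 1 + 1) + 1) n = C1 at *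
  generalize pr y (2 * ((k : ℤ) + 1) + 1) (n + 1) = T1 at *
  generalize dfac K (k + 1) = D1 at *
  generalize (n.factorial : K) = F1 at *
  generalize (q.factorial : K) = F2 at *
  clear hQ hR hS hA hC hT
  have r1 : 2 * y - 3 * ((k : K) + 1 + 1) = 2 * y - (3 * k + 6) := by ring
  have r2 : (k : K) + 1 + (n + 1) - (k + 1) = n + 1 := by ring
  have r3 : 2 * y - 2 * ((k : K) + 1) - (k + 1 + (n + 1)) - 1 = 2 * y - (3 * k + 5 + n) := by ring
  have r4 : 2 * y - 2 * ((k : K) + 1) - (k + 1 + (n + 1)) = 2 * y - (3 * k + 4 + n) := by ring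
  have r5 : y - 3 * ((k : K) + 1) - 2 = y - (3 * k + 5) := by ring
  have r6 : y - 3 * ((k : K) + 1) - 1 = y - (3 * k + 4) := by ring
  have r7 : y - 3 * ((k : K) + 1) = y - (3 * k + 3) := by ring
  have r8 : 2 * ((k : K) + 1) + 2 - (k + 1 + (n + 1)) = q + 2 := by rw [hk']; ring
  have r9 : 2 * ((k : K) + 1) + 1 - (k + 1 + (n + 1)) = q + 1 := by rw [hk']; ring
  have r10 : y - 2 * ((k : K) + 1) - 1 = y - (2 * k + 3) := by ring
  have r11 : y - 2 * ((k : K) + 1) = y - (2 * k + 2) := by ring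
  have r12 : y - ((k : K) + 1) - (k + 1 + (n + 1)) - 1 = y - (2 * k + 4 + n) := by ring
  have r13 : 2 * y - 3 * ((k : K) + 1) = 2 * y - (3 * k + 3) := by ring
  have r14 : 2 * y - 3 * ((k : K) + 1 + (n + 1)) = 2 * y - 3 * (k + 1 + 1 + n) := by ring
  have r15 : 2 * ((k : K) + 1) + 1 = 2 * k + 3 := by ring
  rw [r1, r2, r3, r4, r5, r6, r7, r8, r9, r10, r11, r12, r13, r14, r15]
  clear r1 r2 r3 r4 r5 r6 r7 r8 r9 r10 r11 r12 r13 r14 r15
  rw [show 2 * y - (2 * (k : K) + 4) = 2 * (y - ((k : K) + 2)) by ring]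
  generalize 2 * y - (2 * (k : K) + 3) = X1 at *
  generalize 2 * y - (3 * (k : K) + 3) = X3 at *
  generalize 2 * y - (3 * (k : K) + 4) = X4 at *
  generalize 2 * y - (3 * (k : K) + 5) = X5 at *
  generalize 2 * y - (3 * (k : K) + 6) = X6 at *
  generalize 2 * y - (3 * (k : K) + 4 + n) = X7 at *
  generalize 2 * y - (3 * (k : K) + 5 + n) = X8 at *
  generalize 2 * y - 3 * ((k : K) + 1 + 1 + n) = X9 at *
  generalize y - (2 * (k : K) + 4 + n) = Y5 at *
  generalize y - (3 * (k : K) + 3) = Y6 at *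
  generalize y - (3 * (k : K) + 4) = Y7 at *
  generalize y - (3 * (k : K) + 5) = Y8 at *
  generalize y - (2 * (k : K) + 2) = Y1 at *
  generalize y - (2 * (k : K) + 3) = Y2 at *
  generalize y - (2 * (k : K) + 4) = Y3 at *
  generalize y - ((k : K) + 2) = Y4 at *
  generalize 2 * (k : K) + 3 = z1 at *
  generalize (n : K) + 1 = z2 at *
  generalize (q : K) + 1 = z3 at *
  generalize (q : K) + 2 = z4 at *
  rw [pow_succ (-1 / 2 : K) (k + 1), pow_succ (-1 : K) n, pow_succ (2 : K) n]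
  generalize (-1 / 2 : K) ^ (k + 1) = W
  field_simp

theorem ma3_rec [CharZero K] {y : K} (h : Gen y) (i j : ℕ) (hi : 1 ≤ i) (hj2 : j ≤ 2 * i) :
    BB y (i + 1) j = rho y i j * BB y i j := by
  rcases lt_trichotomy j i with hj | hj | hj
  · unfold BB uu
    rw [if_pos (by omega), if_pos hj]
    simp
  · subst hj
    have e1 : BB y (j + 1) j = 0 := by
      unfold BB uu
      rw [if_pos (by omega)]
      simp
    have e2 : rho y j j = 0 := by
      unfold rho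
      simp
    rw [e1, e2, zero_mul]
  · obtain ⟨k, rfl⟩ : ∃ k, i = k + 1 := ⟨i - 1, by omega⟩
    obtain ⟨n, rfl⟩ : ∃ n, j = k + 1 + (n + 1) := ⟨j - (k + 2), by omega⟩
    have := ma3_step h k n (k - n) (by omega)
    rwa [show k + 1 + 1 + n = k + 1 + (n + 1) by ring] at this

theorem ma3_Qadd (x a : K) (m n : ℕ) :
    ma3_Q x a (m + n) = ma3_Q x a m * ma3_Q x (a + m) n := by
  induction n with
  | zero => simp [ma3_Q]
  | succ n ih =>
    rw [← add_assoc, ma3_QS, ih, ma3_QS]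
    push_cast
    ring

theorem ma3_fac1 [CharZero K] (i : ℕ) : ((i + 1 + i).factorial : K) =
    dfac K (i + 1) * (2 ^ i * (i.factorial : K)) := by
  have h1 := ma3_fac (K := K) (i + 1)
  rw [show 2 * (i + 1) = i + 1 + i + 1 by ring, Nat.factorial_succ, Nat.factorial_succ i] at h1
  have h2 : ((i + 1 : ℕ) : K) ≠ 0 := Nat.cast_ne_zero.2 (by omega)
  push_cast at h1 h2
  refine mul_left_cancel₀ (mul_ne_zero (two_ne_zero (α := K)) h2) ?_
  linear_combination h1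

theorem ma3_fac2 [CharZero K] (i : ℕ) : ((i + 1 + (i + 1)).factorial : K) =
    dfac K (i + 1) * (2 ^ (i + 1) * ((i + 1).factorial : K)) := by
  rw [show i + 1 + (i + 1) = 2 * (i + 1) by ring, ma3_fac]

theorem ma3_sgn [CharZero K] (i : ℕ) : (-1 / 2 : K) ^ i * (-1) ^ i * 2 ^ i = 1 := by
  rw [← mul_pow, ← mul_pow]
  norm_num

theorem ma3_start1 [CharZero K] {y : K} (h : Gen y) (i : ℕ) :
    BB y (i + 1) (2 * i + 1) = NN y (i + 1) (2 * i + 1) := by
  have hN : NN y (i + 1) (2 * i + 1) = (3 * (2 * i + 1) - 2 * y) / 2 := by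
    unfold NN
    rw [if_neg (by omega), if_neg (by omega), show 2 * (i + 1) - (2 * i + 1) = 1 by omega]
    simp
  rw [hN]
  unfold BB
  rw [show 2 * i + 1 = i + 1 + i by ring, ma3_uu y (i + 1) i 1 (by ring), ma3_dd, ma3_fac1]
  have e1 := ma3_split y ((i : ℤ) + 1) i
  have e2 := ma3_Qadd (2 * y) (2 * ((i : K) + 1) + 1) i i
  have e3 := ma3_QS (2 * y) (2 * ((i : K) + 1) + 1) i
  rw [show 2 * ((i : K) + 1) + 1 + i = 3 * (i + 1) by ring] at e2 e3
  rw [show (i : ℤ) + 1 + 1 = i + 2 by ring] at e1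
  have n1 := ma3_pr h (2 * ((i : ℤ) + 1) + 1) i
  have n2 := ma3_pr h ((i : ℤ) + 2) i
  have n3 := ma3_Cne h (2 * ((i : ℤ) + 1) + 1) i
  have n4 := ma3_dfac (K := K) (i + 1)
  have x1 := ma3_x h (3 * ((i : ℤ) + 1))
  have f1 : (i.factorial : K) ≠ 0 := Nat.cast_ne_zero.2 i.factorial_ne_zero
  have hs := ma3_sgn (K := K) i
  rw [pow_succ]
  push_cast at *
  rw [← two_mul, e1] at e2
  rw [e3, show 2 * y - 3 * ((i : K) + 1 + i) = 2 * y - 3 * (2 * i + 1) by ring]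
  generalize ma3_Q (2 * y) (2 * ((i : K) + 1) + 1) i = Q1 at *
  generalize ma3_Q (2 * y) (3 * ((i : K) + 1)) i = Q2 at *
  generalize ma3_C (2 * y) (2 * ((i : K) + 1) + 1) i = C1 at *
  generalize pr y (2 * ((i : ℤ) + 1) + 1) i = R1 at *
  generalize pr y ((i : ℤ) + 2) i = S1 at *
  generalize dfac K (i + 1) = D1 at *
  generalize (i.factorial : K) = F1 at *
  generalize 2 * y - 3 * ((i : K) + 1) = X1 at *
  have t0 : (2 : K) ^ i ≠ 0 := pow_ne_zero _ two_ne_zero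
  generalize (2 : K) ^ i = t at *
  generalize (-1 / 2 : K) ^ i = w at *
  generalize (-1 : K) ^ i = s at *
  have hq : Q1 * Q2 = C1 * (t * S1) := e2.symm
  have key : w * (-1 / 2) * (Q1 * X1) * R1 / (D1 * S1) *
      (s * (D1 * (t * F1)) / (1 * F1 * t) * (2 * y - 3 * (2 * i + 1)) * Q2 / (X1 * C1 * R1)) =
      w * s * (Q1 * Q2) * (3 * (2 * i + 1) - 2 * y) / (2 * (S1 * C1)) := by
    field_simp
    ring
  rw [Nat.factorial_one, Nat.cast_one, key, hq]
  rw [show w * s * (C1 * (t * S1)) * (3 * (2 * (i : K) + 1) - 2 * y) =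
    (w * s * t) * (C1 * S1) * (3 * (2 * (i : K) + 1) - 2 * y) by ring, hs]
  field_simp

theorem ma3_start2 [CharZero K] {y : K} (h : Gen y) (i : ℕ) :
    BB y (i + 1) (2 * i + 2) = NN y (i + 1) (2 * i + 2) := by
  have hN : NN y (i + 1) (2 * i + 2) = 1 := by
    unfold NN
    rw [if_neg (by omega), if_pos (by omega)]
  rw [hN]
  unfold BB
  rw [show 2 * i + 2 = i + 1 + (i + 1) by ring, ma3_uu y (i + 1) (i + 1) 0 (by ring), ma3_dd,
    ma3_fac2]
  have e1 := ma3_split y ((i : ℤ) + 1) i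
  have e2 := ma3_Qadd (2 * y) (2 * ((i : K) + 1) + 1) i (i + 1)
  have e3 := ma3_QS (2 * y) (2 * ((i : K) + 1) + 1) i
  have e4 := ma3_QS (2 * y) (2 * ((i : K) + 1) + 1) (2 * i)
  have e5 := ma3_CS (2 * y) (2 * ((i : K) + 1) + 1) i
  have e6 := ma3_prS y (2 * ((i : ℤ) + 1) + 1) i
  rw [show 2 * ((i : K) + 1) + 1 + i = 3 * (i + 1) by ring] at e2 e3
  rw [show (i : ℤ) + 1 + 1 = i + 2 by ring] at e1
  have n1 := ma3_pr h (2 * ((i : ℤ) + 1) + 1) i
  have n2 := ma3_pr h ((i : ℤ) + 2) i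
  have n3 := ma3_Cne h (2 * ((i : ℤ) + 1) + 1) i
  have n4 := ma3_dfac (K := K) (i + 1)
  have x1 := ma3_x h (3 * ((i : ℤ) + 1))
  have x2 := ma3_x h (4 * (i : ℤ) + 3)
  have y1 := ma3_y h (3 * ((i : ℤ) + 1))
  have f1 : ((i + 1).factorial : K) ≠ 0 := Nat.cast_ne_zero.2 (i + 1).factorial_ne_zero
  have hs := ma3_sgn (K := K) (i + 1)
  push_cast at *
  rw [show i + (i + 1) = 2 * i + 1 by ring, e4, e1,
    show 2 * ((i : K) + 1) + 1 + 2 * i = 4 * i + 3 by ring] at e2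
  rw [show 2 * ((i : K) + 1) + 1 + 2 * i = 4 * i + 3 by ring] at e5
  rw [show 2 * ((i : K) + 1) + 1 + i = 3 * (i + 1) by ring] at e6
  rw [e3, e5, e6, show 2 * y - 3 * ((i : K) + 1 + (i + 1)) = 2 * (y - 3 * (i + 1)) by ring]
  generalize ma3_Q (2 * y) (2 * ((i : K) + 1) + 1) i = Q1 at *
  generalize ma3_Q (2 * y) (3 * ((i : K) + 1)) (i + 1) = Q2 at *
  generalize ma3_C (2 * y) (2 * ((i : K) + 1) + 1) i = C1 at *
  generalize pr y (2 * ((i : ℤ) + 1) + 1) i = R1 at *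
  generalize pr y ((i : ℤ) + 2) i = S1 at *
  generalize dfac K (i + 1) = D1 at *
  generalize ((i + 1).factorial : K) = F1 at *
  generalize 2 * y - 3 * ((i : K) + 1) = X1 at *
  generalize 2 * y - (4 * (i : K) + 3) = X2 at *
  generalize y - 3 * ((i : K) + 1) = Y1 at *
  have t0 : (2 : K) ^ i ≠ 0 := pow_ne_zero _ two_ne_zero
  rw [pow_succ 2 i] at *
  generalize (2 : K) ^ i = t at *
  generalize (-1 / 2 : K) ^ (i + 1) = w at *
  generalize (-1 : K) ^ (i + 1) = s at *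
  have hq : Q1 * Q2 = C1 * (t * S1) * X2 := e2.symm
  have key : w * (Q1 * X1) * R1 / (D1 * S1) *
      (s * (D1 * (t * 2 * F1)) / (1 * F1 * (t * 2)) * (2 * Y1) * Q2 /
        (X1 * (C1 * X2) * (R1 * Y1))) =
      w * s * (Q1 * Q2) * 2 / (S1 * C1 * X2) := by
    field_simp
  rw [Nat.factorial_zero, Nat.cast_one, key, hq]
  rw [show w * s * (C1 * (t * S1) * X2) * 2 = (w * s * (t * 2)) * (S1 * C1 * X2) by ring, hs]
  field_simp

end

/-- The recurrence and the start values of `B`. -/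
theorem recB : SpRec := by
  intro K _ _ y hy
  refine ⟨fun i _ ↦ ?_, fun i j hi _ hj ↦ ma3_rec hy i j hi hj, fun i ↦ ma3_start1 hy i,
    fun i ↦ ma3_start2 hy i⟩
  unfold AA
  rw [if_neg (lt_irrefl i), Nat.sub_self]
  have e1 := ma3_y hy (3 * i)
  push_cast at e1
  have e2 := ma3_dfac (K := K) i
  simp only [pr, pow_zero, Nat.mul_zero, Finset.range_zero, Finset.prod_empty, mul_one, one_mul,
    Nat.factorial_zero, Nat.cast_one]
  exact div_self (mul_ne_zero e1 e2)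

end GH.Mat
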