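import Pool.Agent.GH.Mat.Spec
import Pool.Agent.GH.GaussN

/-!
# GH-MAT MC2: root dominance

The valuations of the entries of `A`, `B` at a generic point of the closed unit ball of `ℂ_2`.
-/

open Polynomial

noncomputable section

namespace GH.Mat

/-! ### Norms in `ℂ_2` -/

theorem mc2_two : ‖(2 : C2)‖ = 1 / 2 := by
  have h := gn_norm_iota (2 : ℤ_[2])
  have h2 : iota (2 : ℤ_[2]) = 2 := map_ofNat iota 2
  rw [h2] at h
  rw [h]
  have := PadicInt.norm_p (p := 2)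
  rw [show ((2 : ℕ) : ℤ_[2]) = 2 by norm_num] at this
  rw [this]
  norm_num

theorem mc2_int (m : ℤ) : ‖(m : C2)‖ ≤ 1 := IsUltrametricDist.norm_intCast_le_one C2 m

theorem mc2_even {m : ℤ} (h : Even m) : ‖(m : C2)‖ ≤ 1 / 2 := by
  obtain ⟨k, rfl⟩ := h
  have : ((k + k : ℤ) : C2) = 2 * (k : C2) := by push_cast; ring
  rw [this, norm_mul, mc2_two]
  nlinarith [mc2_int k, norm_nonneg (k : C2)]

theorem mc2_odd {m : ℤ} (h : Odd m) : ‖(m : C2)‖ = 1 := by
  obtain ⟨k, rfl⟩ := h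
  have h1 : ‖((2 * k : ℤ) : C2)‖ < ‖(1 : C2)‖ := by
    rw [norm_one]
    have := mc2_even (m := 2 * k) ⟨k, by ring⟩
    linarith
  have := norm_add_of_lt h1
  rw [norm_one] at this
  rw [← this]
  congr 1
  push_cast
  ring

/-- A generic point. -/
def mc2_G (y : C2) : Prop := ∀ m : ℤ, ‖y - m‖ = 1

theorem mc2_gen {y : C2} (h : ‖y‖ = 1) (h1 : ‖y - 1‖ = 1) : mc2_G y := by
  intro m
  rcases Int.even_or_odd m with hm | hm
  · have := norm_sub_of_lt (x := y) (t := (m : C2)) (by rw [h]; linarith [mc2_even hm])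
    rw [this, h]
  · have he : Even (m - 1) := by
      obtain ⟨k, rfl⟩ := hm
      exact ⟨k, by ring⟩
    have := norm_sub_of_lt (x := y - 1) (t := ((m - 1 : ℤ) : C2))
      (by rw [h1]; linarith [mc2_even he])
    rw [← h1, ← this]
    congr 1
    push_cast
    ring

section

variable {y : C2} (hy : mc2_G y)

include hy

theorem mc2_y : ‖y‖ = 1 := by simpa using hy 0

theorem mc2_2odd {s : ℤ} (h : Odd s) : ‖2 * y - s‖ = 1 := by
  have h1 : ‖2 * y‖ < ‖(s : C2)‖ := by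
    rw [norm_mul, mc2_two, mc2_y hy, mc2_odd h]
    norm_num
  have := norm_sub_of_lt h1
  rw [← norm_neg, neg_sub, this, mc2_odd h]

theorem mc2_2even {s : ℤ} (h : Even s) : ‖2 * y - s‖ = 1 / 2 := by
  obtain ⟨k, rfl⟩ := h
  have : 2 * y - ((k + k : ℤ) : C2) = 2 * (y - k) := by push_cast; ring
  rw [this, norm_mul, mc2_two, hy k, mul_one]

theorem mc2_2le (s : ℤ) : ‖2 * y - s‖ ≤ 1 := by
  rcases Int.even_or_odd s with h | h
  · rw [mc2_2even hy h]; norm_num
  · rw [mc2_2odd hy h]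

theorem mc2_2ne (s : ℤ) : 2 * y - (s : C2) ≠ 0 := by
  intro h0
  rcases Int.even_or_odd s with h | h
  · have := mc2_2even hy h
    rw [h0, norm_zero] at this
    norm_num at this
  · have := mc2_2odd hy h
    rw [h0, norm_zero] at this
    norm_num at this

theorem mc2_Gen : Gen y := fun m h ↦ mc2_2ne hy m (by rw [h, sub_self])

theorem mc2_pr (a : ℤ) (n : ℕ) : ‖pr y a n‖ = 1 := by
  rw [pr, norm_prod]
  exact Finset.prod_eq_one fun t _ ↦ hy _

end

theorem mc2_dfac (k : ℕ) : ‖dfac C2 k‖ = 1 := by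
  rw [dfac, norm_prod]
  refine Finset.prod_eq_one fun t _ ↦ ?_
  have := mc2_odd (m := 2 * (t : ℤ) + 1) ⟨t, rfl⟩
  push_cast at this
  exact this

theorem mc2_fact {r : ℕ} (hr : 1 ≤ r) : (1 / 2 : ℝ) ^ (r - 1) ≤ ‖(r.factorial : C2)‖ := by
  obtain ⟨e, m, hm, he⟩ :=
    Nat.exists_eq_pow_mul_and_not_dvd (Nat.factorial_ne_zero r) 2 (by norm_num)
  have hlt := padicValNat_factorial_lt_of_ne_zero 2 (show r ≠ 0 by omega)
  have hle : e ≤ padicValNat 2 r.factorial := by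
    rw [← padicValNat_dvd_iff_le (Nat.factorial_ne_zero r)]
    exact ⟨m, he⟩
  have hmo : Odd (m : ℤ) := by
    rw [Int.odd_coe_nat, ← Nat.not_even_iff_odd, even_iff_two_dvd]
    exact hm
  have h1 := mc2_odd hmo
  push_cast at h1
  rw [he]
  push_cast
  rw [norm_mul, norm_pow, mc2_two, h1, mul_one]
  exact pow_le_pow_of_le_one (by norm_num) (by norm_num) (by omega)

section

variable {y : C2} (hy : mc2_G y)

include hy

theorem mc2_ym3 (k : ℕ) : ‖y - 3 * (k : C2)‖ = 1 := by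
  have := hy (3 * k)
  push_cast at this
  exact this

theorem mc2_AA {i k : ℕ} (h : k < i) : ‖4 ^ (i - k) * AA y i k‖ ≤ 1 / 2 := by
  have h1 : ‖(-1 : C2) ^ (i - k)‖ = 1 := by rw [norm_pow, norm_neg, norm_one, one_pow]
  rw [AA, if_neg (by omega), norm_mul, norm_div]
  simp only [norm_mul]
  rw [h1, mc2_pr hy, mc2_pr hy, mc2_dfac, mc2_dfac, mc2_pr hy, mc2_ym3 hy, mc2_ym3 hy, norm_pow,
    norm_pow, mc2_two, show (4 : C2) = 2 * 2 by norm_num, norm_mul, mc2_two]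
  have h2 := mc2_fact (r := i - k) (by omega)
  have h3 : 0 < ‖((i - k).factorial : C2)‖ := lt_of_lt_of_le (by positivity) h2
  simp only [one_mul, mul_one]
  rw [mul_one_div, div_le_iff₀ (by positivity)]
  obtain ⟨r, hr⟩ : ∃ r, i - k = r + 1 := ⟨i - k - 1, by omega⟩
  rw [hr] at h2 ⊢
  rw [Nat.add_sub_cancel] at h2
  calc (1 / 2 * (1 / 2) : ℝ) ^ (r + 1) = 1 / 2 * ((1 / 2) ^ r * (1 / 2) ^ (r + 1)) := by
        rw [mul_pow, pow_succ]; ring
    _ ≤ 1 / 2 * (‖((r + 1).factorial : C2)‖ * (1 / 2) ^ (r + 1)) := by gcongr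

/-- The factor of the odd disc. -/
theorem mc2_AAo {i k : ℕ} (h : k < i) (c : C2) (hc : ‖c‖ ≤ 1) :
    ‖4 ^ (i - k) * AA y i k * c‖ ≤ 1 / 2 := by
  rw [norm_mul]
  have := mc2_AA hy h
  nlinarith [norm_nonneg (4 ^ (i - k) * AA y i k), norm_nonneg c]

theorem mc2_prod2 {a : ℤ} (ha : Odd a) (n : ℕ) :
    ‖∏ s ∈ Finset.range n, (2 * y - ((a + s : ℤ) : C2))‖ = (1 / 2) ^ (n / 2) := by
  induction n with
  | zero => simp
  | succ n ih =>
    rw [Finset.prod_range_succ, norm_mul, ih]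
    rcases Nat.even_or_odd n with hn | hn
    · rw [mc2_2odd hy (ha.add_even ((Int.even_coe_nat n).2 hn)), mul_one]
      congr 1
      obtain ⟨k, rfl⟩ := hn
      omega
    · rw [mc2_2even hy (ha.add_odd ((Int.odd_coe_nat n).2 hn)), ← pow_succ]
      congr 1
      obtain ⟨k, rfl⟩ := hn
      omega

theorem mc2_dd (i : ℕ) : ‖dd y i‖ = 2 ^ i * (1 / 2) ^ (i / 2) := by
  have h1 : ‖(-1 / 2 : C2) ^ i‖ = 2 ^ i := by
    rw [norm_pow, norm_div, norm_neg, norm_one, mc2_two]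
    norm_num
  have h2 := mc2_prod2 hy (a := 2 * i + 1) ⟨i, rfl⟩ i
  rw [dd, norm_div]
  simp only [norm_mul]
  rw [h1, mc2_dfac, mc2_pr hy, mc2_pr hy, mul_one, mul_one, div_one]
  rw [← h2]
  push_cast
  rfl

end

theorem mc2_binom {i j : ℕ} (h : i ≤ j) (h2 : j ≤ 2 * i) :
    ‖(j.factorial : C2) /
      (((2 * i - j).factorial : C2) * ((j - i).factorial : C2) * 2 ^ (j - i))‖ ≤ 1 := by
  have key : ∀ r : ℕ, ((2 * r).factorial : C2) = r.factorial * 2 ^ r * dfac C2 r := by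
    intro r
    induction r with
    | zero => simp [dfac]
    | succ r ih =>
      rw [show 2 * (r + 1) = 2 * r + 1 + 1 by ring, Nat.factorial_succ, Nat.factorial_succ]
      push_cast
      rw [ih, dfac, dfac, Finset.prod_range_succ, Nat.factorial_succ]
      push_cast
      ring
  have hne : dfac C2 (j - i) ≠ 0 := by
    intro h0
    have := mc2_dfac (j - i)
    rw [h0, norm_zero] at this
    norm_num at this
  have hch : (j.choose (2 * (j - i)) : C2) * (((2 * (j - i)).factorial : C2) *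
      ((2 * i - j).factorial : C2)) = (j.factorial : C2) := by
    have := Nat.choose_mul_factorial_mul_factorial (n := j) (k := 2 * (j - i)) (by omega)
    rw [show j - 2 * (j - i) = 2 * i - j by omega] at this
    rw [← this]
    push_cast
    ring
  have hf1 : (((2 * i - j).factorial : ℕ) : C2) ≠ 0 :=
    Nat.cast_ne_zero.2 (Nat.factorial_ne_zero _)
  have hf2 : (((j - i).factorial : ℕ) : C2) ≠ 0 := Nat.cast_ne_zero.2 (Nat.factorial_ne_zero _)
  have h2' : (2 : C2) ^ (j - i) ≠ 0 := pow_ne_zero _ two_ne_zero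
  have he : (j.factorial : C2) /
      (((2 * i - j).factorial : C2) * ((j - i).factorial : C2) * 2 ^ (j - i)) =
      (j.choose (2 * (j - i)) : C2) * dfac C2 (j - i) := by
    rw [← hch, key (j - i)]
    field_simp
  rw [he, norm_mul, mc2_dfac, mul_one]
  exact_mod_cast mc2_int (j.choose (2 * (j - i)))

section

variable {y : C2} (hy : mc2_G y)

include hy

/-- The part of `uu y i j` without the factors `2y - 3j` and `2y - 3i`, for `i < j ≤ 2 i`. -/
theorem mc2_uu {i j : ℕ} (h : i < j) (h2 : j ≤ 2 * i) : ∃ q : C2, ‖q‖ ≤ 1 ∧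
    uu y i j = q * (2 * y - 3 * j) := by
  obtain ⟨r, hr⟩ : ∃ r, j - i = r + 1 := ⟨j - i - 1, by omega⟩
  have hb := mc2_binom h.le h2
  rw [uu, if_neg (by omega), if_neg (by omega)]
  have h3 : (2 : C2) * y - 3 * i ≠ 0 := by
    have := mc2_2ne hy (3 * i)
    push_cast at this
    exact this
  rw [hr] at hb ⊢
  rw [Finset.prod_range_succ' (fun t : ℕ ↦ (2 : C2) * y - (3 * i + t))]
  refine ⟨(-1) ^ (r + 1) * ((j.factorial : C2) /
        (((2 * i - j).factorial : C2) * ((r + 1).factorial : C2) * 2 ^ (r + 1))) *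
        (∏ t ∈ Finset.range r, (2 * y - (3 * i + ((t + 1 : ℕ) : C2)))) /
        ((∏ t ∈ Finset.range (r + 1), (2 * y - (2 * i + 1 + 2 * t))) *
        pr y (2 * i + 1) (r + 1)), ?_, ?_⟩
  · have hodd : ‖∏ t ∈ Finset.range (r + 1), ((2 : C2) * y - (2 * i + 1 + 2 * t))‖ = 1 := by
      rw [norm_prod]
      refine Finset.prod_eq_one fun t _ ↦ ?_
      have := mc2_2odd hy (s := 2 * i + 1 + 2 * t) ⟨i + t, by ring⟩
      push_cast at this
      exact this
    have hle : ‖∏ t ∈ Finset.range r, (2 * y - (3 * i + ((t + 1 : ℕ) : C2)))‖ ≤ 1 := by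
      rw [norm_prod]
      refine Finset.prod_le_one (fun t _ ↦ norm_nonneg _) fun t _ ↦ ?_
      have := mc2_2le hy (3 * i + ((t + 1 : ℕ) : ℤ))
      push_cast at this ⊢
      exact this
    have h1 : ‖(-1 : C2) ^ (r + 1)‖ = 1 := by rw [norm_pow, norm_neg, norm_one, one_pow]
    rw [norm_div, norm_mul, norm_mul, norm_mul _ (pr y _ _), hodd, mc2_pr hy, h1, one_mul, mul_one,
      div_one]
    exact mul_le_one₀ hb (norm_nonneg _) hle
  · simp only [Nat.cast_zero, add_zero]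
    field_simp

end

/-! ### The abstract argument over the valuation ring of `ℂ_2` -/

/-- The valuation ring. -/
def mc2_S : Subring C2 where
  carrier := {z | ‖z‖ ≤ 1}
  mul_mem' := fun {a b} ha hb ↦ by
    rw [Set.mem_ofPred_eq] at ha hb ⊢
    rw [norm_mul]
    exact mul_le_one₀ ha (norm_nonneg _) hb
  one_mem' := by simp
  add_mem' := fun {a b} ha hb ↦ by
    rw [Set.mem_ofPred_eq] at ha hb ⊢
    exact (IsUltrametricDist.norm_add_le_max a b).trans (max_le ha hb)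
  zero_mem' := by simp
  neg_mem' := fun {a} ha ↦ by
    rw [Set.mem_ofPred_eq] at ha ⊢
    rwa [norm_neg]

/-- The element `2`. -/
def mc2_pi : mc2_S := ⟨2, by change ‖(2 : C2)‖ ≤ 1; rw [mc2_two]; norm_num⟩

theorem mc2_dvd_iff (k : ℕ) (z : mc2_S) : mc2_pi ^ k ∣ z ↔ ‖(z : C2)‖ ≤ (1 / 2) ^ k := by
  constructor
  · rintro ⟨c, rfl⟩
    have hc : ‖(c : C2)‖ ≤ 1 := c.2
    have : ((mc2_pi ^ k * c : mc2_S) : C2) = 2 ^ k * c := by
      rw [Subring.coe_mul, Subring.coe_pow]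
      rfl
    rw [this, norm_mul, norm_pow, mc2_two]
    exact mul_le_of_le_one_right (by positivity) hc
  · intro h
    have h2 : (2 : C2) ^ k ≠ 0 := pow_ne_zero _ two_ne_zero
    have hz : ‖(z : C2) / 2 ^ k‖ ≤ 1 := by
      rw [norm_div, norm_pow, mc2_two]
      exact div_le_one_of_le₀ h (by positivity)
    refine ⟨⟨(z : C2) / 2 ^ k, hz⟩, ?_⟩
    apply Subtype.ext
    rw [Subring.coe_mul, Subring.coe_pow]
    change (z : C2) = 2 ^ k * ((z : C2) / 2 ^ k)
    field_simp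

theorem mc2_abs (hAbs : SpAbs) {w : ℕ → ℕ} {M A B : ℕ → ℕ → C2} (hw : StrictMono w)
    (hM : ∀ i j, ‖M i j‖ ≤ 1) (hA1 : ∀ i, A i i = 1) (hA : ∀ i k, k < i → ‖A i k‖ ≤ 1 / 2)
    (hB0 : ∀ i j, j < i → B i j = 0) (hB1 : ∀ i, ‖B i i‖ ≤ (1 / 2) ^ w i)
    (hB2 : ∀ i j, i < j → ‖B i j‖ ≤ (1 / 2) ^ (w i + 1))
    (hAB : ∀ i j, ∑ k ∈ Finset.range (i + 1), A i k * M k j = B i j)
    (n : ℕ) (a b : Fin n → ℕ) (hab : ∃ i, n ≤ a i ∨ n ≤ b i) :
    ‖Pot.minor M a b‖ ≤ (1 / 2) ^ ((∑ k ∈ Finset.range n, w k) + 1) := by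
  have hA' : ∀ i k, ‖(if k ≤ i then A i k else 0)‖ ≤ 1 := by
    intro i k
    split_ifs with h
    · rcases h.lt_or_eq with h | h
      · linarith [hA i k h]
      · rw [h, hA1, norm_one]
    · rw [norm_zero]; norm_num
  have hB' : ∀ i j, ‖B i j‖ ≤ 1 := by
    intro i j
    rcases lt_trichotomy i j with h | h | h
    · exact (hB2 i j h).trans (pow_le_one₀ (by norm_num) (by norm_num))
    · rw [h]
      exact (hB1 j).trans (pow_le_one₀ (by norm_num) (by norm_num))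
    · rw [hB0 i j h, norm_zero]; norm_num
  have key := hAbs mc2_S mc2_pi w (fun i j ↦ ⟨M i j, hM i j⟩)
    (fun i k ↦ ⟨if k ≤ i then A i k else 0, hA' i k⟩) (fun i j ↦ ⟨B i j, hB' i j⟩) hw
    (fun i ↦ Subtype.ext (by change (if i ≤ i then A i i else 0) = 1; rw [if_pos le_rfl, hA1]))
    (fun i k h ↦ by
      rw [← pow_one mc2_pi, mc2_dvd_iff]
      change ‖(if k ≤ i then A i k else 0)‖ ≤ _
      rw [if_pos h.le, pow_one]
      exact hA i k h)
    (fun i j h ↦ Subtype.ext (hB0 i j h))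
    (fun i ↦ by rw [mc2_dvd_iff]; exact hB1 i)
    (fun i j h ↦ by rw [mc2_dvd_iff]; exact hB2 i j h)
    (fun i j ↦ by
      apply Subtype.ext
      refine (map_sum mc2_S.subtype _ _).trans (Eq.trans ?_ (hAB i j))
      refine Finset.sum_congr rfl fun k hk ↦ ?_
      rw [Finset.mem_range] at hk
      change (if k ≤ i then A i k else 0) * M k j = _
      rw [if_pos (by omega)])
    n a b hab
  rw [mc2_dvd_iff] at key
  convert key using 2
  unfold Pot.minor
  have := RingHom.map_det mc2_S.subtype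
    (Matrix.of fun i j ↦ (⟨M (a i) (b j), hM (a i) (b j)⟩ : mc2_S))
  rw [Subring.subtype_apply] at this
  rw [this]
  rfl

/-! ### The two discs at a generic point -/

theorem mc2_B (e n : ℕ) :
    ∑ k ∈ Finset.range n, (3 * (k + 1) + (k + 1 + e) / 2) = Cen.B e n := by
  unfold Cen.B
  induction n with
  | zero => simp
  | succ n ih =>
    rw [Finset.sum_range_succ, ih, Finset.sum_Icc_succ_top (by omega)]

section

variable {y : C2} (hy : mc2_G y)

include hy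

theorem mc2_y3ne (k : ℕ) : y - 3 * (k : C2) ≠ 0 := by
  intro h
  have := mc2_ym3 hy k
  rw [h, norm_zero] at this
  norm_num at this

theorem mc2_2y3ne (k : ℕ) : (2 : C2) * y - 3 * (k : C2) ≠ 0 := by
  have := mc2_2ne hy (3 * k)
  push_cast at this
  exact this

theorem mc2_AA_diag (i : ℕ) : AA y i i = 1 := by
  have hne : dfac C2 i ≠ 0 := by
    intro h0
    have := mc2_dfac i
    rw [h0, norm_zero] at this
    norm_num at this
  have h3 := mc2_y3ne hy i
  rw [AA, if_neg (by omega), Nat.sub_self]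
  simp only [pr, mul_zero, Finset.range_zero, Finset.prod_empty, pow_zero, Nat.factorial_zero,
    Nat.cast_one, one_mul, mul_one]
  field_simp

theorem mc2_uu_diag (i : ℕ) : uu y i i = 1 := by
  have h3 := mc2_2y3ne hy i
  have hf : ((i.factorial : ℕ) : C2) ≠ 0 := Nat.cast_ne_zero.2 (Nat.factorial_ne_zero _)
  rw [uu, if_neg (by omega), if_neg (by omega), Nat.sub_self, show 2 * i - i = i by omega]
  simp only [pr, Finset.range_zero, Finset.prod_empty, pow_zero, Nat.factorial_zero,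
    Nat.cast_one, one_mul, mul_one]
  field_simp

omit hy in
theorem mc2_four (k : ℕ) : ‖(4 : C2) ^ k‖ = (1 / 2) ^ (2 * k) := by
  rw [norm_pow, show (4 : C2) = 2 * 2 by norm_num, norm_mul, mc2_two, pow_mul]
  norm_num

theorem mc2_BB_diag (i : ℕ) : ‖4 ^ (i + i) * BB y i i‖ = (1 / 2) ^ (3 * i + i / 2) := by
  rw [BB, mc2_uu_diag hy, mul_one, norm_mul, mc2_four, mc2_dd hy, pow_add]
  have : (1 / 2 : ℝ) ^ (2 * (i + i)) * 2 ^ i = (1 / 2) ^ (3 * i) := by
    rw [show 2 * (i + i) = 3 * i + i by ring, pow_add, mul_assoc, ← mul_pow]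
    norm_num
  rw [← this]
  ring

/-- The entries off the diagonal. -/
theorem mc2_BB {i j : ℕ} (h : i < j) : ∃ q : C2, ‖q‖ ≤ (1 / 2) ^ (3 * i + i / 2 + 2) ∧
    4 ^ (i + j) * BB y i j = q * (2 * y - 3 * j) := by
  rcases Nat.lt_or_ge (2 * i) j with h2 | h2
  · refine ⟨0, by rw [norm_zero]; positivity, ?_⟩
    rw [BB, uu, if_neg (by omega), if_pos h2]
    ring
  · obtain ⟨q, hq, he⟩ := mc2_uu hy h h2
    refine ⟨4 ^ (i + j) * dd y i * q, ?_, by rw [BB, he]; ring⟩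
    rw [norm_mul, norm_mul, mc2_four, mc2_dd hy]
    have h1 : (1 / 2 : ℝ) ^ (2 * (i + j)) * 2 ^ i ≤ (1 / 2) ^ (3 * i + 2) := by
      have h5 : (1 / 2 : ℝ) ^ (2 * (i + j)) ≤ (1 / 2) ^ (3 * i + 2 + i) :=
        pow_le_pow_of_le_one (by norm_num) (by norm_num) (by omega)
      calc (1 / 2 : ℝ) ^ (2 * (i + j)) * 2 ^ i ≤ (1 / 2) ^ (3 * i + 2 + i) * 2 ^ i := by gcongr
        _ = (1 / 2) ^ (3 * i + 2) := by
          rw [pow_add, mul_assoc, ← mul_pow]
          norm_num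
    calc (1 / 2 : ℝ) ^ (2 * (i + j)) * (2 ^ i * (1 / 2) ^ (i / 2)) * ‖q‖
        = ((1 / 2 : ℝ) ^ (2 * (i + j)) * 2 ^ i) * (1 / 2) ^ (i / 2) * ‖q‖ := by ring
      _ ≤ (1 / 2) ^ (3 * i + 2) * (1 / 2) ^ (i / 2) * 1 := by gcongr
      _ = (1 / 2) ^ (3 * i + i / 2 + 2) := by
        rw [mul_one, ← pow_add]
        congr 1
        ring

theorem mc2_even_disc (hA : SpANB) (hMM : SpMM) (hAbs : SpAbs)
    (hM : ∀ i j : ℕ, ‖Cen.MM 0 y (i + 1) (j + 1)‖ ≤ 1) (n : ℕ) (a b : Fin n → ℕ)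
    (hab : ∃ i, n ≤ a i ∨ n ≤ b i) :
    ‖Pot.minor (fun i j : ℕ ↦ Cen.MM 0 y (i + 1) (j + 1)) a b‖ ≤ (1 / 2) ^ (Cen.B 0 n + 1) := by
  rw [← mc2_B]
  refine mc2_abs hAbs (w := fun k ↦ 3 * (k + 1) + (k + 1 + 0) / 2)
    (A := fun i k ↦ 4 ^ (i - k) * AA y (i + 1) (k + 1))
    (B := fun i j ↦ 4 ^ (i + 1 + (j + 1)) * BB y (i + 1) (j + 1)) ?_ hM ?_ ?_ ?_ ?_ ?_ ?_ n a b hab
  · intro i j hij
    dsimp only
    omega
  · intro i
    rw [Nat.sub_self, pow_zero, one_mul, mc2_AA_diag hy]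
  · intro i k h
    have := mc2_AA hy (i := i + 1) (k := k + 1) (by omega)
    rw [show i + 1 - (k + 1) = i - k by omega] at this
    exact this
  · intro i j h
    rw [BB, uu, if_pos (by omega)]
    ring
  · intro i
    rw [mc2_BB_diag hy]
  · intro i j h
    obtain ⟨q, hq, he⟩ := mc2_BB hy (i := i + 1) (j := j + 1) (by omega)
    rw [he, norm_mul]
    have h2 : ‖2 * y - 3 * ((j + 1 : ℕ) : C2)‖ ≤ 1 := by
      have := mc2_2le hy (3 * ((j + 1 : ℕ) : ℤ))
      push_cast at this ⊢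
      exact this
    refine (mul_le_of_le_one_right (norm_nonneg _) h2).trans (hq.trans ?_)
    exact pow_le_pow_of_le_one (by norm_num) (by norm_num) (by omega)
  · intro i j
    have h := hA C2 y (mc2_Gen hy) (i + 1) (j + 1) (by omega) (by omega)
    rw [Finset.sum_range_succ'] at h
    have h0 : NN y 0 (j + 1) = 0 := by rw [NN, if_pos (by omega)]
    rw [h0, mul_zero, add_zero] at h
    rw [← h, Finset.mul_sum]
    refine Finset.sum_congr rfl fun k hk ↦ ?_
    rw [Finset.mem_range] at hk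
    rw [(hMM C2 y (k + 1) (j + 1)).1, show i + 1 + (j + 1) = (i - k) + (k + 1 + (j + 1)) by omega,
      pow_add]
    ring

theorem mc2_odd_disc (hA : SpANB) (hMM : SpMM) (hAbs : SpAbs)
    (hM : ∀ i j : ℕ, ‖Cen.MM 1 y (i + 1) (j + 1)‖ ≤ 1) (n : ℕ) (a b : Fin n → ℕ)
    (hab : ∃ i, n ≤ a i ∨ n ≤ b i) :
    ‖Pot.minor (fun i j : ℕ ↦ Cen.MM 1 y (i + 1) (j + 1)) a b‖ ≤ (1 / 2) ^ (Cen.B 1 n + 1) := by
  have hc : ∀ i : ℕ, ‖3 * (i : C2) - y‖ = 1 := fun i ↦ by
    rw [← norm_neg, neg_sub]; exact mc2_ym3 hy i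
  have hc0 : ∀ i : ℕ, 3 * (i : C2) - y ≠ 0 := fun i h ↦ by
    have := hc i
    rw [h, norm_zero] at this
    norm_num at this
  have hd0 : ∀ j : ℕ, 3 * (j : C2) - 2 * y ≠ 0 := fun j h ↦ mc2_2y3ne hy j (by
    linear_combination -h)
  rw [← mc2_B]
  refine mc2_abs hAbs (w := fun k ↦ 3 * (k + 1) + (k + 1 + 1) / 2)
    (A := fun i k ↦ 4 ^ (i - k) * AA y (i + 1) (k + 1) *
      ((3 * ((i + 1 : ℕ) : C2) - y) / (3 * ((k + 1 : ℕ) : C2) - y)))
    (B := fun i j ↦ 4 ^ (i + 1 + (j + 1)) * BB y (i + 1) (j + 1) *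
      (2 * (3 * ((i + 1 : ℕ) : C2) - y) / (3 * ((j + 1 : ℕ) : C2) - 2 * y)))
    ?_ hM ?_ ?_ ?_ ?_ ?_ ?_ n a b hab
  · intro i j hij
    dsimp only
    omega
  · intro i
    rw [Nat.sub_self, pow_zero, one_mul, mc2_AA_diag hy, one_mul, div_self (hc0 _)]
  · intro i k h
    have := mc2_AAo hy (i := i + 1) (k := k + 1) (by omega)
      ((3 * ((i + 1 : ℕ) : C2) - y) / (3 * ((k + 1 : ℕ) : C2) - y))
      (by rw [norm_div, hc, hc, div_one])
    rw [show i + 1 - (k + 1) = i - k by omega] at this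
    exact this
  · intro i j h
    rw [BB, uu, if_pos (by omega)]
    ring
  · intro i
    rw [norm_mul, mc2_BB_diag hy, norm_div, norm_mul 2, hc, mc2_two, mul_one]
    have hd : ‖3 * ((i + 1 : ℕ) : C2) - 2 * y‖ = if Even (i + 1) then 1 / 2 else 1 := by
      rw [← norm_neg, neg_sub]
      split_ifs with h
      · have := mc2_2even hy (s := 3 * ((i + 1 : ℕ) : ℤ)) (((Int.even_coe_nat _).2 h).mul_left 3)
        push_cast at this ⊢
        exact this
      · have ho : Odd (i + 1) := Nat.not_even_iff_odd.1 h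
        have := mc2_2odd hy (s := 3 * ((i + 1 : ℕ) : ℤ))
          (Odd.mul (by decide) ((Int.odd_coe_nat _).2 ho))
        push_cast at this ⊢
        exact this
    rw [hd]
    split_ifs with h
    · rw [div_self (by norm_num), mul_one]
      obtain ⟨k, hk⟩ := h
      exact pow_le_pow_of_le_one (by norm_num) (by norm_num) (by omega)
    · rw [div_one, ← pow_succ]
      exact pow_le_pow_of_le_one (by norm_num) (by norm_num) (by omega)
  · intro i j h
    obtain ⟨q, hq, he⟩ := mc2_BB hy (i := i + 1) (j := j + 1) (by omega)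
    have hr : q * (2 * y - 3 * ((j + 1 : ℕ) : C2)) *
        (2 * (3 * ((i + 1 : ℕ) : C2) - y) / (3 * ((j + 1 : ℕ) : C2) - 2 * y)) =
        -(q * (2 * (3 * ((i + 1 : ℕ) : C2) - y))) := by
      have h5 := hd0 (j + 1)
      rw [← neg_sub (3 * ((j + 1 : ℕ) : C2)) (2 * y)]
      field_simp
    rw [he, hr, norm_neg, norm_mul, norm_mul 2, hc, mc2_two, mul_one]
    calc ‖q‖ * (1 / 2) ≤ (1 / 2) ^ (3 * (i + 1) + (i + 1) / 2 + 2) * (1 / 2) := by gcongr
      _ = (1 / 2) ^ (3 * (i + 1) + (i + 1) / 2 + 3) := by rw [← pow_succ]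
      _ ≤ _ := pow_le_pow_of_le_one (by norm_num) (by norm_num) (by omega)
  · intro i j
    have h := hA C2 y (mc2_Gen hy) (i + 1) (j + 1) (by omega) (by omega)
    rw [Finset.sum_range_succ'] at h
    have h0 : NN y 0 (j + 1) = 0 := by rw [NN, if_pos (by omega)]
    rw [h0, mul_zero, add_zero] at h
    rw [← h, Finset.mul_sum, Finset.sum_mul]
    refine Finset.sum_congr rfl fun k hk ↦ ?_
    rw [Finset.mem_range] at hk
    obtain ⟨-, h1, h2⟩ := hMM C2 y (k + 1) (j + 1)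
    have h3 : NNo y (k + 1) (j + 1) = 2 * (3 * ((k + 1 : ℕ) : C2) - y) * NN y (k + 1) (j + 1) /
        (3 * ((j + 1 : ℕ) : C2) - 2 * y) := by
      rw [← h2, mul_div_assoc, div_self (hd0 _), mul_one]
    have h5 := hd0 (j + 1)
    have h6 := hc0 (k + 1)
    have h7 : (4 : C2) ^ (i + 1 + (j + 1)) = 4 ^ (i - k) * 4 ^ (k + 1 + (j + 1)) := by
      rw [← pow_add]
      congr 1
      omega
    rw [h1, h3, h7]
    field_simp

end

/-! ### The theorem -/

theorem mc2_norm_coeff_C2 (P : ℤ_[2][X]) (y : C2) (hy : ‖y‖ ≤ 1) : ‖P.eval₂ iota y‖ ≤ 1 := by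
  rw [eval₂_eq_sum_range]
  refine IsUltrametricDist.norm_sum_le_of_forall_le_of_nonneg (by norm_num) fun i _ ↦ ?_
  rw [norm_mul, gn_norm_iota, norm_pow]
  exact mul_le_one₀ (PadicInt.norm_le_one _) (by positivity) (pow_le_one₀ (norm_nonneg _) hy)

theorem mc2_point (hA : SpANB) (hMM : SpMM) (hE : SpEval) (hAbs : SpAbs) {e : ℕ} (he : e ≤ 1)
    (n : ℕ) (a b : Fin n → ℕ) (hab : ∃ i, n ≤ a i ∨ n ≤ b i) {y : C2} (hy : mc2_G y) :
    ‖(Pot.minor (PM e) a b).eval₂ iota y‖ ≤ (1 / 2) ^ (Cen.B e n + 1) := by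
  have hM : ∀ i j : ℕ, ‖Cen.MM e y (i + 1) (j + 1)‖ ≤ 1 := fun i j ↦ by
    rw [← hE C2 iota y e i j he]
    exact mc2_norm_coeff_C2 _ _ (mc2_y hy).le
  have hm : (Pot.minor (PM e) a b).eval₂ iota y =
      Pot.minor (fun i j : ℕ ↦ Cen.MM e y (i + 1) (j + 1)) a b := by
    unfold Pot.minor
    have := RingHom.map_det (eval₂RingHom iota y) (Matrix.of fun i j ↦ PM e (a i) (b j))
    rw [coe_eval₂RingHom] at this
    rw [this]
    congr 1
    ext i j
    simp only [RingHom.mapMatrix_apply, Matrix.map_apply, Matrix.of_apply, coe_eval₂RingHom]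
    exact hE C2 iota y e _ _ he
  rw [hm]
  rcases Nat.le_one_iff_eq_zero_or_eq_one.1 he with rfl | rfl
  · exact mc2_even_disc hy hA hMM hAbs hM n a b hab
  · exact mc2_odd_disc hy hA hMM hAbs hM n a b hab

theorem rootPM (hA : SpANB) (hMM : SpMM) (hE : SpEval) (hAbs : SpAbs) : SpRoot := by
  intro e he n a b hab c
  set P := Pot.minor (PM e) a b with hP
  obtain ⟨y, hy1, hy2, hco⟩ := exists_coeff_le (P.map iota) ({1} : Finset C2)
    (by intro t ht; rw [Finset.mem_singleton] at ht; rw [ht, norm_one])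
  have hG : mc2_G y := mc2_gen hy1 (hy2 1 (Finset.mem_singleton_self _))
  have hb := mc2_point hA hMM hE hAbs he n a b hab hG
  rw [← hP] at hb
  have hdvd : C ((2 : ℤ_[2]) ^ (Cen.B e n + 1)) ∣ P := by
    rw [C_dvd_iff_dvd_coeff]
    intro i
    have h1 := hco i
    rw [coeff_map, gn_norm_iota, eval_map] at h1
    have h2 := h1.trans hb
    have h3 := (PadicInt.norm_le_pow_iff_mem_span_pow (P.coeff i) (Cen.B e n + 1)).1 (by
      refine h2.trans (le_of_eq ?_)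
      rw [zpow_neg, zpow_natCast, one_div, inv_pow]
      norm_num)
    rw [Ideal.mem_span_singleton] at h3
    exact_mod_cast h3
  have hsh : C ((2 : ℕ) : ℤ_[2]) ^ (Cen.B e n + 1) ∣ Pot.sh 2 c 0 P := by
    obtain ⟨Q, hQ⟩ := hdvd
    refine ⟨Pot.sh 2 c 0 Q, ?_⟩
    unfold Pot.sh
    rw [hQ, mul_comp, C_comp, C_pow]
    norm_num
  exact pow_dvd_iff_le_emultiplicity.1 hsh

end GH.Mat
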