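import Pool.Agent.GH.Mat.Spec

/-!
# GH-MAT MB3: increments of the tents

Pure arithmetic of natural numbers (truncated subtraction).
-/

noncomputable section

namespace GH.Mat

theorem tentInc : SpTent := by
  intro e n m he hn
  unfold Cen.tent Cen.tm
  interval_cases e
  · split_ifs <;> omega
  · split_ifs <;> omega

theorem multTent : SpMult := by
  intro e n μ he
  unfold mult sfun dimNew dimP dimOne Cen.tent Cen.tm
  interval_cases e
  · simp only [if_true, Nat.add_zero, Nat.sub_zero]
    split_ifs <;> omega
  · simp only [if_true]
    split_ifs <;> omega

end GH.Mat
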