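import Pool.Agent.GH.Mat.Spec

/-!
# GH-MAT, row MA1: the telescoping identity (WZ certificate)
-/

noncomputable section

namespace GH.Mat

variable {K : Type} [Field K]

theorem ma1_pr_succ (y : K) (a : ℤ) (n : ℕ) : pr y a (n + 1) = pr y a n * (y - ((a + n : ℤ) : K)) := by
  unfold pr
  rw [Finset.prod_range_succ]

theorem ma1_pr_succ' (y : K) (a : ℤ) (n : ℕ) : pr y a (n + 1) = (y - (a : K)) * pr y (a + 1) n := by
  unfold pr
  rw [Finset.prod_range_succ', mul_comm]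
  congr 1
  · simp
  · refine Finset.prod_congr rfl fun t _ => ?_
    congr 2
    push_cast
    ring

theorem ma1_gen_sub {y : K} (hy : Gen y) (m : ℤ) : y - (m : K) ≠ 0 := by
  intro h
  have h1 : y = (m : K) := sub_eq_zero.1 h
  apply hy (2 * m)
  rw [h1]
  push_cast
  ring

theorem ma1_gen_sub2 {y : K} (hy : Gen y) (m : ℤ) : 2 * y - (m : K) ≠ 0 := fun h =>
  hy m (sub_eq_zero.1 h)

theorem ma1_pr_ne {y : K} (hy : Gen y) (a : ℤ) (n : ℕ) : pr y a n ≠ 0 := by
  unfold pr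
  exact Finset.prod_ne_zero_iff.2 fun t _ => ma1_gen_sub hy _

theorem ma1_dfac_succ (k : ℕ) : dfac K (k + 1) = dfac K k * (2 * (k : K) + 1) := by
  unfold dfac
  rw [Finset.prod_range_succ]

theorem ma1_dfac_ne [CharZero K] (k : ℕ) : dfac K k ≠ 0 := by
  unfold dfac
  refine Finset.prod_ne_zero_iff.2 fun t _ => ?_
  exact_mod_cast (Nat.succ_ne_zero (2 * t))

theorem ma1_shift (c y : K) (m : ℕ) : (∏ l ∈ Finset.Icc 1 (m + 1), ((c + 1) - (l : K) - y)) =
    (c - y) * ∏ l ∈ Finset.Icc 1 m, (c - (l : K) - y) := by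
  induction m with
  | zero => simp
  | succ m ih =>
    rw [Finset.prod_Icc_succ_top (by omega), ih, Finset.prod_Icc_succ_top (by omega)]
    push_cast
    ring

/-- the recursion of `N` in the first index -/
theorem ma1_NN_succ [CharZero K] (y : K) (k j : ℕ) (h : j ≤ 2 * k) :
    NN y (k + 1) j * ((2 * (k : K) + 1 - j) * (2 * (k : K) + 2 - j)) =
      NN y k j * ((y - 2 * j + k) * (y - k - j)) := by
  obtain ⟨r, hr⟩ := Nat.exists_eq_add_of_le h
  have hk : 2 * (k : K) = (j : K) + r := by exact_mod_cast hr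
  have e1 : 2 * (k + 1) - j = r + 2 := by omega
  have e2 : 2 * k - j = r := by omega
  have n1 : ¬ (2 * (k + 1) < j) := by omega
  have n2 : ¬ (2 * (k + 1) = j) := by omega
  have n3 : ¬ (2 * k < j) := by omega
  have hf : (r.factorial : K) ≠ 0 := by exact_mod_cast Nat.factorial_ne_zero r
  have hr1 : (r : K) + 1 ≠ 0 := by exact_mod_cast Nat.succ_ne_zero r
  have hr2 : (r : K) + 2 ≠ 0 := by exact_mod_cast Nat.succ_ne_zero (r + 1)
  have hfac : (((r + 2).factorial : ℕ) : K) = ((r : K) + 2) * (((r : K) + 1) * (r.factorial : K)) := by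
    rw [Nat.factorial_succ, Nat.factorial_succ]
    push_cast
    ring
  have hR1 : 2 * (k : K) + 1 - j = r + 1 := by rw [hk]; ring
  have hR2 : 2 * (k : K) + 2 - j = r + 2 := by rw [hk]; ring
  have hj : y - 2 * j + k = -((k : K) + j - r - y) := by
    have : (r : K) = 2 * k - j := by rw [hk]; ring
    rw [this]; ring
  have hN1 : NN y (k + 1) j * (((r + 2).factorial : ℕ) : K) = (3 * (j : K) - 2 * y) / 2 *
      (((k : K) + j - y) * ∏ l ∈ Finset.Icc 1 r, ((k : K) + j - l - y)) := by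
    unfold NN
    have e3 : 2 * (k + 1) - j - 1 = r + 1 := by omega
    rw [if_neg n1, if_neg n2, e3, e1, ← ma1_shift]
    rw [div_mul_cancel₀ _ (by rw [hfac]; exact mul_ne_zero hr2 (mul_ne_zero hr1 hf))]
    congr 1
    refine Finset.prod_congr rfl fun l _ => ?_
    push_cast
    ring
  have hN0 : NN y k j * ((y - 2 * j + k) * (r.factorial : K)) = - ((3 * (j : K) - 2 * y) / 2 *
      ∏ l ∈ Finset.Icc 1 r, ((k : K) + j - l - y)) := by
    unfold NN
    rw [if_neg n3]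
    by_cases h0 : 2 * k = j
    · have hr0 : r = 0 := by omega
      subst hr0
      rw [if_pos h0]
      have : (j : K) = 2 * k := by rw [hk]; simp
      rw [this]
      simp
      ring
    · rw [if_neg h0]
      obtain ⟨t, rfl⟩ : ∃ t, r = t + 1 := ⟨r - 1, by omega⟩
      have e3 : 2 * k - j - 1 = t := by omega
      rw [e3, e2, Finset.prod_Icc_succ_top (by omega : 1 ≤ t + 1), hj]
      field_simp
  have key : NN y (k + 1) j * ((2 * (k : K) + 1 - j) * (2 * (k : K) + 2 - j)) * (r.factorial : K) =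
      NN y k j * ((y - 2 * j + k) * (y - k - j)) * (r.factorial : K) := by
    calc NN y (k + 1) j * ((2 * (k : K) + 1 - j) * (2 * (k : K) + 2 - j)) * (r.factorial : K)
        = NN y (k + 1) j * (((r + 2).factorial : ℕ) : K) := by
          rw [hfac, hR1, hR2]; ring
      _ = - (y - k - j) * ((3 * (j : K) - 2 * y) / 2 *
            ∏ l ∈ Finset.Icc 1 r, ((k : K) + j - l - y)) := by rw [hN1]; ring
      _ = NN y k j * ((y - 2 * j + k) * (y - k - j)) * (r.factorial : K) := by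
          have := hN0
          calc _ = (y - k - j) * (- ((3 * (j : K) - 2 * y) / 2 *
                ∏ l ∈ Finset.Icc 1 r, ((k : K) + j - l - y))) := by ring
            _ = _ := by rw [← hN0]; ring
  exact mul_right_cancel₀ hf key

theorem ma1_t1 (s a A1 A2 A3 b B1 D q1 F w D' I1 c C1 N : K) (h2 : (2 : K) ≠ 0) (hB : B1 ≠ 0)
    (hq : q1 ≠ 0) (hF : F ≠ 0) (hw : w ≠ 0) (hD : D' ≠ 0) (hI : I1 ≠ 0) (hc : c ≠ 0)
    (hC : C1 ≠ 0) :
    (-s * (a * A1 * A2) * A3 * (b * B1) * D /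
      (B1 * (q1 * F) * (w * 2) * (D' * I1) * (c * C1))) * N =
    - (s * a * b * D * N / (F * w * D' * I1 * c)) * (A1 * A2 * A3 / (2 * q1 * C1)) := by
  field_simp

theorem ma1_t2 (s a A3 b D F w D' I1 c N r1 r2 r3 G2 H1 H2 G5 G6 E3 E4 E5 E6 p1 p2 : K)
    (h2 : (2 : K) ≠ 0) (hF : F ≠ 0) (hw : w ≠ 0) (hD : D' ≠ 0) (hI : I1 ≠ 0) (hc : c ≠ 0)
    (hG2 : G2 ≠ 0) (hH1 : H1 ≠ 0) (hH2 : H2 ≠ 0) (hG5 : G5 ≠ 0) (hG6 : G6 ≠ 0)
    (hE3 : E3 ≠ 0) (hE4 : E4 ≠ 0) (hE5 : E5 ≠ 0) (hE6 : E6 ≠ 0) :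
    (r1 * r2 * r3 * G2 * H1 * H2 / (2 * I1 * E3 * E4 * G5 * G6 * E5)) *
      ((s * a * A3 * (p1 * p2 * b / (H1 * H2)) * D / (G2 * F * w * D' * (E6 * c / G5))) * N) =
    (s * a * b * D * N / (F * w * D' * I1 * c)) *
      (r1 * r2 * r3 * A3 * p1 * p2 / (2 * E3 * E4 * G6 * E5 * E6)) := by
  field_simp

theorem ma1_t3 (s a b D F w D' I1 c N x1 x2 z k1 Z E3 E4 E5 : K)
    (hF : F ≠ 0) (hw : w ≠ 0) (hD : D' ≠ 0) (hI : I1 ≠ 0) (hc : c ≠ 0)
    (hx1 : x1 ≠ 0) (hx2 : x2 ≠ 0) (hE3 : E3 ≠ 0) (hE4 : E4 ≠ 0) (hE5 : E5 ≠ 0) :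
    (-s * x2 * x1 * z * a * b * (D * k1) * (N * Z / (x1 * x2)) /
      (F * w * (D' * I1) * E3 * E4 * E5 * c)) =
    - (s * a * b * D * N / (F * w * D' * I1 * c)) * (z * k1 * Z / (E3 * E4 * E5)) := by
  field_simp

theorem ma1_t4 (s a A1 b D q1 F w D' I1 c N u1 u2 u3 u4 p2 E3 E4 E5 E6 : K) (h2 : (2 : K) ≠ 0)
    (hq : q1 ≠ 0) (hF : F ≠ 0) (hw : w ≠ 0) (hD : D' ≠ 0) (hI : I1 ≠ 0) (hc : c ≠ 0)
    (hE3 : E3 ≠ 0) (hE4 : E4 ≠ 0) (hE5 : E5 ≠ 0) (hE6 : E6 ≠ 0) :
    (-(-s) * u1 * u2 * u3 * (u4 * (a * A1)) * (p2 * b) * D * N /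
      ((q1 * F) * (w * 2) * (D' * I1) * E3 * E4 * E5 * (E6 * c))) =
    (s * a * b * D * N / (F * w * D' * I1 * c)) *
      (u1 * u2 * u3 * u4 * A1 * p2 / (2 * q1 * E3 * E4 * E5 * E6)) := by
  field_simp

theorem ma1_comb (al be ga et e E2 E3 E4 E5 E6 : K) (h2 : (2 : K) ≠ 0) (he : e ≠ 0)
    (hE2 : E2 ≠ 0) (hE3 : E3 ≠ 0) (hE4 : E4 ≠ 0) (hE5 : E5 ≠ 0) (hE6 : E6 ≠ 0)
    (h : E3 * E4 * E5 * al * E6 + be * e = ga * (2 * e) * E2 * E6 + et * E2) :
    - (al / (2 * e * E2)) - be / (2 * E3 * E4 * E2 * E5 * E6) =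
      - (ga / (E3 * E4 * E5)) - et / (2 * e * E3 * E4 * E5 * E6) := by
  field_simp
  linear_combination -h

/-- the algebra behind the telescoping step -/
theorem ma1_alg (y k q j a b c D D' F w s N N1 P0 Q0 : K)
    (h2 : (2 : K) ≠ 0) (hF : F ≠ 0) (hw : w ≠ 0) (hD' : D' ≠ 0) (hc : c ≠ 0)
    (hq : q + 1 ≠ 0) (hi : 2 * (k + q) + 1 ≠ 0)
    (h1 : y - (3 * k + 3 * q + 1) ≠ 0) (h1' : y - (3 * k + 3 * q + 2) ≠ 0)
    (h3 : y - (3 * k + 3 * q + 3) ≠ 0) (h4 : y - (3 * k + 3 * q) ≠ 0)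
    (h5 : y - (2 * k + 2 * q) ≠ 0) (h6 : y - (2 * k + 2 * q + 1) ≠ 0)
    (h7 : y - (2 * k + q) ≠ 0)
    (h8 : 2 * (k + q) + 2 - j ≠ 0) (h9 : 2 * (k + q) + 1 - j ≠ 0)
    (h10 : y - (k + q + j + 1) ≠ 0)
    (h11 : 2 * k + 1 - j ≠ 0) (h12 : 2 * k + 2 - j ≠ 0)
    (hP : P0 * ((y - (3 * k + 3 * q + 1)) * (y - (3 * k + 3 * q + 2))) =
      (y - (3 * k + 2 * q + 1)) * (y - (3 * k + 2 * q + 2)) * b)
    (hQ : Q0 * (y - (2 * k + 2 * q)) = (y - (2 * k + q)) * c)
    (hN : N1 * ((2 * k + 1 - j) * (2 * k + 2 - j)) = N * ((y - 2 * j + k) * (y - k - j))) :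
    (-s * (a * (y - (k + 2 * q)) * (y - (k + 2 * q + 1))) * (y - 3 * k) *
        (b * (y - (3 * k + 3 * q + 3))) * D /
      ((y - 3 * (k + q + 1)) * ((q + 1) * F) * (w * 2) * (D' * (2 * (k + q) + 1)) *
        (c * (y - (2 * k + 2 * q + 1))))) * N -
      ((j - (k + q)) * (2 * y - 2 * (k + q) - j) * (2 * y - 2 * (k + q) - j - 1) *
          (y - 3 * (k + q)) * (y - 3 * (k + q) - 1) * (y - 3 * (k + q) - 2) /
        (2 * (2 * (k + q) + 1) * (2 * (k + q) + 2 - j) * (2 * (k + q) + 1 - j) *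
          (y - 2 * (k + q)) * (y - 2 * (k + q) - 1) * (y - (k + q) - j - 1))) *
        ((s * a * (y - 3 * k) * P0 * D / ((y - 3 * (k + q)) * F * w * D' * Q0)) * N) =
    (-s * (2 * (k + 1) - j) * (2 * (k + 1) - j - 1) * (y - j - (k + 1)) * a * b *
        (D * (2 * k + 1)) * N1 /
      (F * w * (D' * (2 * (k + q) + 1)) * (2 * (k + q) + 2 - j) * (2 * (k + q) + 1 - j) *
        (y - j - (k + q) - 1) * c)) -
    (-(-s) * (2 * k - j) * (2 * k - j - 1) * (y - j - k) *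
        ((y - (k - 1)) * (a * (y - (k + 2 * q)))) * ((y - (3 * k + 2 * q + 2)) * b) * D * N /
      (((q + 1) * F) * (w * 2) * (D' * (2 * (k + q) + 1)) * (2 * (k + q) + 2 - j) *
        (2 * (k + q) + 1 - j) * (y - j - (k + q) - 1) * ((y - (2 * k + q)) * c))) := by
  have eN : N1 = N * ((y - 2 * j + k) * (y - k - j)) / ((2 * k + 1 - j) * (2 * k + 2 - j)) := by
    rw [eq_div_iff (mul_ne_zero h11 h12), hN]
  have eP : P0 = (y - (3 * k + 2 * q + 1)) * (y - (3 * k + 2 * q + 2)) * b /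
      ((y - (3 * k + 3 * q + 1)) * (y - (3 * k + 3 * q + 2))) := by
    rw [eq_div_iff (mul_ne_zero h1 h1'), hP]
  have eQ : Q0 = (y - (2 * k + q)) * c / (y - (2 * k + 2 * q)) := by
    rw [eq_div_iff h5, hQ]
  have e0 : y - 3 * (k + q + 1) = y - (3 * k + 3 * q + 3) := by ring
  have e1 : y - 3 * (k + q) - 1 = y - (3 * k + 3 * q + 1) := by ring
  have e2 : y - 3 * (k + q) - 2 = y - (3 * k + 3 * q + 2) := by ring
  have e3 : y - 2 * (k + q) = y - (2 * k + 2 * q) := by ring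
  have e4 : y - 2 * (k + q) - 1 = y - (2 * k + 2 * q + 1) := by ring
  have e5 : y - (k + q) - j - 1 = y - (k + q + j + 1) := by ring
  have e6 : y - j - (k + q) - 1 = y - (k + q + j + 1) := by ring
  have e7 : 2 * (k + 1) - j - 1 = 2 * k + 1 - j := by ring
  have e8 : 2 * (k + 1) - j = 2 * k + 2 - j := by ring
  have e9 : y - 3 * (k + q) = y - (3 * k + 3 * q) := by ring
  rw [eN, eP, eQ, e0, e1, e2, e4, e3, e5, e6, e7, e8, e9]
  rw [ma1_t1 s a _ _ _ b _ D _ F w D' _ c _ N h2 h3 hq hF hw hD' hi hc h6,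
    ma1_t2 s a _ b D F w D' _ c N _ _ _ _ _ _ _ _ _ _ _ _ _ _ h2 hF hw hD' hi hc h4 h1 h1' h5 h6
      h8 h9 h10 h7,
    ma1_t3 s a b D F w D' _ c N _ _ _ _ _ _ _ _ hF hw hD' hi hc h11 h12 h8 h9 h10,
    ma1_t4 s a _ b D _ F w D' _ c N _ _ _ _ _ _ _ _ _ h2 hq hF hw hD' hi hc h8 h9 h10 h7]
  have main := ma1_comb ((y - (k + 2 * q)) * (y - (k + 2 * q + 1)) * (y - 3 * k))
    ((j - (k + q)) * (2 * y - 2 * (k + q) - j) * (2 * y - 2 * (k + q) - j - 1) *
        (y - 3 * k) * (y - (3 * k + 2 * q + 1)) * (y - (3 * k + 2 * q + 2)))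
    ((y - j - (k + 1)) * (2 * k + 1) * ((y - 2 * j + k) * (y - k - j)))
    ((2 * k - j) * (2 * k - j - 1) * (y - j - k) * (y - (k - 1)) * (y - (k + 2 * q)) *
        (y - (3 * k + 2 * q + 2)))
    (q + 1) (y - (2 * k + 2 * q + 1)) (2 * (k + q) + 2 - j) (2 * (k + q) + 1 - j)
    (y - (k + q + j + 1)) (y - (2 * k + q)) h2 hq h6 h8 h9 h10 h7
    (by linear_combination wz_poly (k + q) j k y)
  linear_combination (s * a * b * D * N / (F * w * D' * (2 * (k + q) + 1) * c)) * main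

theorem wzStep : SpWzStep := by
  intro K _ _ y hy i j k hi hj hji hki
  obtain ⟨q, rfl⟩ := Nat.exists_eq_add_of_le hki
  by_cases h2k : 2 * k < j
  · have hN : NN y k j = 0 := by
      unfold NN
      rw [if_pos h2k]
    have hg : gg y (k + q) j k = 0 := by
      unfold gg
      rw [if_pos h2k]
    have hg1 : gg y (k + q) j (k + 1) = 0 := by
      unfold gg
      by_cases h3 : 2 * (k + 1) < j
      · rw [if_pos h3]
      · rw [if_neg h3]
        have h4 : (2 * ((k + 1 : ℕ) : K) - j) * (2 * ((k + 1 : ℕ) : K) - j - 1) = 0 := by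
          rcases (show 2 * (k + 1) = j ∨ 2 * (k + 1) = j + 1 by omega) with h5 | h5
          · have : 2 * ((k + 1 : ℕ) : K) = (j : K) := by exact_mod_cast h5
            rw [this]; ring
          · have : 2 * ((k + 1 : ℕ) : K) = (j : K) + 1 := by exact_mod_cast h5
            rw [this]; ring
        rw [div_eq_zero_iff]
        left
        have e : ∀ (A1 A2 B C E F G H : K), A1 * A2 = 0 → -B * A1 * A2 * C * E * F * G * H = 0 := by
          intro A1 A2 B C E F G H h0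
          linear_combination (-B * C * E * F * G * H) * h0
        exact e _ _ _ _ _ _ _ _ h4
    rw [hN, hg, hg1]
    ring
  · have hjk : j ≤ 2 * k := by omega
    have e1 : k + q + 1 - k = q + 1 := by omega
    have e2 : k + q - k = q := by omega
    have e3 : k + q + 1 - (k + 1) = q := by omega
    have n1 : ¬ (k + q + 1 < k) := by omega
    have n2 : ¬ (k + q < k) := by omega
    have n3 : ¬ (2 * (k + 1) < j) := by omega
    have hgen : ∀ m : ℤ, y - (m : K) ≠ 0 := fun m => ma1_gen_sub hy m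
    set a := pr y (k : ℤ) (2 * q) with ha
    set b := pr y ((3 * k + 2 * q + 3 : ℕ) : ℤ) q with hb
    set c := pr y ((2 * k + q + 1 : ℕ) : ℤ) q with hc
    have p1 : pr y (k : ℤ) (2 * (q + 1)) = a * (y - ((k : K) + 2 * q)) *
        (y - ((k : K) + 2 * q + 1)) := by
      rw [show 2 * (q + 1) = (2 * q + 1) + 1 by ring, ma1_pr_succ, ma1_pr_succ, ← ha]
      push_cast
      ring
    have p2 : pr y ((k : ℤ) + 2 * ((k + q + 1 : ℕ) : ℤ) + 1) (q + 1) =
        b * (y - (3 * (k : K) + 3 * q + 3)) := by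
      rw [show (k : ℤ) + 2 * ((k + q + 1 : ℕ) : ℤ) + 1 = ((3 * k + 2 * q + 3 : ℕ) : ℤ) by
        push_cast; ring, ma1_pr_succ, ← hb]
      push_cast
      ring
    have p3 : pr y ((k : ℤ) + ((k + q + 1 : ℕ) : ℤ)) (q + 1) =
        c * (y - (2 * (k : K) + 2 * q + 1)) := by
      rw [show (k : ℤ) + ((k + q + 1 : ℕ) : ℤ) = ((2 * k + q + 1 : ℕ) : ℤ) by
        push_cast; ring, ma1_pr_succ, ← hc]
      push_cast
      ring
    set P0 := pr y ((k : ℤ) + 2 * ((k + q : ℕ) : ℤ) + 1) q with hP0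
    set Q0 := pr y ((k : ℤ) + ((k + q : ℕ) : ℤ)) q with hQ0
    have p4 : P0 * ((y - (3 * (k : K) + 3 * q + 1)) * (y - (3 * (k : K) + 3 * q + 2))) =
        (y - (3 * (k : K) + 2 * q + 1)) * (y - (3 * (k : K) + 2 * q + 2)) * b := by
      have h1 : pr y ((k : ℤ) + 2 * ((k + q : ℕ) : ℤ) + 1) (q + 2) =
          P0 * ((y - (3 * (k : K) + 3 * q + 1)) * (y - (3 * (k : K) + 3 * q + 2))) := by
        rw [show q + 2 = (q + 1) + 1 by ring, ma1_pr_succ, ma1_pr_succ, ← hP0]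
        push_cast
        ring
      have h2 : pr y ((k : ℤ) + 2 * ((k + q : ℕ) : ℤ) + 1) (q + 2) =
          (y - (3 * (k : K) + 2 * q + 1)) * (y - (3 * (k : K) + 2 * q + 2)) * b := by
        rw [show q + 2 = (q + 1) + 1 by ring, ma1_pr_succ', ma1_pr_succ',
          show (k : ℤ) + 2 * ((k + q : ℕ) : ℤ) + 1 + 1 + 1 = ((3 * k + 2 * q + 3 : ℕ) : ℤ) by
            push_cast; ring, ← hb]
        push_cast
        ring
      rw [← h1, h2]
    have p5 : Q0 * (y - (2 * (k : K) + 2 * q)) = (y - (2 * (k : K) + q)) * c := by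
      have h1 : pr y ((k : ℤ) + ((k + q : ℕ) : ℤ)) (q + 1) = Q0 * (y - (2 * (k : K) + 2 * q)) := by
        rw [ma1_pr_succ, ← hQ0]
        push_cast
        ring
      have h2 : pr y ((k : ℤ) + ((k + q : ℕ) : ℤ)) (q + 1) = (y - (2 * (k : K) + q)) * c := by
        rw [ma1_pr_succ', show (k : ℤ) + ((k + q : ℕ) : ℤ) + 1 = ((2 * k + q + 1 : ℕ) : ℤ) by
            push_cast; ring, ← hc]
        push_cast
        ring
      rw [← h1, h2]
    have p6 : pr y ((k : ℤ) - 1) (2 * (q + 1)) = (y - ((k : K) - 1)) * (a * (y - ((k : K) + 2 * q))) := by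
      rw [show 2 * (q + 1) = (2 * q + 1) + 1 by ring, ma1_pr_succ',
        show (k : ℤ) - 1 + 1 = (k : ℤ) by ring, ma1_pr_succ, ← ha]
      push_cast
      ring
    have p7 : pr y ((k : ℤ) + 2 * ((k + q : ℕ) : ℤ) + 2) (q + 1) =
        (y - (3 * (k : K) + 2 * q + 2)) * b := by
      rw [ma1_pr_succ', show (k : ℤ) + 2 * ((k + q : ℕ) : ℤ) + 2 + 1 = ((3 * k + 2 * q + 3 : ℕ) : ℤ) by
            push_cast; ring, ← hb]
      push_cast
      ring
    have p8 : pr y ((k : ℤ) + ((k + q : ℕ) : ℤ)) (q + 1) = (y - (2 * (k : K) + q)) * c := by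
      rw [ma1_pr_succ', show (k : ℤ) + ((k + q : ℕ) : ℤ) + 1 = ((2 * k + q + 1 : ℕ) : ℤ) by
            push_cast; ring, ← hc]
      push_cast
      ring
    have p9 : pr y (((k + 1 : ℕ) : ℤ) - 1) (2 * q) = a := by
      rw [show ((k + 1 : ℕ) : ℤ) - 1 = (k : ℤ) by push_cast; ring]
    have p10 : pr y (((k + 1 : ℕ) : ℤ) + 2 * ((k + q : ℕ) : ℤ) + 2) q = b := by
      rw [show ((k + 1 : ℕ) : ℤ) + 2 * ((k + q : ℕ) : ℤ) + 2 = ((3 * k + 2 * q + 3 : ℕ) : ℤ) by
            push_cast; ring]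
    have p11 : pr y (((k + 1 : ℕ) : ℤ) + ((k + q : ℕ) : ℤ)) q = c := by
      rw [show ((k + 1 : ℕ) : ℤ) + ((k + q : ℕ) : ℤ) = ((2 * k + q + 1 : ℕ) : ℤ) by
            push_cast; ring]
    have hfac : (((q + 1).factorial : ℕ) : K) = ((q : K) + 1) * (q.factorial : K) := by
      rw [Nat.factorial_succ]
      push_cast
      ring
    have A1 : AA y (k + q + 1) k = -(-1) ^ q * (a * (y - ((k : K) + 2 * q)) *
        (y - ((k : K) + 2 * q + 1))) * (y - 3 * (k : K)) *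
        (b * (y - (3 * (k : K) + 3 * q + 3))) * dfac K k /
      ((y - 3 * ((k : K) + q + 1)) * (((q : K) + 1) * (q.factorial : K)) * (2 ^ q * 2) *
        (dfac K (k + q) * (2 * ((k : K) + q) + 1)) * (c * (y - (2 * (k : K) + 2 * q + 1)))) := by
      unfold AA
      rw [if_neg n1, e1, p1, p2, p3, ma1_dfac_succ, hfac, pow_succ, pow_succ]
      push_cast
      ring
    have A0 : AA y (k + q) k = (-1) ^ q * a * (y - 3 * (k : K)) * P0 * dfac K k /
        ((y - 3 * ((k : K) + q)) * (q.factorial : K) * 2 ^ q * dfac K (k + q) * Q0) := by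
      unfold AA
      rw [if_neg n2, e2, ← ha, ← hP0, ← hQ0]
      push_cast
      ring
    have G0 : gg y (k + q) j k = -(-(-1) ^ q) * (2 * (k : K) - j) * (2 * (k : K) - j - 1) *
        (y - j - (k : K)) * ((y - ((k : K) - 1)) * (a * (y - ((k : K) + 2 * q)))) *
        ((y - (3 * (k : K) + 2 * q + 2)) * b) * dfac K k * NN y k j /
      ((((q : K) + 1) * (q.factorial : K)) * (2 ^ q * 2) * (dfac K (k + q) *
        (2 * ((k : K) + q) + 1)) * (2 * ((k : K) + q) + 2 - j) *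
        (2 * ((k : K) + q) + 1 - j) * (y - j - ((k : K) + q) - 1) *
        ((y - (2 * (k : K) + q)) * c)) := by
      unfold gg
      rw [if_neg h2k, e1, p6, p7, p8, ma1_dfac_succ, hfac, pow_succ, pow_succ]
      push_cast
      ring
    have G1 : gg y (k + q) j (k + 1) = -(-1) ^ q * (2 * ((k : K) + 1) - j) *
        (2 * ((k : K) + 1) - j - 1) * (y - j - ((k : K) + 1)) * a * b *
        (dfac K k * (2 * (k : K) + 1)) * NN y (k + 1) j /
      ((q.factorial : K) * 2 ^ q * (dfac K (k + q) * (2 * ((k : K) + q) + 1)) *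
        (2 * ((k : K) + q) + 2 - j) * (2 * ((k : K) + q) + 1 - j) *
        (y - j - ((k : K) + q) - 1) * c) := by
      unfold gg
      rw [if_neg n3, e3, p9, p10, p11, ma1_dfac_succ, ma1_dfac_succ]
      push_cast
      ring
    have R : rho y (k + q) j = (((j : K) - ((k : K) + q)) * (2 * y - 2 * ((k : K) + q) - j) *
          (2 * y - 2 * ((k : K) + q) - j - 1) *
          (y - 3 * ((k : K) + q)) * (y - 3 * ((k : K) + q) - 1) * (y - 3 * ((k : K) + q) - 2) /
        (2 * (2 * ((k : K) + q) + 1) * (2 * ((k : K) + q) + 2 - j) *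
          (2 * ((k : K) + q) + 1 - j) *
          (y - 2 * ((k : K) + q)) * (y - 2 * ((k : K) + q) - 1) *
          (y - ((k : K) + q) - j - 1))) := by
      unfold rho
      push_cast
      ring
    rw [A1, A0, G0, G1, R]
    have nz : ∀ m : ℤ, m ≠ 0 → (m : K) ≠ 0 := fun m hm => by exact_mod_cast hm
    refine ma1_alg y k q j a b c (dfac K k) (dfac K (k + q)) (q.factorial : K) (2 ^ q) ((-1) ^ q)
      (NN y k j) (NN y (k + 1) j) P0 Q0 two_ne_zero ?_ (pow_ne_zero _ two_ne_zero)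
      (ma1_dfac_ne _) (ma1_pr_ne hy _ _) ?_ ?_ ?_ ?_ ?_ ?_ ?_ ?_ ?_ ?_ ?_ ?_ ?_ ?_ p4 p5
      (ma1_NN_succ y k j hjk)
    · exact_mod_cast Nat.factorial_ne_zero q
    · exact_mod_cast Nat.succ_ne_zero q
    · exact_mod_cast Nat.succ_ne_zero (2 * (k + q))
    · have := hgen (3 * k + 3 * q + 1); push_cast at this; exact this
    · have := hgen (3 * k + 3 * q + 2); push_cast at this; exact this
    · have := hgen (3 * k + 3 * q + 3); push_cast at this; exact this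
    · have := hgen (3 * k + 3 * q); push_cast at this; exact this
    · have := hgen (2 * k + 2 * q); push_cast at this; exact this
    · have := hgen (2 * k + 2 * q + 1); push_cast at this; exact this
    · have := hgen (2 * k + q); push_cast at this; exact this
    · have := nz (2 * (k + q) + 2 - j) (by omega); push_cast at this; exact this
    · have := nz (2 * (k + q) + 1 - j) (by omega); push_cast at this; exact this
    · have := hgen (k + q + j + 1); push_cast at this; exact this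
    · have := nz (2 * k + 1 - j) (by omega); push_cast at this; exact this
    · have := nz (2 * k + 2 - j) (by omega); push_cast at this; exact this

end GH.Mat
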