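import Pool.Agent.GH.Mat.Spec

/-!
# GH-MAT, row MA2: the value of the certificate at the top
-/

noncomputable section

namespace GH.Mat

theorem ma2_dfac_ne {K : Type*} [Field K] [CharZero K] (k : ℕ) : dfac K k ≠ 0 := by
  unfold dfac
  refine Finset.prod_ne_zero_iff.2 fun t _ ↦ ?_
  have h : ((2 * t + 1 : ℕ) : K) ≠ 0 := Nat.cast_ne_zero.2 (by omega)
  push_cast at h
  exact h

/-- MA2. -/
theorem wzTop : SpWzTop := by
  intro K _ _ y hy i j hi hj hji
  have h1 : ((2 : K) * i + 2 - j) ≠ 0 := by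
    have h : (((2 * i + 2 - j : ℕ) : ℕ) : K) ≠ 0 := Nat.cast_ne_zero.2 (by omega)
    rw [Nat.cast_sub (by omega)] at h
    push_cast at h
    exact h
  have h2 : ((2 : K) * i + 1 - j) ≠ 0 := by
    have h : (((2 * i + 1 - j : ℕ) : ℕ) : K) ≠ 0 := Nat.cast_ne_zero.2 (by omega)
    rw [Nat.cast_sub (by omega)] at h
    push_cast at h
    exact h
  have h3 : (y - j - i - 1) ≠ 0 := by
    intro h
    apply hy (2 * (j + i + 1))
    push_cast
    linear_combination 2 * h
  have h4 := ma2_dfac_ne (K := K) (i + 1)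
  have h5 : ¬ 2 * (i + 1) < j := by omega
  unfold gg
  rw [if_neg h5]
  simp only [Nat.sub_self, mul_zero, pr, Finset.range_zero, Finset.prod_empty, pow_zero,
    Nat.factorial_zero, Nat.cast_one, mul_one, one_mul]
  push_cast
  rw [div_eq_iff (by
    refine mul_ne_zero (mul_ne_zero (mul_ne_zero h4 h1) h2) h3)]
  ring

end GH.Mat
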