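import Pool.Agent.GH.Mat.ANB
import Pool.Agent.GH.Mat.Abs
import Pool.Agent.GH.Mat.Asm
import Pool.Agent.GH.Mat.CorankM
import Pool.Agent.GH.Mat.Det
import Pool.Agent.GH.Mat.Lead
import Pool.Agent.GH.Mat.MMrel
import Pool.Agent.GH.Mat.Minor
import Pool.Agent.GH.Mat.RankMM
import Pool.Agent.GH.Mat.Rec
import Pool.Agent.GH.Mat.Root
import Pool.Agent.GH.Mat.TentInc
import Pool.Agent.GH.Mat.WzStep
import Pool.Agent.GH.Mat.WzTop

/-!
# GH-MAT: main theorems

The input of the potential theory (`spMat`), the values of the leading minors (`spDD`) and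
their norms (`minor_of`), from `SpANB`, which is proved (`spANB`).
-/

noncomputable section

namespace GH.Mat

theorem spMM : SpMM := mmrel

theorem spEval : SpEval := evalPM mmrel

theorem spANB_of (h1 : SpWzStep) (h3 : SpRec) : SpANB := anb h1 wzTop h3

theorem spANB : SpANB := anb wzStep wzTop recB

theorem spDet_of (hA : SpANB) : SpDet := detPM hA mmrel spEval

theorem spLead_of (hA : SpANB) : SpLead := leadPM (spDet_of hA) tentInc

theorem spMat_of (hA : SpANB) : SpMat :=
  matPM (spLead_of hA) (rootPM hA spMM spEval absRoot) (corankPM rankMM spEval)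

theorem spDD : SpDD := ddPM spEval

theorem spNormD_of (hA : SpANB) : SpNormD := normD spDD (spLead_of hA)

theorem spNormGhost : SpNormGhost := fun _ hx n ↦ norm_ghost_wx hx n

theorem spGhost_of (hA : SpANB) : SpGhost := ghostD (spNormD_of hA) spNormGhost multTent

theorem minor_of (hA : SpANB) : ∀ x : C2, ‖x‖ ≤ 1 →
    (‖x - 1‖ = 1 → ∀ n : ℕ, ‖(Cen.blk (Mmat x) n).det‖ = ‖ghost 2 (wx x) n‖) ∧
    (‖x - 1‖ < 1 → ∀ n : ℕ, ‖(Cen.blk (Modd x) n).det‖ = ‖ghost 2 (wx x) n‖) :=
  minorStatement (spDet_of hA) spDD (spGhost_of hA)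

end GH.Mat
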