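import Pool.Agent.GH.Mat.Spec

/-!
# GH-MAT MA4: `A N = B`
-/

noncomputable section

namespace GH.Mat

/-- MA4: `A N = B`. -/
theorem anb (h1 : SpWzStep) (h2 : SpWzTop) (h3 : SpRec) : SpANB := by
  intro K _ _ y hy i j hi hj
  obtain ⟨hA, hB, hC, hD⟩ := h3 K y hy
  have hN0 : ∀ k, 2 * k < j → NN y k j = 0 := by
    intro k hk
    unfold NN
    rw [if_pos hk]
  induction i with
  | zero => omega
  | succ i ih =>
    rcases Nat.lt_or_ge (2 * (i + 1)) j with hlt | hge
    · rw [Finset.sum_eq_zero]
      · unfold BB uu
        rw [if_neg (by omega), if_pos hlt, mul_zero]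
      · intro k hk
        rw [Finset.mem_range] at hk
        rw [hN0 k (by omega), mul_zero]
    · rcases Nat.lt_or_ge (2 * i) j with hlt2 | hge2
      · rw [Finset.sum_range_succ, Finset.sum_eq_zero, zero_add, hA (i + 1) hi, one_mul]
        · have hcase : j = 2 * i + 1 ∨ j = 2 * i + 2 := by omega
          rcases hcase with hj1 | hj1
          · rw [hj1, hC i]
          · rw [hj1, hD i]
        · intro k hk
          rw [Finset.mem_range] at hk
          rw [hN0 k (by omega), mul_zero]
      · have hi1 : 1 ≤ i := by omega
        have hS := ih hi1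
        have h4 : ∑ k ∈ Finset.range (i + 1), (AA y (i + 1) k * NN y k j -
            rho y i j * (AA y i k * NN y k j)) = gg y i j (i + 1) - gg y i j 0 := by
          rw [← Finset.sum_range_sub]
          apply Finset.sum_congr rfl
          intro k hk
          rw [Finset.mem_range] at hk
          exact h1 K y hy i j k hi1 hj hge2 (by omega)
        have h5 : gg y i j 0 = 0 := by
          unfold gg
          rw [if_pos (by omega)]
        rw [h5, sub_zero, h2 K y hy i j hi1 hj hge2, Finset.sum_sub_distrib, ← Finset.mul_sum,
          hS] at h4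
        rw [Finset.sum_range_succ, hA (i + 1) hi, one_mul, hB i j hi1 hj hge2]
        linear_combination h4

end GH.Mat
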