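import Pool.Agent.GH.Cen.Defs

/-!
# GH-MAT: explicit matrices

`M'_ij(y) = 4^(i+j) N_ij(y)` (even disc), `N_ij(y) = [t^(2i-j)] (1 + t/2) (1 + t)^(i+j-1-y)`; the
odd matrix is `4^(i+j) (3i-y) N_ij(y) 2/(3j-2y)`. `A N = B` with `A` lower unitriangular and `B`
upper triangular, all three explicit products.
-/

noncomputable section

namespace GH.Mat

section

variable {K : Type*} [Field K]

/-- `∏_{t < n} (y - (a + t))`. -/
def pr (y : K) (a : ℤ) (n : ℕ) : K := ∏ t ∈ Finset.range n, (y - ((a + t : ℤ) : K))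

/-- `(2k-1)!!`. -/
def dfac (K : Type*) [Field K] (k : ℕ) : K := ∏ t ∈ Finset.range k, (2 * (t : K) + 1)

/-- `y` is generic: `2y` is not an integer. -/
def Gen (y : K) : Prop := ∀ m : ℤ, 2 * y ≠ (m : K)

/-- `N_kj(y)`. -/
def NN (y : K) (k j : ℕ) : K :=
  if 2 * k < j then 0 else if 2 * k = j then 1 else
    (3 * (j : K) - 2 * y) / 2 *
      (∏ l ∈ Finset.Icc 1 (2 * k - j - 1), ((k : K) + j - l - y)) / ((2 * k - j).factorial : K)

/-- `A_ik(y)`, lower unitriangular. -/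
def AA (y : K) (i k : ℕ) : K :=
  if i < k then 0 else
    (-1) ^ (i - k) * pr y k (2 * (i - k)) * (y - 3 * k) * pr y (k + 2 * i + 1) (i - k) *
      dfac K k / ((y - 3 * i) * ((i - k).factorial : K) * 2 ^ (i - k) * dfac K i *
        pr y (k + i) (i - k))

/-- The diagonal `B_ii(y)`, `i ≥ 1`. -/
def dd (y : K) (i : ℕ) : K :=
  (-1 / 2) ^ i * (∏ s ∈ Finset.range i, (2 * y - (2 * i + 1 + s))) * pr y (2 * i + 1) (i - 1) /
    (dfac K i * pr y (i + 1) (i - 1))

/-- The entries `B_ij / B_ii`. -/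
def uu (y : K) (i j : ℕ) : K :=
  if j < i then 0 else if 2 * i < j then 0 else
    (-1) ^ (j - i) * (j.factorial : K) /
        (((2 * i - j).factorial : K) * ((j - i).factorial : K) * 2 ^ (j - i)) *
      (2 * y - 3 * j) * (∏ t ∈ Finset.range (j - i), (2 * y - (3 * i + t))) /
      ((2 * y - 3 * i) * (∏ t ∈ Finset.range (j - i), (2 * y - (2 * i + 1 + 2 * t))) *
        pr y (2 * i + 1) (j - i))

/-- `B_ij(y)`. -/
def BB (y : K) (i j : ℕ) : K := dd y i * uu y i j

/-- The factor of the recurrence `S(i+1, j) = rho S(i, j)`. -/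
def rho (y : K) (i j : ℕ) : K :=
  ((j : K) - i) * (2 * y - 2 * i - j) * (2 * y - 2 * i - j - 1) * (y - 3 * i) * (y - 3 * i - 1) *
      (y - 3 * i - 2) /
    (2 * (2 * i + 1) * (2 * i + 2 - j) * (2 * i + 1 - j) * (y - 2 * i) * (y - 2 * i - 1) *
      (y - i - j - 1))

/-- The certificate. -/
def gg (y : K) (i j k : ℕ) : K :=
  if 2 * k < j then 0 else
    -(-1) ^ (i + 1 - k) * (2 * k - j) * (2 * k - j - 1) * (y - j - k) *
        pr y ((k : ℤ) - 1) (2 * (i + 1 - k)) * pr y (k + 2 * i + 2) (i + 1 - k) * dfac K k *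
        NN y k j /
      (((i + 1 - k).factorial : K) * 2 ^ (i + 1 - k) * dfac K (i + 1) * (2 * i + 2 - j) *
        (2 * i + 1 - j) * (y - j - i - 1) * pr y (k + i) (i + 1 - k))

end

end GH.Mat
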