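import Mathlib

/-!
# Ghost conjecture (2,1), matrix layer: the generating function of the columns at an integer

`NI α β i j m = α binom(i+j-1-m, 2i-j) + β binom(i+j-1-m, 2i-j-1)` for integers; with
`z s = (s-1)^2` its generating function in `i` is `A s^(j-m) (s-1)^j + B s^(m-2j) (1-s)^j`.
-/

open Finset

noncomputable section

namespace GH.Mat.Rk

/-- `binom(e, n)` for integers `e`, `n`, zero for `n < 0`. -/
def Ch (e n : ℤ) : ℤ := if n < 0 then 0 else Ring.choose e n.toNat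

theorem Ch_neg {e n : ℤ} (h : n < 0) : Ch e n = 0 := if_pos h

theorem Ch_nat (e : ℤ) (n : ℕ) : Ch e n = Ring.choose e n := by
  rw [Ch, if_neg (by omega), Int.toNat_natCast]

theorem Ch_zero (e : ℤ) : Ch e 0 = 1 := by
  have h := Ch_nat e 0
  rw [Nat.cast_zero] at h
  rw [h, Ring.choose_zero_right]

theorem Ch_one (e : ℤ) : Ch e 1 = e := by
  have h := Ch_nat e 1
  rw [Nat.cast_one] at h
  rw [h, Ring.choose_one_right]

theorem Ch_succ (e n : ℤ) : Ch (e + 1) (n + 1) = Ch e n + Ch e (n + 1) := by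
  rcases lt_trichotomy n (-1) with h | h | h
  · rw [Ch_neg (by omega), Ch_neg (by omega), Ch_neg (by omega), add_zero]
  · subst h
    rw [Ch_neg (by omega : (-1 : ℤ) < 0)]
    norm_num [Ch_zero]
  · obtain ⟨k, rfl⟩ := Int.eq_ofNat_of_zero_le (by omega : 0 ≤ n)
    have h1 : ((k : ℤ) + 1) = ((k + 1 : ℕ) : ℤ) := by push_cast; ring
    rw [h1, Ch_nat, Ch_nat, Ch_nat, Ring.choose_succ_succ]

theorem Ch_big {e n : ℤ} (h : 0 ≤ e) (h2 : e < n) : Ch e n = 0 := by
  obtain ⟨a, rfl⟩ := Int.eq_ofNat_of_zero_le h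
  obtain ⟨b, rfl⟩ := Int.eq_ofNat_of_zero_le (by omega : 0 ≤ n)
  rw [Ch_nat, Ring.choose_natCast, Nat.choose_eq_zero_of_lt (by omega)]
  rfl

/-- The (scaled) matrix entries at the integer `m`. -/
def NI (α β : ℤ) (i j m : ℤ) : ℤ :=
  α * Ch (i + j - 1 - m) (2 * i - j) + β * Ch (i + j - 1 - m) (2 * i - j - 1)

theorem NI_rec1 (α β i j m : ℤ) :
    NI α β i (j + 1) m = NI α β i j (m - 2) - NI α β i j (m - 1) := by
  unfold NI
  have h1 := Ch_succ (i + j - m) (2 * i - j - 1)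
  have h2 := Ch_succ (i + j - m) (2 * i - j - 2)
  have e1 : i + (j + 1) - 1 - m = i + j - m := by ring
  have e2 : i + j - 1 - (m - 2) = i + j - m + 1 := by ring
  have e3 : i + j - 1 - (m - 1) = i + j - m := by ring
  have e4 : 2 * i - (j + 1) = 2 * i - j - 1 := by ring
  have e5 : 2 * i - j - 1 - 1 = 2 * i - j - 2 := by ring
  have e6 : 2 * i - j - 1 + 1 = 2 * i - j := by ring
  have e7 : 2 * i - j - 2 + 1 = 2 * i - j - 1 := by ring
  rw [e6] at h1
  rw [e7] at h2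
  rw [e1, e2, e3, e4, e5, h1, h2]
  ring

theorem NI_rec2 (α β i j m : ℤ) :
    NI α β i j (m + 1) + NI α β i j (m - 1) - 2 * NI α β i j m = NI α β (i - 1) j m := by
  unfold NI
  have e1 : i + j - 1 - (m + 1) = i + j - 2 - m := by ring
  have e2 : i + j - 1 - (m - 1) = i + j - 2 - m + 1 + 1 := by ring
  have e3 : i + j - 1 - m = i + j - 2 - m + 1 := by ring
  have e4 : i - 1 + j - 1 - m = i + j - 2 - m := by ring
  have e5 : 2 * (i - 1) - j = 2 * i - j - 2 := by ring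
  have e6 : 2 * i - j - 2 - 1 = 2 * i - j - 3 := by ring
  rw [e1, e2, e3, e4, e5, e6]
  set E := i + j - 2 - m
  have h1 := Ch_succ (E + 1) (2 * i - j - 1)
  have h2 := Ch_succ (E + 1) (2 * i - j - 2)
  have h3 := Ch_succ E (2 * i - j - 1)
  have h4 := Ch_succ E (2 * i - j - 2)
  have h5 := Ch_succ E (2 * i - j - 3)
  have e7 : 2 * i - j - 1 + 1 = 2 * i - j := by ring
  have e8 : 2 * i - j - 2 + 1 = 2 * i - j - 1 := by ring
  have e9 : 2 * i - j - 3 + 1 = 2 * i - j - 2 := by ring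
  rw [e7] at h1 h3
  rw [e8] at h2 h4
  rw [e9] at h5
  rw [h1, h2, h4, h3, h5]
  ring

section Gen

variable {K : Type*} [Field K] (α β : ℤ) (A B s z : K)

/-- The sum of the generating function. -/
def GG (j : ℕ) (m : ℤ) : K :=
  A * s ^ ((j : ℤ) - m) * (s - 1) ^ j + B * s ^ (m - 2 * (j : ℤ)) * (1 - s) ^ j

variable {α β A B s z}

theorem GG_rec1 (hs : s ≠ 0) (j : ℕ) (m : ℤ) :
    GG A B s (j + 1) m = GG A B s j (m - 2) - GG A B s j (m - 1) := by
  unfold GG
  have e1 : (((j + 1 : ℕ) : ℤ)) - m = ((j : ℤ) - m) + 1 := by push_cast; ring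
  have e2 : (j : ℤ) - (m - 2) = ((j : ℤ) - m) + 2 := by ring
  have e3 : (j : ℤ) - (m - 1) = ((j : ℤ) - m) + 1 := by ring
  have e4 : m - 2 * (((j + 1 : ℕ) : ℤ)) = m - 2 - 2 * (j : ℤ) := by push_cast; ring
  have e5 : m - 1 - 2 * (j : ℤ) = m - 2 - 2 * (j : ℤ) + 1 := by ring
  rw [e1, e2, e3, e4, e5, zpow_add₀ hs, zpow_add₀ hs, zpow_add₀ hs, zpow_one, pow_succ, pow_succ]
  have e6 : s ^ (2 : ℤ) = s ^ 2 := by norm_cast
  rw [e6]
  ring

theorem GG_rec2 (hs : s ≠ 0) (hz : z * s = (s - 1) ^ 2) (j : ℕ) (m : ℤ) :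
    GG A B s j (m + 1) + GG A B s j (m - 1) - 2 * GG A B s j m = z * GG A B s j m := by
  unfold GG
  have e1 : (j : ℤ) - m = ((j : ℤ) - (m + 1)) + 1 := by ring
  have e2 : (j : ℤ) - (m - 1) = ((j : ℤ) - (m + 1)) + 2 := by ring
  have e3 : m + 1 - 2 * (j : ℤ) = m - 1 - 2 * (j : ℤ) + 2 := by ring
  have e4 : m - 2 * (j : ℤ) = m - 1 - 2 * (j : ℤ) + 1 := by ring
  rw [e1, e2, e3, e4, zpow_add₀ hs, zpow_add₀ hs, zpow_add₀ hs, zpow_add₀ hs, zpow_one]
  have e6 : s ^ (2 : ℤ) = s ^ 2 := by norm_cast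
  rw [e6]
  linear_combination (-(A * s ^ ((j : ℤ) - (m + 1)) * (s - 1) ^ j) -
    B * s ^ (m - 1 - 2 * (j : ℤ)) * (1 - s) ^ j) * hz

/-- The partial sums of the generating function. -/
def PS (α β : ℤ) (z : K) (N : ℕ) (j : ℕ) (m : ℤ) : K :=
  ∑ i ∈ range N, (NI α β i j m : K) * z ^ i

theorem PS_shift (N j : ℕ) (m : ℤ) :
    ∑ i ∈ range (N + 1), (NI α β ((i : ℤ) - 1) j m : K) * z ^ i = z * PS α β z N j m := by
  rw [sum_range_succ', PS, mul_sum]
  have h0 : NI α β (((0 : ℕ) : ℤ) - 1) j m = 0 := by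
    unfold NI
    rw [Ch_neg (by push_cast; omega), Ch_neg (by push_cast; omega)]
    ring
  rw [h0, Int.cast_zero, zero_mul, add_zero]
  refine sum_congr rfl fun i _ ↦ ?_
  have e1 : (((i + 1 : ℕ) : ℤ)) - 1 = (i : ℤ) := by push_cast; ring
  rw [e1, pow_succ]
  ring

theorem PS_zero_aux (m : ℤ) (hm : m = 0 ∨ m = 1 ∨ m = -1) (i : ℕ) (hi : 2 ≤ i) :
    NI α β i 0 m = 0 := by
  unfold NI
  rw [Ch_big (by omega) (by omega), Ch_big (by omega) (by omega)]
  ring

theorem PS_small (N : ℕ) (m : ℤ) (hm : m = 0 ∨ m = 1 ∨ m = -1) :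
    PS α β z (N + 2) 0 m = (NI α β 0 0 m : K) + (NI α β 1 0 m : K) * z := by
  rw [PS, add_comm N 2, sum_range_add, sum_range_succ, sum_range_one]
  have h : ∑ x ∈ range N, (NI α β ((2 + x : ℕ) : ℤ) ((0 : ℕ) : ℤ) m : K) * z ^ (2 + x) = 0 := by
    refine sum_eq_zero fun x _ ↦ ?_
    have := PS_zero_aux (α := α) (β := β) m hm (2 + x) (by omega)
    rw [Nat.cast_zero, this, Int.cast_zero, zero_mul]
  rw [h, add_zero]
  norm_num

theorem NI00 (m : ℤ) : NI α β 0 0 m = α := by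
  unfold NI
  rw [Ch_neg (by omega : 2 * (0 : ℤ) - 0 - 1 < 0)]
  norm_num [Ch_zero]

theorem NI10_one : NI α β 1 0 1 = α - β := by
  unfold NI
  have h1 : Ch (-1) 2 = 1 := by
    have h := Ch_succ (-1) 1
    norm_num [Ch_one] at h
    have h2 : Ch 0 2 = 0 := Ch_big le_rfl (by norm_num)
    rw [h2] at h
    omega
  norm_num [Ch_one, h1]
  ring

theorem NI10_neg : NI α β 1 0 (-1) = β := by
  unfold NI
  have h2 : Ch 1 2 = 0 := Ch_big (by norm_num) (by norm_num)
  norm_num [Ch_one, h2]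

theorem NI10_zero : NI α β 1 0 0 = 0 := by
  unfold NI
  have h2 : Ch 0 2 = 0 := Ch_big (by norm_num) (by norm_num)
  norm_num [Ch_one, h2]

theorem gen_zero (hs : s ≠ 0) (hz : z * s = (s - 1) ^ 2) (h1 : A + B = α)
    (h2 : A + B * s ^ 2 = (α + (α - β) * z) * s) (n : ℕ) :
    ∀ m : ℤ, m.natAbs = n → ∀ N : ℕ, n + 2 ≤ N → PS α β z N 0 m = GG A B s 0 m := by
  induction n using Nat.strong_induction_on with
  | _ n ih =>
  intro m hm N hN
  obtain ⟨N, rfl⟩ : ∃ N', N = N' + 2 := ⟨N - 2, by omega⟩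
  rcases Nat.lt_or_ge n 2 with hn | hn
  · have hm' : m = 0 ∨ m = 1 ∨ m = -1 := by omega
    rw [PS_small N m hm']
    rcases hm' with rfl | rfl | rfl
    · rw [NI00, NI10_zero]
      unfold GG
      simp [h1]
    · rw [NI00, NI10_one]
      unfold GG
      have e1 : ((0 : ℕ) : ℤ) - 1 = -1 := by norm_num
      have e2 : (1 : ℤ) - 2 * ((0 : ℕ) : ℤ) = 1 := by norm_num
      rw [e1, e2, zpow_neg_one, zpow_one]
      field_simp
      push_cast
      linear_combination -h2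
    · rw [NI00, NI10_neg]
      unfold GG
      have e1 : ((0 : ℕ) : ℤ) - (-1) = 1 := by norm_num
      have e2 : (-1 : ℤ) - 2 * ((0 : ℕ) : ℤ) = -1 := by norm_num
      rw [e1, e2, zpow_neg_one, zpow_one]
      field_simp
      linear_combination h2 - (s ^ 2 + 1) * h1 + (α : K) * hz
  · -- the two-sided recursion
    rcases lt_or_ge 0 m with hpos | hneg
    · obtain ⟨M, rfl⟩ : ∃ M : ℤ, m = M + 1 := ⟨m - 1, by ring⟩
      have i1 := ih (n - 1) (by omega) M (by omega) (N + 2) (by omega)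
      have i1' := ih (n - 1) (by omega) M (by omega) (N + 1) (by omega)
      have i2 := ih (n - 2) (by omega) (M - 1) (by omega) (N + 2) (by omega)
      have hsh := PS_shift (α := α) (β := β) (z := z) (N + 1) 0 M
      have hg := GG_rec2 (A := A) (B := B) hs hz 0 M
      have key : PS α β z (N + 2) 0 (M + 1) = z * PS α β z (N + 1) 0 M
          + 2 * PS α β z (N + 2) 0 M - PS α β z (N + 2) 0 (M - 1) := by
        rw [← hsh]
        simp only [PS]
        rw [mul_sum, ← sum_add_distrib, ← sum_sub_distrib]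
        refine sum_congr rfl fun i _ ↦ ?_
        have := NI_rec2 α β i ((0 : ℕ) : ℤ) M
        have h3 : (NI α β i ((0 : ℕ) : ℤ) (M + 1) : K) = (NI α β ((i : ℤ) - 1) ((0 : ℕ) : ℤ) M : K)
            + 2 * (NI α β i ((0 : ℕ) : ℤ) M : K) - (NI α β i ((0 : ℕ) : ℤ) (M - 1) : K) := by
          rw [← this]; push_cast; ring
        rw [h3]; ring
      rw [key, i1', i1, i2]
      linear_combination -hg
    · obtain ⟨M, rfl⟩ : ∃ M : ℤ, m = M - 1 := ⟨m + 1, by ring⟩
      have i1 := ih (n - 1) (by omega) M (by omega) (N + 2) (by omega)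
      have i1' := ih (n - 1) (by omega) M (by omega) (N + 1) (by omega)
      have i2 := ih (n - 2) (by omega) (M + 1) (by omega) (N + 2) (by omega)
      have hsh := PS_shift (α := α) (β := β) (z := z) (N + 1) 0 M
      have hg := GG_rec2 (A := A) (B := B) hs hz 0 M
      have key : PS α β z (N + 2) 0 (M - 1) = z * PS α β z (N + 1) 0 M
          + 2 * PS α β z (N + 2) 0 M - PS α β z (N + 2) 0 (M + 1) := by
        rw [← hsh]
        simp only [PS]
        rw [mul_sum, ← sum_add_distrib, ← sum_sub_distrib]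
        refine sum_congr rfl fun i _ ↦ ?_
        have := NI_rec2 α β i ((0 : ℕ) : ℤ) M
        have h3 : (NI α β i ((0 : ℕ) : ℤ) (M - 1) : K) = (NI α β ((i : ℤ) - 1) ((0 : ℕ) : ℤ) M : K)
            + 2 * (NI α β i ((0 : ℕ) : ℤ) M : K) - (NI α β i ((0 : ℕ) : ℤ) (M + 1) : K) := by
          rw [← this]; push_cast; ring
        rw [h3]; ring
      rw [key, i1', i1, i2]
      linear_combination -hg

theorem gen (hs : s ≠ 0) (hz : z * s = (s - 1) ^ 2) (h1 : A + B = α)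
    (h2 : A + B * s ^ 2 = (α + (α - β) * z) * s) (j : ℕ) :
    ∀ m : ℤ, ∀ N : ℕ, m.natAbs + 2 * j + 2 ≤ N → PS α β z N j m = GG A B s j m := by
  induction j with
  | zero =>
    intro m N hN
    exact gen_zero hs hz h1 h2 m.natAbs m rfl N (by omega)
  | succ j ih =>
    intro m N hN
    rw [GG_rec1 hs, ← ih (m - 2) N (by omega), ← ih (m - 1) N (by omega)]
    simp only [PS]
    rw [← sum_sub_distrib]
    refine sum_congr rfl fun i _ ↦ ?_
    have h := NI_rec1 α β i j m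
    have e1 : ((j + 1 : ℕ) : ℤ) = (j : ℤ) + 1 := by push_cast; ring
    rw [e1, h]
    push_cast
    ring

end Gen

/-- The columns at an integer `m`: the polynomial identity in `s`. -/
theorem col_eval {K : Type*} [Field K] {α β : ℤ} {A B s : K} {m j : ℕ} (hj : 1 ≤ j)
    (hjm : j ≤ m - 1) (hs : s ≠ 0) (h1 : A + B = α)
    (h2 : A + B * s ^ 2 = (α + (α - β) * ((s - 1) ^ 2 / s)) * s) :
    ∑ i ∈ Icc 1 (m - 1), (NI α β i j m : K) * (s ^ (m - i) * (s - 1) ^ (2 * i)) =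
      A * (s ^ j * (s - 1) ^ j) + B * (s ^ (2 * m - 2 * j) * (1 - s) ^ j) := by
  have hz : (s - 1) ^ 2 / s * s = (s - 1) ^ 2 := div_mul_cancel₀ _ hs
  have h := gen (α := α) (β := β) (A := A) (B := B) hs hz h1 h2 j m (3 * m + 2) (by omega)
  have hsum : ∑ i ∈ Icc 1 (m - 1), (NI α β i j m : K) * ((s - 1) ^ 2 / s) ^ i =
      PS α β ((s - 1) ^ 2 / s) (3 * m + 2) j m := by
    rw [PS]
    refine sum_subset (fun i hi ↦ ?_) (fun i hi hi' ↦ ?_)
    · rw [mem_Icc] at hi; rw [mem_range]; omega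
    · rw [mem_Icc, not_and_or] at hi'
      have h0 : NI α β i j m = 0 := by
        unfold NI
        rcases hi' with h' | h'
        · have : i = 0 := by omega
          subst this
          rw [Ch_neg (by push_cast; omega), Ch_neg (by push_cast; omega)]
          ring
        · rw [Ch_big (by omega) (by omega), Ch_big (by omega) (by omega)]
          ring
      rw [h0, Int.cast_zero, zero_mul]
  have h3 : ∑ i ∈ Icc 1 (m - 1), (NI α β i j m : K) * (s ^ (m - i) * (s - 1) ^ (2 * i)) =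
      s ^ m * ∑ i ∈ Icc 1 (m - 1), (NI α β i j m : K) * ((s - 1) ^ 2 / s) ^ i := by
    rw [mul_sum]
    refine sum_congr rfl fun i hi ↦ ?_
    rw [mem_Icc] at hi
    have e1 : s ^ m = s ^ (m - i) * s ^ i := by rw [← pow_add]; congr 1; omega
    rw [e1, div_pow, pow_mul]
    field_simp
  rw [h3, hsum, h, GG]
  have e1 : s ^ m * s ^ ((j : ℤ) - m) = s ^ j := by
    rw [← zpow_natCast s m, ← zpow_add₀ hs, ← zpow_natCast s j]; congr 1; ring
  have e2 : s ^ m * s ^ ((m : ℤ) - 2 * (j : ℤ)) = s ^ (2 * m - 2 * j) := by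
    rw [← zpow_natCast s m, ← zpow_add₀ hs, ← zpow_natCast s (2 * m - 2 * j)]; congr 1
    omega
  calc s ^ m * (A * s ^ ((j : ℤ) - m) * (s - 1) ^ j + B * s ^ ((m : ℤ) - 2 * (j : ℤ)) * (1 - s) ^ j)
      = A * ((s ^ m * s ^ ((j : ℤ) - m)) * (s - 1) ^ j) +
          B * ((s ^ m * s ^ ((m : ℤ) - 2 * (j : ℤ))) * (1 - s) ^ j) := by ring
    _ = _ := by rw [e1, e2]

end GH.Mat.Rk
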