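import Pool.Agent.GH.Mat.Defs

/-!
# GH-MAT: the identity `A N = B` (WZ certificate)
-/

noncomputable section

namespace GH.Mat

variable {K : Type*} [Field K]

theorem wz_poly (i j k y : K) :
    (2 * i + 2 - j) * (2 * i + 1 - j) * (y - i - j - 1) * ((y - 2 * i + k) * (y - 2 * i + k - 1)) *
        (y - 3 * k) * (y - k - i) +
      (j - i) * (i + 1 - k) * (2 * y - 2 * i - j) * (2 * y - 2 * i - j - 1) * (y - k - 2 * i - 1) *
        (y - k - 2 * i - 2) * (y - 3 * k) =
    2 * (i + 1 - k) * (2 * k + 1) * (y - 2 * j + k) * (y - k - j) * (y - j - k - 1) *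
        (y - 2 * i - 1) * (y - k - i) +
      (2 * k - j) * (2 * k - j - 1) * (y - j - k) * (y - k + 1) * (y - k - 2 * i - 2) *
        (y - 2 * i - 1) * (y - 2 * i + k) := by
  ring

end GH.Mat
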